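import Pool.Agent.Lib.MP_ccbbf6_gt.S.SQ

/-!
# SJ: the inequality for the inverse of Q, equality case

Proof: `(QQ S u v)⁻¹ = sch (S u - S v)`, `Cm M x = sch ((M x)⁻¹)` and the superadditivity of the Schur complement (`T1/Pairs`).
-/

open Matrix Set Filter Topology
open scoped Real

namespace BL

open Pool.Agent.BL.T1

variable {a b : Type} [Fintype a] [DecidableEq a] [Fintype b] [DecidableEq b]
variable {M S : ℝ → Matrix (a ⊕ b) (a ⊕ b) ℝ} {Γ2 S2 : ℝ → Matrix b b ℝ}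

/-- the first block of columns of the identity matrix -/
def E1 (a b : Type) [DecidableEq a] [DecidableEq b] : Matrix (a ⊕ b) a ℝ := (1 : Matrix (a ⊕ b) (a ⊕ b) ℝ).submatrix id Sum.inl

omit [Fintype b] in
theorem sj_E1 (y : a → ℝ) : E1 a b *ᵥ y = Sum.elim y (0 : b → ℝ) := by
  ext i
  rcases i with i | i
  · simp [E1, mulVec, dotProduct, Matrix.one_apply]
  · simp [E1, mulVec, dotProduct]

theorem SData.sj_Cm (h : SData M S Γ2 S2) {x : ℝ} (hx : x ∈ Ioo 0 (2 * π)) (hx' : x ≠ π) :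
    sch ((M x)⁻¹) = Cm M x := sch_inv (h.Mpos x hx hx')

/-- replacing `sch (M⁻¹)` by `Cm` under an integral over an interval in `(0, 2π) \ {π}` -/
theorem SData.sj_int (h : SData M S Γ2 S2) {α β : ℝ} (hab : α ≤ β) (hc : (0 < α ∧ β < π) ∨ (π < α ∧ β < 2 * π))
    (y : a → ℝ) : ∫ x in α..β, qf (sch ((M x)⁻¹)) y = ∫ x in α..β, y ⬝ᵥ (Cm M x *ᵥ y) := by
  refine intervalIntegral.integral_congr fun x hx => ?_
  rw [uIcc_of_le hab] at hx
  have hxU := UU_iff.mp (JD.sub_UU hc x hx)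
  simp only [h.sj_Cm hxU.1 hxU.2, qf]

theorem SData.sj_inv (h : SData M S Γ2 S2) {u v : ℝ} (hu : 0 < u) (huv : u < v) (hv : v < 2 * π) (hu' : u ≠ π)
    (hv' : v ≠ π) (hne : v ≠ u + π) : (QQ S u v)⁻¹ = sch (S u - S v) := by
  have huU := sq_mem hu (huv.trans hv) hu'
  have hvU := sq_mem (hu.trans huv) hv hv'
  rw [h.QQ_eq_sch hu huv hv hu' hv' hne]
  refine nonsing_inv_nonsing_inv _ (isUnit_iff_ne_zero.mpr ?_)
  have h1 := h.conj u v hu huv hv hu' hv' hne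
  rw [det_eq_sch ((jd_of h).pos22' huU hvU huv).det_pos.ne'] at h1
  exact right_ne_zero_of_mul h1

theorem SData.jp1 (h : SData M S Γ2 S2) {u v : ℝ} (huv : u < v) (hc : (0 < u ∧ v < π) ∨ (π < u ∧ v < 2 * π))
    (y : a → ℝ) : ∫ x in u..v, y ⬝ᵥ (Cm M x *ᵥ y) ≤ y ⬝ᵥ ((QQ S u v)⁻¹ *ᵥ y) := by
  have hpi := Real.pi_pos
  have h1 := ((jd_of h).jp1 huv hc).2 y
  have h2 : (QQ S u v)⁻¹ = sch (S u - S v) := by
    rcases hc with ⟨h3, h4⟩ | ⟨h3, h4⟩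
    · exact h.sj_inv h3 huv (by linarith) (huv.trans h4).ne h4.ne (by linarith)
    · exact h.sj_inv (by linarith) huv h4 h3.ne' (h3.trans huv).ne' (by linarith)
  rw [h.sj_int huv.le hc] at h1
  rw [h2]
  exact h1

theorem SData.jp2 (h : SData M S Γ2 S2) {u v : ℝ} (hu : 0 < u) (hu' : u < π) (hv : π < v) (hv' : v < u + π)
    (y : a → ℝ) : ∫ x in v..(u + π), y ⬝ᵥ (Cm M x *ᵥ y) ≤ y ⬝ᵥ ((-(QQ S u v))⁻¹ *ᵥ y) := by
  have hpi := Real.pi_pos
  have h0 := (jd_of h).jp2 hu hu' hv hv'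
  have h1 := h0.2 y
  have h2 : (-(QQ S u v))⁻¹ = -(sch (S u - S v)) := by
    have h3 := h.sj_inv hu (hu'.trans hv) (by linarith) hu'.ne hv.ne' hv'.ne
    have hq := (h.QQ_2 hu hu' hv hv').det_pos.ne'
    rw [det_neg] at hq
    have hq' : IsUnit (QQ S u v).det := isUnit_iff_ne_zero.mpr (right_ne_zero_of_mul hq)
    apply inv_eq_right_inv
    rw [neg_mul_neg, ← h3, mul_nonsing_inv _ hq']
  rw [h.sj_int hv'.le (Or.inr ⟨hv, by linarith⟩)] at h1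
  rw [h2]
  exact h1

theorem SData.jp3 (h : SData M S Γ2 S2) {u v : ℝ} (hu : 0 < u) (hv : u + π < v) (hv' : v < 2 * π)
    (y : a → ℝ) : ∫ x in u..(v - π), y ⬝ᵥ (Cm M x *ᵥ y) ≤ y ⬝ᵥ ((QQ S u v)⁻¹ *ᵥ y) := by
  have hpi := Real.pi_pos
  have h1 := ((jd_of h).jp3 hu hv hv').2 y
  have h2 : (QQ S u v)⁻¹ = sch (S u - S v) :=
    h.sj_inv hu (by linarith) hv' (by linarith : u < π).ne (by linarith : π < v).ne' hv.ne'
  rw [h.sj_int (by linarith) (Or.inl ⟨hu, by linarith⟩)] at h1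
  rw [h2]
  exact h1

theorem SData.jp1_eq (h : SData M S Γ2 S2) {w z : ℝ} (hw : 0 < w) (hwz : w < z) (hz : z < π)
    (heq : ∀ y : a → ℝ, ∫ x in w..z, y ⬝ᵥ (Cm M x *ᵥ y) = y ⬝ᵥ ((QQ S w z)⁻¹ *ᵥ y)) :
    ∀ x ∈ Ioo w z, (∀ y : a → ℝ, ∫ s in w..x, y ⬝ᵥ (Cm M s *ᵥ y) = y ⬝ᵥ ((QQ S w x)⁻¹ *ᵥ y)) ∧
      (S w - S x)⁻¹ * E1 a b = M x * E1 a b * Cm M x * QQ S w x := by
  have hpi := Real.pi_pos
  have J := jd_of h
  have hI : ∀ s ∈ Icc w z, s ∈ UU := JD.sub_UU (Or.inl ⟨hw, hz⟩)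
  have hwU := hI w ⟨le_rfl, hwz.le⟩
  have hzU := hI z ⟨hwz.le, le_rfl⟩
  -- the minimiser is constant on `[w, z]`
  have hmin : ∀ y : a → ℝ, ∀ s ∈ Icc w z, umin ((M s)⁻¹) y = umin (S w - S z) y := by
    intro y
    refine J.jp1_eq hwz (Or.inl ⟨hw, hz⟩) y ?_
    rw [h.sj_int hwz.le (Or.inl ⟨hw, hz⟩), heq y,
      h.sj_inv hw hwz (by linarith) (hwz.trans hz).ne hz.ne (by linarith)]
    exact le_rfl
  intro x hx
  have hxI : x ∈ Icc w z := Ioo_subset_Icc_self hx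
  have hxU := hI x hxI
  have hxπ : x < π := hx.2.trans hz
  have hIx : ∀ s ∈ Icc w x, s ∈ UU := fun s hs => hI s ⟨hs.1, hs.2.trans hx.2.le⟩
  have hinvx : (QQ S w x)⁻¹ = sch (S w - S x) :=
    h.sj_inv hw hx.1 (by linarith) (hx.1.trans hxπ).ne hxπ.ne (by linarith)
  have hDs := J.symm_sub hwU hxU
  have hD22 := J.pos22' hwU hxU hx.1
  have hDpos := (J.jp1 hx.1 (Or.inl ⟨hw, hxπ⟩)).1
  have hMx := h.Mpos x (UU_iff.mp hxU).1 (UU_iff.mp hxU).2
  -- upper bound for the Schur complement of `S w - S x`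
  have hup : ∀ y : a → ℝ, qf (S w - S x) (Sum.elim y (umin (S w - S z) y))
      = ∫ s in w..x, qf (sch ((M s)⁻¹)) y := by
    intro y
    rw [J.int_full hx.1.le hIx]
    refine intervalIntegral.integral_congr fun s hs => ?_
    rw [uIcc_of_le hx.1.le] at hs
    have hsU := UU_iff.mp (hIx s hs)
    have hp := (h.Mpos s hsU.1 hsU.2).inv
    rw [← hmin y s ⟨hs.1, hs.2.trans hx.2.le⟩]
    exact qf_umin (posDef_symm hp) (posDef_toBlocks₂₂ hp).det_pos.ne' y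
  have hint : ∀ y : a → ℝ, ∫ s in w..x, qf (sch ((M s)⁻¹)) y = qf (sch (S w - S x)) y := by
    intro y
    refine le_antisymm ((J.jp1 hx.1 (Or.inl ⟨hw, hxπ⟩)).2 y) ?_
    rw [← hup y]
    exact qf_sch_le hDs hD22 y _
  refine ⟨fun y => ?_, ?_⟩
  · rw [← h.sj_int hx.1.le (Or.inl ⟨hw, hxπ⟩), hint y, hinvx]
    rfl
  · -- the minimisers of `S w - S x` and of `(M x)⁻¹` agree
    have hu1 : ∀ y : a → ℝ, umin (S w - S z) y = umin (S w - S x) y := fun y =>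
      eq_umin hDs hD22 ((hup y).trans (hint y))
    have hu2 : ∀ y : a → ℝ, umin ((M x)⁻¹) y = umin (S w - S x) y := fun y =>
      (hmin y x hxI).trans (hu1 y)
    have hdetD : IsUnit (S w - S x).det := isUnit_iff_ne_zero.mpr hDpos.det_pos.ne'
    have hdetM : IsUnit (M x).det := isUnit_iff_ne_zero.mpr hMx.det_pos.ne'
    -- `(y, u) = Δ⁻¹ (sch Δ y, 0)`
    have hv1 : ∀ y : a → ℝ, Sum.elim y (umin (S w - S x) y)
        = (S w - S x)⁻¹ *ᵥ (E1 a b *ᵥ (sch (S w - S x) *ᵥ y)) := by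
      intro y
      rw [sj_E1, ← mul_umin hD22.det_pos.ne' y, mulVec_mulVec, nonsing_inv_mul _ hdetD, one_mulVec]
    have hv2 : ∀ y : a → ℝ, Sum.elim y (umin ((M x)⁻¹) y) = M x *ᵥ (E1 a b *ᵥ (Cm M x *ᵥ y)) := by
      intro y
      have hp := hMx.inv
      rw [sj_E1, ← h.sj_Cm (UU_iff.mp hxU).1 (UU_iff.mp hxU).2,
        ← mul_umin (posDef_toBlocks₂₂ hp).det_pos.ne' y, mulVec_mulVec,
        mul_nonsing_inv _ hdetM, one_mulVec]
    have hmat : (S w - S x)⁻¹ * E1 a b * sch (S w - S x) = M x * E1 a b * Cm M x := by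
      apply Matrix.toLin'.injective
      apply LinearMap.ext
      intro y
      rw [toLin'_apply, toLin'_apply]
      have h3 := hv1 y
      rw [← hu2 y, hv2 y] at h3
      simpa only [mulVec_mulVec, Matrix.mul_assoc] using h3.symm
    have hQ : sch (S w - S x) * QQ S w x = 1 := by
      rw [h.QQ_eq_sch hw hx.1 (by linarith) (hx.1.trans hxπ).ne hxπ.ne (by linarith)]
      exact mul_nonsing_inv _ (isUnit_iff_ne_zero.mpr (posDef_sch hDpos).det_pos.ne')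
    calc (S w - S x)⁻¹ * E1 a b = (S w - S x)⁻¹ * E1 a b * (sch (S w - S x) * QQ S w x) := by
          rw [hQ, Matrix.mul_one]
      _ = ((S w - S x)⁻¹ * E1 a b * sch (S w - S x)) * QQ S w x := by
          simp only [Matrix.mul_assoc]
      _ = _ := by rw [hmat]

end BL
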