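import Pool.Agent.Lib.MP_ccbbf6_gt.S.SG
import Pool.Agent.Lib.MP_ccbbf6_gt.S.SJ

/-!
# SGb: the inequality for a pair u < v in (0, 2π)

* `pair1`, `pair2`, `pair3`: `SData.LL_split`, `SData.half_log_det` at `u` and `v`, `gb`, `gj` with
  `K = (QQ S u v)⁻¹` resp. `(-(QQ S u v))⁻¹` (`QQ_1`, `QQ_2`, `QQ_3`, `jp1`, `jp2`, `jp3`; inverses of positive definite matrices are positive definite), `log det K = - log |det QQ|`.
  Intervals `(α, β)`: `(u, v)`, `(v, u + π)`, `(u, v - π)`; `cot u - cot v = sin (v-u) / (sin u sin v)`, `cot (u+π) = cot u`, signs of the sines.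
* `pair1_eq`: equality forces equality in `gb` and in `gj` (both are inequalities adding up), then the equality statements of `gb`, `gj`.
-/

open Matrix Set Filter Topology
open scoped Real

namespace BL

variable {a b : Type} [Fintype a] [DecidableEq a] [Fintype b] [DecidableEq b]
variable {M S : ℝ → Matrix (a ⊕ b) (a ⊕ b) ℝ} {Γ2 S2 : ℝ → Matrix b b ℝ}

theorem sgb_log_inv (P : Matrix a a ℝ) : Real.log (P⁻¹).det = -Real.log |P.det| := by
  rw [Matrix.det_nonsing_inv, Ring.inverse_eq_inv', Real.log_inv, Real.log_abs]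

theorem sgb_log_inv_neg (P : Matrix a a ℝ) : Real.log ((-P)⁻¹).det = -Real.log |P.det| := by
  rw [sgb_log_inv, Matrix.det_neg, abs_mul, abs_pow, abs_neg, abs_one, one_pow, one_mul]

theorem SData.pair_comb (h : SData M S Γ2 S2) {u v α β : ℝ} (hu : 0 < u) (huv : u < v) (hv : v < 2 * π) (hu' : u ≠ π)
    (hv' : v ≠ π) (hne : v ≠ u + π)
    (hj : (Fintype.card a : ℝ) * Real.log |Real.sin (v - u)| - 2 * ∫ x in α..β, rho u v x * ph M x
      ≤ -Real.log |(QQ S u v).det| + (Fintype.card a : ℝ) * Real.log |Real.sin u|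
        + (Fintype.card a : ℝ) * Real.log |Real.sin v|) :
    Gp M Γ2 u v α β ≤ LL M S u v := by
  have hb := (h.gb hu huv hv).1
  rw [(h.LL_split hu huv hv hu' hv' hne).2, h.half_log_det ⟨hu, huv.trans hv⟩ hu',
    h.half_log_det ⟨hu.trans huv, hv⟩ hv']
  unfold Gp F0
  linarith

theorem sgb_cot {u v : ℝ} (hu : Real.sin u ≠ 0) (hv : Real.sin v ≠ 0) :
    Real.cos u / Real.sin u - Real.cos v / Real.sin v = Real.sin (v - u) / (Real.sin u * Real.sin v) := by
  rw [Real.sin_sub]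
  field_simp

/-- the sines have the same sign -/
theorem sgb_sin1 {u v : ℝ} (huv : u < v) (hc : (0 < u ∧ v < π) ∨ (π < u ∧ v < 2 * π)) :
    Real.sin u ≠ 0 ∧ Real.sin v ≠ 0 ∧ 0 < Real.sin (v - u) ∧ 0 < Real.sin u * Real.sin v := by
  have hpi := Real.pi_pos
  rcases hc with hc | hc
  · have h1 : 0 < Real.sin u := Real.sin_pos_of_pos_of_lt_pi hc.1 (by linarith [hc.2])
    have h2 : 0 < Real.sin v := Real.sin_pos_of_pos_of_lt_pi (by linarith [hc.1]) hc.2
    exact ⟨h1.ne', h2.ne', Real.sin_pos_of_pos_of_lt_pi (by linarith) (by linarith [hc.1, hc.2]), mul_pos h1 h2⟩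
  · have h1 : 0 < Real.sin (u - π) := Real.sin_pos_of_pos_of_lt_pi (by linarith [hc.1]) (by linarith [hc.2])
    have h2 : 0 < Real.sin (v - π) := Real.sin_pos_of_pos_of_lt_pi (by linarith [hc.1]) (by linarith [hc.2])
    rw [Real.sin_sub_pi] at h1 h2
    have h1' := neg_pos.1 h1
    have h2' := neg_pos.1 h2
    exact ⟨h1'.ne, h2'.ne, Real.sin_pos_of_pos_of_lt_pi (by linarith) (by linarith [hc.1, hc.2]),
      mul_pos_of_neg_of_neg h1' h2'⟩

theorem SData.pair1_gj (h : SData M S Γ2 S2) {u v : ℝ} (huv : u < v)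
    (hc : (0 < u ∧ v < π) ∨ (π < u ∧ v < 2 * π)) :
    ((Fintype.card a : ℝ) * Real.log |Real.sin (v - u)| - 2 * ∫ x in u..v, rho u v x * ph M x
      ≤ Real.log ((QQ S u v)⁻¹).det + (Fintype.card a : ℝ) * Real.log |Real.sin u|
        + (Fintype.card a : ℝ) * Real.log |Real.sin v|) ∧
    ((Fintype.card a : ℝ) * Real.log |Real.sin (v - u)| - 2 * ∫ x in u..v, rho u v x * ph M x
      = Real.log ((QQ S u v)⁻¹).det + (Fintype.card a : ℝ) * Real.log |Real.sin u|
        + (Fintype.card a : ℝ) * Real.log |Real.sin v| →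
      ∀ x ∈ Icc u v, Cm M x = rho u v x • (QQ S u v)⁻¹) := by
  obtain ⟨h1, h2, h3, h4⟩ := sgb_sin1 huv hc
  refine h.gj h1 h2 h3.ne' huv hc ?_ (h.QQ_1 huv hc).inv (h.jp1 huv hc)
  rw [sgb_cot h1 h2, abs_of_pos h3, abs_of_pos h4]

theorem SData.pair1 (h : SData M S Γ2 S2) {u v : ℝ} (huv : u < v) (hc : (0 < u ∧ v < π) ∨ (π < u ∧ v < 2 * π)) :
    Gp M Γ2 u v u v ≤ LL M S u v := by
  have hpi := Real.pi_pos
  have hj := (h.pair1_gj huv hc).1
  rw [sgb_log_inv] at hj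
  refine h.pair_comb ?_ huv ?_ ?_ ?_ ?_ hj
  · rcases hc with hc | hc
    · exact hc.1
    · linarith [hc.1]
  · rcases hc with hc | hc
    · linarith [hc.2]
    · exact hc.2
  · rcases hc with hc | hc
    · exact (huv.trans hc.2).ne
    · exact hc.1.ne'
  · rcases hc with hc | hc
    · exact hc.2.ne
    · exact (hc.1.trans huv).ne'
  · intro he
    rcases hc with hc | hc
    · linarith [hc.1, hc.2]
    · linarith [hc.1, hc.2]

theorem SData.pair2 (h : SData M S Γ2 S2) {u v : ℝ} (hu : 0 < u) (hu' : u < π) (hv : π < v) (hv' : v < u + π) :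
    Gp M Γ2 u v v (u + π) ≤ LL M S u v := by
  have hpi := Real.pi_pos
  have h1 : 0 < Real.sin u := Real.sin_pos_of_pos_of_lt_pi hu hu'
  have h2 : 0 < Real.sin (v - π) := Real.sin_pos_of_pos_of_lt_pi (by linarith) (by linarith)
  rw [Real.sin_sub_pi] at h2
  have h2' := neg_pos.1 h2
  have h3 : 0 < Real.sin (v - u) := Real.sin_pos_of_pos_of_lt_pi (by linarith) (by linarith)
  have hj := (h.gj h1.ne' h2'.ne h3.ne' hv' (Or.inr ⟨hv, by linarith⟩) (by
    rw [Real.cos_add_pi, Real.sin_add_pi, neg_div_neg_eq]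
    have := sgb_cot h1.ne' h2'.ne
    rw [abs_of_pos h3, abs_of_neg (mul_neg_of_pos_of_neg h1 h2'), div_neg]
    linarith) (h.QQ_2 hu hu' hv hv').inv (h.jp2 hu hu' hv hv')).1
  rw [sgb_log_inv_neg] at hj
  exact h.pair_comb hu (hu'.trans hv) (by linarith) hu'.ne hv.ne' hv'.ne hj

theorem SData.pair3 (h : SData M S Γ2 S2) {u v : ℝ} (hu : 0 < u) (hv : u + π < v) (hv' : v < 2 * π) :
    Gp M Γ2 u v u (v - π) ≤ LL M S u v := by
  have hpi := Real.pi_pos
  have h1 : 0 < Real.sin u := Real.sin_pos_of_pos_of_lt_pi hu (by linarith)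
  have h2 : 0 < Real.sin (v - π) := Real.sin_pos_of_pos_of_lt_pi (by linarith) (by linarith)
  rw [Real.sin_sub_pi] at h2
  have h2' := neg_pos.1 h2
  have h3 : 0 < Real.sin (v - u - π) := Real.sin_pos_of_pos_of_lt_pi (by linarith) (by linarith)
  rw [Real.sin_sub_pi] at h3
  have h3' := neg_pos.1 h3
  have hj := (h.gj h1.ne' h2'.ne h3'.ne (show u < v - π by linarith) (Or.inl ⟨hu, by linarith⟩) (by
    rw [Real.cos_sub_pi, Real.sin_sub_pi, neg_div_neg_eq, sgb_cot h1.ne' h2'.ne, abs_of_neg h3',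
      abs_of_neg (mul_neg_of_pos_of_neg h1 h2'), neg_div_neg_eq]) (h.QQ_3 hu hv hv').inv (h.jp3 hu hv hv')).1
  rw [sgb_log_inv] at hj
  exact h.pair_comb hu (by linarith) hv' (by linarith : u < π).ne (by linarith : π < v).ne' hv.ne' hj

theorem SData.pair1_eq (h : SData M S Γ2 S2) {u v : ℝ} (hu : 0 < u) (huv : u < v) (hv : v < π)
    (heq : Gp M Γ2 u v u v = LL M S u v) :
    (∀ x ∈ Icc u v, Γ2 x = rho2 u v x • (S2 u - S2 v)) ∧
    (∀ x ∈ Icc u v, Cm M x = rho u v x • (QQ S u v)⁻¹) := by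
  have hpi := Real.pi_pos
  have hj := h.pair1_gj huv (Or.inl ⟨hu, hv⟩)
  have hb := h.gb hu huv (by linarith : v < 2 * π)
  have hL := (h.LL_split hu huv (by linarith : v < 2 * π) (huv.trans hv).ne hv.ne (by linarith : v < u + π).ne).2
  rw [h.half_log_det ⟨hu, by linarith⟩ (huv.trans hv).ne, h.half_log_det ⟨hu.trans huv, by linarith⟩ hv.ne] at hL
  rw [hL] at heq
  unfold Gp F0 at heq
  rw [sgb_log_inv] at hj
  refine ⟨hb.2 ?_, hj.2 ?_⟩
  · linarith [hb.1, hj.1]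
  · linarith [hb.1, hj.1]

end BL
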