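import Pool.Agent.Lib.MP_ccbbf6_gt.S.SB

/-!
# SP: φ and ψ are continuous and bounded

* `bdd_of_lim`: `continuousOn_Icc_extendFrom_Ioo` (or: bounded near both ends by the limits, bounded on the compact rest).
* `ph_cont`, `ps_cont`: `M`, `Γ2` continuous with positive determinant (`block_pos`, `Matrix.PosDef.det_pos`), `cont_det`, `Real.continuousAt_log`, `sin x ≠ 0` for `x ≠ π`, `sin (x/2) > 0`.
* `ph_lim`: `(1/2) log det M₁₁ - κ log |sin x| = (1/2) log det ((x - c)⁻² • M₁₁) - κ log (|sin x| / |x - c|)` for `x ≠ c` near `c ∈ {0, π, 2π}` (`Matrix.det_smul`);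
  the first tends to `(1/2) log det G` (`G = 1` at `0` and `2π`; `M0`, `M2`, `Gpi`), `|sin x| / |x - c| → |cos c| = 1` (derivative of `sin` at `c`: `hasDerivAt_iff_tendsto_slope`).
* `ps_lim`: by `half_log_det`: `ψ = (1/2) log det M - φ - κ log |sin x| - ν log (2 sin (x/2))` near `0+` and `2π-`; with `det ((x - c)⁻² • M) → 1`, `|sin x| / |x-c| → 1`, `2 sin (x/2) / |x-c| → 1`.
-/

open Matrix Set Filter Topology
open scoped Real

namespace BL

variable {a b : Type} [Fintype a] [DecidableEq a] [Fintype b] [DecidableEq b]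
variable {M S : ℝ → Matrix (a ⊕ b) (a ⊕ b) ℝ} {Γ2 S2 : ℝ → Matrix b b ℝ}

theorem bdd_of_lim {f : ℝ → ℝ} {α β l l' : ℝ} (hab : α < β) (hc : ∀ x ∈ Ioo α β, ContinuousAt f x)
    (h1 : Tendsto f (𝓝[>] α) (𝓝 l)) (h2 : Tendsto f (𝓝[<] β) (𝓝 l')) : ∃ K : ℝ, ∀ x ∈ Ioo α β, |f x| ≤ K := by
  have hco : ContinuousOn f (Ioo α β) := fun x hx => (hc x hx).continuousWithinAt
  have he := continuousOn_Icc_extendFrom_Ioo hco h1 h2
  obtain ⟨K, hK⟩ := isCompact_Icc.exists_bound_of_continuousOn he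
  refine ⟨K, fun x hx => ?_⟩
  have h3 := hK x (Ioo_subset_Icc_self hx)
  have h4 : extendFrom (Ioo α β) f x = f x :=
    extendFrom_eq (subset_closure hx) ((hc x hx).continuousWithinAt)
  rw [h4] at h3
  simpa [Real.norm_eq_abs] using h3

theorem sp_cont11 {M : ℝ → Matrix (a ⊕ b) (a ⊕ b) ℝ} {x : ℝ} (h : ContinuousAt M x) :
    ContinuousAt (fun y => (M y).toBlocks₁₁) x := by
  refine continuousAt_pi.2 fun i => continuousAt_pi.2 fun j => ?_
  have h1 : Continuous fun N : Matrix (a ⊕ b) (a ⊕ b) ℝ => N (Sum.inl i) (Sum.inl j) :=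
    continuous_id.matrix_elem (Sum.inl i) (Sum.inl j)
  exact h1.continuousAt.comp h

theorem sp_tend11 {M : ℝ → Matrix (a ⊕ b) (a ⊕ b) ℝ} {F : Filter ℝ} {G : Matrix (a ⊕ b) (a ⊕ b) ℝ}
    (h : Tendsto M F (𝓝 G)) : Tendsto (fun y => (M y).toBlocks₁₁) F (𝓝 G.toBlocks₁₁) := by
  refine tendsto_pi_nhds.2 fun i => tendsto_pi_nhds.2 fun j => ?_
  have h1 : Continuous fun N : Matrix (a ⊕ b) (a ⊕ b) ℝ => N (Sum.inl i) (Sum.inl j) :=
    continuous_id.matrix_elem (Sum.inl i) (Sum.inl j)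
  exact (h1.tendsto G).comp h

theorem SData.ph_cont (h : SData M S Γ2 S2) {x : ℝ} (hx : x ∈ Ioo 0 (2 * π)) (hx' : x ≠ π) :
    ContinuousAt (ph M) x := by
  have h1 := cont_det (sp_cont11 (h.Mcont x hx hx'))
  have h2 : (0 : ℝ) < ((M x).toBlocks₁₁).det := (block_pos (h.Mpos x hx hx')).1.det_pos
  have h3 : Real.sin x ≠ 0 := by
    rcases lt_or_gt_of_ne hx' with h4 | h4
    · exact (Real.sin_pos_of_pos_of_lt_pi hx.1 h4).ne'
    · have h5 : 0 < Real.sin (x - π) :=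
        Real.sin_pos_of_pos_of_lt_pi (by linarith) (by linarith [hx.2])
      have h6 : Real.sin x = - Real.sin (x - π) := by
        rw [Real.sin_sub_pi]; ring
      rw [h6]
      exact neg_ne_zero.2 h5.ne'
  have h4 : ContinuousAt (fun y => Real.log ((M y).toBlocks₁₁).det) x := h1.log h2.ne'
  have h5 : ContinuousAt (fun y => Real.log |Real.sin y|) x := by
    refine ContinuousAt.log ?_ (abs_ne_zero.2 h3)
    exact (Real.continuous_sin.abs).continuousAt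
  exact (continuousAt_const.mul h4).sub (continuousAt_const.mul h5)

theorem sp_half_pos {x : ℝ} (hx : x ∈ Ioo 0 (2 * π)) : 0 < Real.sin (x / 2) :=
  Real.sin_pos_of_pos_of_lt_pi (by linarith [hx.1]) (by linarith [hx.2])

theorem SData.ps_cont (h : SData M S Γ2 S2) {x : ℝ} (hx : x ∈ Ioo 0 (2 * π)) : ContinuousAt (ps Γ2) x := by
  have h1 := cont_det (h.G2cont x hx)
  have h2 : (0 : ℝ) < (Γ2 x).det := (h.G2pos x hx).det_pos
  have h4 : ContinuousAt (fun y => Real.log (Γ2 y).det) x := h1.log h2.ne'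
  have h5 : ContinuousAt (fun y : ℝ => Real.log (2 * Real.sin (y / 2))) x := by
    refine ContinuousAt.log ?_ (by have := sp_half_pos hx; positivity)
    have : Continuous fun y : ℝ => 2 * Real.sin (y / 2) :=
      continuous_const.mul (Real.continuous_sin.comp (continuous_id.div_const 2))
    exact this.continuousAt
  exact (continuousAt_const.mul h4).sub (continuousAt_const.mul h5)

/-- `|sin x| / |x - c| → 1` -/
theorem sp_sin {c : ℝ} (h0 : Real.sin c = 0) :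
    Tendsto (fun x => |Real.sin x| / |x - c|) (𝓝[≠] c) (𝓝 1) := by
  have h1 := hasDerivAt_iff_tendsto_slope.1 (Real.hasDerivAt_sin c)
  have h2 : |Real.cos c| = 1 := by
    have h3 := Real.sin_sq_add_cos_sq c
    rw [h0] at h3
    have h4 : Real.cos c ^ 2 = 1 := by linarith
    rw [← Real.sqrt_sq_eq_abs, h4, Real.sqrt_one]
  have h5 := h1.abs
  rw [h2] at h5
  refine h5.congr fun x => ?_
  rw [slope_def_field, h0, sub_zero, abs_div]

/-- `|2 sin (x/2)| / |x - c| → 1` -/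
theorem sp_sin2 {c : ℝ} (h0 : Real.sin (c / 2) = 0) :
    Tendsto (fun x => |2 * Real.sin (x / 2)| / |x - c|) (𝓝[≠] c) (𝓝 1) := by
  have hd : HasDerivAt (fun x : ℝ => 2 * Real.sin (x / 2)) (Real.cos (c / 2)) c := by
    have h1 : HasDerivAt (fun x : ℝ => x / 2) (1 / 2) c := (hasDerivAt_id c).div_const 2
    have h2 := ((Real.hasDerivAt_sin (c / 2)).comp c h1).const_mul 2
    have e : 2 * (Real.cos (c / 2) * (1 / 2)) = Real.cos (c / 2) := by ring
    rw [e] at h2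
    exact h2
  have h1 := hasDerivAt_iff_tendsto_slope.1 hd
  have h2 : |Real.cos (c / 2)| = 1 := by
    have h3 := Real.sin_sq_add_cos_sq (c / 2)
    rw [h0] at h3
    have h4 : Real.cos (c / 2) ^ 2 = 1 := by linarith
    rw [← Real.sqrt_sq_eq_abs, h4, Real.sqrt_one]
  have h5 := h1.abs
  rw [h2] at h5
  refine h5.congr fun x => ?_
  rw [slope_def_field, h0, mul_zero, sub_zero, abs_div]

/-- scaling of `log det` -/
theorem sp_logdet {n : Type} [Fintype n] [DecidableEq n] {A : Matrix n n ℝ} {d : ℝ} (hd : d ≠ 0)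
    (hp : 0 < ((d ^ 2)⁻¹ • A).det) :
    Real.log A.det = Real.log ((d ^ 2)⁻¹ • A).det + 2 * (Fintype.card n : ℝ) * Real.log |d| := by
  have h1 : ((d ^ 2)⁻¹ • A).det = ((d ^ 2)⁻¹) ^ (Fintype.card n) * A.det := Matrix.det_smul _ _
  have h2 : (0 : ℝ) < (d ^ 2)⁻¹ := by positivity
  have h3 : 0 < A.det := by
    rw [h1] at hp
    exact (pos_iff_pos_of_mul_pos hp).1 (pow_pos h2 _)
  rw [h1, Real.log_mul (pow_pos h2 _).ne' h3.ne', Real.log_pow, Real.log_inv, Real.log_pow, Real.log_abs]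
  push_cast
  ring

theorem sp_lim {n : Type} [Fintype n] [DecidableEq n] {A : ℝ → Matrix n n ℝ} {F : Filter ℝ} {c : ℝ}
    {G : Matrix n n ℝ} (hG : 0 < G.det) (hF : F ≤ 𝓝[≠] c)
    (hA : Tendsto (fun x => ((x - c) ^ 2)⁻¹ • A x) F (𝓝 G)) :
    Tendsto (fun x => (1 / 2) * Real.log (A x).det - (Fintype.card n : ℝ) * Real.log |x - c|) F
      (𝓝 ((1 / 2) * Real.log G.det)) := by
  have h1 : Tendsto (fun x => (((x - c) ^ 2)⁻¹ • A x).det) F (𝓝 G.det) := by
    have h2 : Continuous fun N : Matrix n n ℝ => N.det := continuous_id.matrix_det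
    exact (h2.tendsto G).comp hA
  have h3 : Tendsto (fun x => (1 / 2) * Real.log (((x - c) ^ 2)⁻¹ • A x).det) F
      (𝓝 ((1 / 2) * Real.log G.det)) := (h1.log hG.ne').const_mul _
  refine h3.congr' ?_
  have h4 : ∀ᶠ x in F, x ≠ c := hF (self_mem_nhdsWithin)
  filter_upwards [h4, h1.eventually (lt_mem_nhds hG)] with x hx hp
  rw [sp_logdet (sub_ne_zero.2 hx) hp]
  ring

theorem SData.ph_lim_aux {M : ℝ → Matrix (a ⊕ b) (a ⊕ b) ℝ} {F : Filter ℝ} {c : ℝ} {G : Matrix a a ℝ}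
    (hc : Real.sin c = 0) (hG : 0 < G.det) (hF : F ≤ 𝓝[≠] c)
    (hA : Tendsto (fun x => ((x - c) ^ 2)⁻¹ • (M x).toBlocks₁₁) F (𝓝 G)) :
    Tendsto (ph M) F (𝓝 ((1 / 2) * Real.log G.det)) := by
  have h1 := sp_lim hG hF hA
  have h2 : Tendsto (fun x => |Real.sin x| / |x - c|) F (𝓝 1) := (sp_sin hc).mono_left hF
  have h3 : Tendsto (fun x => (Fintype.card a : ℝ) * Real.log (|Real.sin x| / |x - c|)) F (𝓝 0) := by
    have := (h2.log one_ne_zero).const_mul (Fintype.card a : ℝ)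
    simpa using this
  have h4 := h1.sub h3
  rw [sub_zero] at h4
  refine h4.congr' ?_
  have h5 : ∀ᶠ x in F, x ≠ c := hF (self_mem_nhdsWithin)
  filter_upwards [h5, h2.eventually (lt_mem_nhds one_pos)] with x hx hp
  have h6 : |x - c| ≠ 0 := abs_ne_zero.2 (sub_ne_zero.2 hx)
  have h7 : |Real.sin x| ≠ 0 := by
    intro h8
    rw [h8, zero_div] at hp
    exact lt_irrefl _ hp
  rw [Real.log_div h7 h6]
  unfold ph
  ring

theorem SData.ph_lim (h : SData M S Γ2 S2) :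
    Tendsto (ph M) (𝓝[>] 0) (𝓝 0) ∧ Tendsto (ph M) (𝓝[<] (2 * π)) (𝓝 0) ∧ ∃ l, Tendsto (ph M) (𝓝[≠] π) (𝓝 l) := by
  have e11 : (1 : Matrix (a ⊕ b) (a ⊕ b) ℝ).toBlocks₁₁ = 1 := by
    ext i j
    simp [Matrix.toBlocks₁₁, Matrix.one_apply]
  refine ⟨?_, ?_, ?_⟩
  · have h1 := SData.ph_lim_aux (M := M) (F := 𝓝[>] (0 : ℝ)) (c := 0) (G := 1) Real.sin_zero (by simp)
      (nhdsWithin_mono _ fun x hx => ne_of_gt hx) (by
        have h2 := sp_tend11 h.M0
        rw [e11] at h2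
        refine h2.congr fun x => ?_
        rw [sub_zero]
        rfl)
    simpa using h1
  · have h1 := SData.ph_lim_aux (M := M) (F := 𝓝[<] (2 * π)) (c := 2 * π) (G := 1) Real.sin_two_pi (by simp)
      (nhdsWithin_mono _ fun x hx => ne_of_lt hx) (by
        have h2 := sp_tend11 h.M2
        rw [e11] at h2
        exact h2)
    simpa using h1
  · obtain ⟨G, hG, hl⟩ := h.Gpi
    exact ⟨_, SData.ph_lim_aux Real.sin_pi hG.det_pos le_rfl hl⟩

theorem SData.ps_lim_aux (h : SData M S Γ2 S2) {F : Filter ℝ} {c : ℝ}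
    (hc : Real.sin c = 0) (hc2 : Real.sin (c / 2) = 0) (hF : F ≤ 𝓝[≠] c)
    (hF2 : ∀ᶠ x in F, x ∈ Ioo 0 (2 * π) ∧ x ≠ π)
    (hA : Tendsto (fun x => ((x - c) ^ 2)⁻¹ • M x) F (𝓝 1)) (hph : Tendsto (ph M) F (𝓝 0)) :
    Tendsto (ps Γ2) F (𝓝 0) := by
  have h1 := sp_lim (G := (1 : Matrix (a ⊕ b) (a ⊕ b) ℝ)) (by simp) hF hA
  have h2 : Tendsto (fun x => |Real.sin x| / |x - c|) F (𝓝 1) := (sp_sin hc).mono_left hF
  have h2' : Tendsto (fun x => |2 * Real.sin (x / 2)| / |x - c|) F (𝓝 1) := (sp_sin2 hc2).mono_left hF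
  have h3 : Tendsto (fun x => (Fintype.card a : ℝ) * Real.log (|Real.sin x| / |x - c|)) F (𝓝 0) := by
    have := (h2.log one_ne_zero).const_mul (Fintype.card a : ℝ)
    simpa using this
  have h3' : Tendsto (fun x => (Fintype.card b : ℝ) * Real.log (|2 * Real.sin (x / 2)| / |x - c|)) F (𝓝 0) := by
    have := (h2'.log one_ne_zero).const_mul (Fintype.card b : ℝ)
    simpa using this
  have h4 := ((h1.sub hph).sub h3).sub h3'
  have e0 : (1 / 2) * Real.log (1 : Matrix (a ⊕ b) (a ⊕ b) ℝ).det - 0 - 0 - 0 = 0 := by simp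
  rw [e0] at h4
  refine h4.congr' ?_
  have h5 : ∀ᶠ x in F, x ≠ c := hF (self_mem_nhdsWithin)
  filter_upwards [h5, h2.eventually (lt_mem_nhds one_pos), hF2] with x hx hp hx2
  have h6 : |x - c| ≠ 0 := abs_ne_zero.2 (sub_ne_zero.2 hx)
  have h7 : |Real.sin x| ≠ 0 := by
    intro h8
    rw [h8, zero_div] at hp
    exact lt_irrefl _ hp
  have h8 : |2 * Real.sin (x / 2)| ≠ 0 := by
    have := sp_half_pos hx2.1
    exact abs_ne_zero.2 (by positivity)
  rw [Real.log_div h7 h6, Real.log_div h8 h6, Real.log_abs (2 * Real.sin (x / 2)),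
    h.half_log_det hx2.1 hx2.2, Fintype.card_sum]
  push_cast
  ring

theorem SData.ps_lim (h : SData M S Γ2 S2) :
    Tendsto (ps Γ2) (𝓝[>] 0) (𝓝 0) ∧ Tendsto (ps Γ2) (𝓝[<] (2 * π)) (𝓝 0) := by
  have hπ := Real.pi_pos
  refine ⟨?_, ?_⟩
  · refine h.ps_lim_aux (F := 𝓝[>] (0 : ℝ)) (c := 0) Real.sin_zero (by simp)
      (nhdsWithin_mono _ fun x hx => ne_of_gt hx) ?_ ?_ h.ph_lim.1
    · filter_upwards [Ioo_mem_nhdsGT hπ] with x hx
      exact ⟨⟨hx.1, by linarith [hx.2]⟩, ne_of_lt hx.2⟩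
    · refine h.M0.congr fun x => ?_
      rw [sub_zero]
  · refine h.ps_lim_aux (F := 𝓝[<] (2 * π)) (c := 2 * π) Real.sin_two_pi (by
        rw [mul_div_cancel_left₀ _ (two_ne_zero)]; exact Real.sin_pi)
      (nhdsWithin_mono _ fun x hx => ne_of_lt hx) ?_ h.M2 h.ph_lim.2.1
    filter_upwards [Ioo_mem_nhdsLT (show π < 2 * π by linarith)] with x hx
    exact ⟨⟨by linarith [hx.1], hx.2⟩, ne_of_gt hx.1⟩

theorem SData.ph_bdd (h : SData M S Γ2 S2) : ∃ K : ℝ, ∀ x ∈ Ioo 0 (2 * π), x ≠ π → |ph M x| ≤ K := by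
  have hπ := Real.pi_pos
  obtain ⟨l1, l2, l, l3⟩ := h.ph_lim
  obtain ⟨K1, hK1⟩ := bdd_of_lim hπ (fun x hx => h.ph_cont ⟨hx.1, by linarith [hx.2]⟩ (ne_of_lt hx.2)) l1
    (l3.mono_left (nhdsWithin_mono _ fun x hx => ne_of_lt hx))
  obtain ⟨K2, hK2⟩ := bdd_of_lim (show π < 2 * π by linarith)
    (fun x hx => h.ph_cont ⟨by linarith [hx.1], hx.2⟩ (ne_of_gt hx.1))
    (l3.mono_left (nhdsWithin_mono _ fun x hx => ne_of_gt hx)) l2
  refine ⟨max K1 K2, fun x hx hx' => ?_⟩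
  rcases lt_or_gt_of_ne hx' with h4 | h4
  · exact (hK1 x ⟨hx.1, h4⟩).trans (le_max_left _ _)
  · exact (hK2 x ⟨h4, hx.2⟩).trans (le_max_right _ _)

theorem SData.ps_bdd (h : SData M S Γ2 S2) : ∃ K : ℝ, ∀ x ∈ Ioo 0 (2 * π), |ps Γ2 x| ≤ K := by
  have hπ := Real.pi_pos
  exact bdd_of_lim (by linarith) (fun x hx => h.ps_cont hx) h.ps_lim.1 h.ps_lim.2

end BL
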