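import Pool.Agent.Lib.MP_ccbbf6_gt.ASc
import Pool.Agent.Lib.MP_ccbbf6_gt.S.SGb
import Pool.Agent.Lib.MP_ccbbf6_gt.S.SP

/-!
# ST: the integrated inequality, and pointwise equality on the first family

`D w` stands for `log |det A(w, w+t)|` (period `2π`): `D w = LL w (w+t)` while `w + t < 2π`, and for `w = 2π - t + s`, `0 < s < t`, the pair is `(s, s + (2π - t))`.
Split `∫ 0..2π D = ∫ 0..(π-t) + ∫ (π-t)..π + ∫ π..(2π-t) + ∫ (2π-t)..2π` and translate: second with `w = π - t + s`, third with `w = π + w'`, fourth with `w = 2π - t + s`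
(`intervalIntegral.integral_comp_add_left`).  Pointwise: `pair1` for the first and third families, `pair2` for the second, `pair3` for the fourth;
`Gp M Γ2 u v α β = Gc (ph M) (ps Γ2) (F0 a b t) u v α β` because `F0 a b (v - u) = F0 a b t` for `v - u = t` or `2π - t` (`|sin (2π - t)| = |sin t|`, `sin ((2π-t)/2) = sin (t/2)`).
Integrate (`intervalIntegral.integral_mono_on_of_le_Ioo`) and use `four_sum` with `f = ph M`, `g = ps Γ2` (`ph_cont`, `ph_bdd`, `ps_cont`, `ps_bdd`; take the maximum of the two bounds).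
`eq_first`: if the total is an equality, then the integral of the nonnegative function `D - Gc` over the first family is `0`; it is continuous on `(0, π - t)` (`cont_Gc`, and
`w ↦ LL M S w (w+t)` is continuous there: `LL_cont`), so it vanishes there (if it were positive at a point then it would be `≥ ε` on a small interval).
-/

open Matrix Set Filter Topology
open scoped Real

namespace BL

variable {a b : Type} [Fintype a] [DecidableEq a] [Fintype b] [DecidableEq b]
variable {M S : ℝ → Matrix (a ⊕ b) (a ⊕ b) ℝ} {Γ2 S2 : ℝ → Matrix b b ℝ}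

theorem SData.LL_cont (h : SData M S Γ2 S2) {t : ℝ} (ht : t ∈ Ioo 0 π) :
    ContinuousOn (fun w => LL M S w (w + t)) (Ioo 0 (π - t)) := by
  have hπ := Real.pi_pos
  intro w hw
  apply ContinuousAt.continuousWithinAt
  have a1 : w ∈ Ioo 0 (2 * π) := ⟨hw.1, by linarith [hw.2, ht.1]⟩
  have a2 : w + t ∈ Ioo 0 (2 * π) := ⟨by linarith [hw.1, ht.1], by linarith [hw.2]⟩
  have n1 : w ≠ π := by linarith [hw.2, ht.1]
  have n2 : w + t ≠ π := by linarith [hw.2]
  have n3 : w + t ≠ w + π := by linarith [ht.2]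
  have hs : ContinuousAt (fun w : ℝ => w + t) w := by fun_prop
  have c1 : ContinuousAt S w := (h.dS w a1 n1).continuousAt
  have c2 : ContinuousAt (fun w => S (w + t)) w :=
    ContinuousAt.comp (f := fun w : ℝ => w + t) (g := S) (h.dS (w + t) a2 n2).continuousAt hs
  have c3 : ContinuousAt M w := h.Mcont w a1 n1
  have c4 : ContinuousAt (fun w => M (w + t)) w :=
    ContinuousAt.comp (f := fun w : ℝ => w + t) (g := M) (h.Mcont (w + t) a2 n2) hs
  have d1 : ContinuousAt (fun w => (S w - S (w + t)).det) w := cont_det (c1.sub c2)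
  have d3 : ContinuousAt (fun w => (M w).det) w := cont_det c3
  have d4 : ContinuousAt (fun w => (M (w + t)).det) w := cont_det c4
  have e1 : (S w - S (w + t)).det ≠ 0 := h.conj w (w + t) hw.1 (by linarith [ht.1]) a2.2 n1 n2 n3
  have e3 : (M w).det ≠ 0 := (h.Mpos w a1 n1).det_pos.ne'
  have e4 : (M (w + t)).det ≠ 0 := (h.Mpos (w + t) a2 n2).det_pos.ne'
  unfold LL
  exact ((d1.abs.log (abs_ne_zero.mpr e1)).add (continuousAt_const.mul (d3.log e3))).add
    (continuousAt_const.mul (d4.log e4))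

private theorem st_F0 (t : ℝ) : F0 a b (2 * π - t) = F0 a b t := by
  have e1 : Real.sin (2 * π - t) = -Real.sin t := Real.sin_two_pi_sub t
  have e2 : Real.sin ((2 * π - t) / 2) = Real.sin (t / 2) := by
    have e : (2 * π - t) / 2 = π - t / 2 := by ring
    rw [e, Real.sin_pi_sub]
  unfold F0
  rw [e1, e2, abs_neg]

private theorem st_Gp {t u v α β : ℝ} (h : F0 a b (v - u) = F0 a b t) :
    Gp M Γ2 u v α β = Gc (ph M) (ps Γ2) (F0 a b t) u v α β := by
  unfold Gp Gc
  rw [h]

private theorem st_core (h : SData M S Γ2 S2) {t : ℝ} (ht : t ∈ Ioo 0 π) {D : ℝ → ℝ}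
    (hD : IntervalIntegrable D MeasureTheory.volume 0 (2 * π))
    (h1 : ∀ w, 0 < w → w + t < 2 * π → w ≠ π → w + t ≠ π → D w = LL M S w (w + t))
    (h2 : ∀ s, 0 < s → s < t → D (2 * π - t + s) = LL M S s (s + (2 * π - t))) :
    IntervalIntegrable (fun w => Gc (ph M) (ps Γ2) (F0 a b t) w (w + t) w (w + t)) MeasureTheory.volume 0 (π - t) ∧
    IntervalIntegrable D MeasureTheory.volume 0 (π - t) ∧
    (∀ w ∈ Ioo 0 (π - t), Gc (ph M) (ps Γ2) (F0 a b t) w (w + t) w (w + t) ≤ D w) ∧
    (∫ w in (0 : ℝ)..(π - t), Gc (ph M) (ps Γ2) (F0 a b t) w (w + t) w (w + t)) ≤ (∫ w in (0 : ℝ)..(π - t), D w) ∧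
    2 * π * F0 a b t - (∫ w in (0 : ℝ)..(π - t), Gc (ph M) (ps Γ2) (F0 a b t) w (w + t) w (w + t))
      ≤ (∫ w in (0 : ℝ)..(2 * π), D w) - (∫ w in (0 : ℝ)..(π - t), D w) := by
  have hπ := Real.pi_pos
  have ht0 := ht.1
  have ht1 := ht.2
  obtain ⟨K1, hK1⟩ := h.ph_bdd
  obtain ⟨K2, hK2⟩ := h.ps_bdd
  obtain ⟨i1, i2, i3, i4, hsum⟩ := four_sum (f := ph M) (g := ps Γ2) (M := max K1 K2)
    (fun x hx hx' => h.ph_cont hx hx') (fun x hx hx' => (hK1 x hx hx').trans (le_max_left _ _))
    (fun x hx => h.ps_cont hx) (fun x hx => (hK2 x hx).trans (le_max_right _ _)) ht (F0 a b t)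
  -- integrability of D on the parts
  have sub : ∀ {x y : ℝ}, x ∈ Icc 0 (2 * π) → y ∈ Icc 0 (2 * π) → IntervalIntegrable D MeasureTheory.volume x y := by
    intro x y hx hy
    refine hD.mono_set ?_
    rw [uIcc_of_le (by linarith : (0 : ℝ) ≤ 2 * π)]
    exact (ordConnected_Icc.uIcc_subset hx hy)
  have m0 : (0 : ℝ) ∈ Icc 0 (2 * π) := ⟨le_refl _, by linarith⟩
  have m1 : π - t ∈ Icc 0 (2 * π) := ⟨by linarith, by linarith⟩
  have m2 : π ∈ Icc 0 (2 * π) := ⟨by linarith, by linarith⟩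
  have m3 : 2 * π - t ∈ Icc 0 (2 * π) := ⟨by linarith, by linarith⟩
  have m4 : 2 * π ∈ Icc 0 (2 * π) := ⟨by linarith, by linarith⟩
  have j1 := sub m0 m1
  -- translated integrands
  have q2 : (∫ s in (0 : ℝ)..t, D (π - t + s)) = ∫ x in (π - t)..π, D x := by
    rw [intervalIntegral.integral_comp_add_left D (π - t), add_zero, sub_add_cancel]
  have q3 : (∫ w in (0 : ℝ)..(π - t), D (π + w)) = ∫ x in π..(2 * π - t), D x := by
    rw [intervalIntegral.integral_comp_add_left D π, add_zero]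
    have e : π + (π - t) = 2 * π - t := by ring
    rw [e]
  have q4 : (∫ s in (0 : ℝ)..t, D (2 * π - t + s)) = ∫ x in (2 * π - t)..(2 * π), D x := by
    rw [intervalIntegral.integral_comp_add_left D (2 * π - t), add_zero, sub_add_cancel]
  have hshift : ∀ {c x y : ℝ}, IntervalIntegrable D MeasureTheory.volume (c + x) (c + y) →
      IntervalIntegrable (fun s => D (c + s)) MeasureTheory.volume x y := by
    intro c x y hi
    have := hi.comp_add_left c
    simpa using this
  have j2 : IntervalIntegrable (fun s => D (π - t + s)) MeasureTheory.volume 0 t := by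
    apply hshift
    rw [add_zero, sub_add_cancel]
    exact sub m1 m2
  have j3 : IntervalIntegrable (fun w => D (π + w)) MeasureTheory.volume 0 (π - t) := by
    apply hshift
    have e : π + (π - t) = 2 * π - t := by ring
    rw [e, add_zero]
    exact sub m2 m3
  have j4 : IntervalIntegrable (fun s => D (2 * π - t + s)) MeasureTheory.volume 0 t := by
    apply hshift
    rw [add_zero, sub_add_cancel]
    exact sub m3 m4
  -- pointwise inequalities
  have p1 : ∀ w ∈ Ioo 0 (π - t), Gc (ph M) (ps Γ2) (F0 a b t) w (w + t) w (w + t) ≤ D w := by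
    intro w hw
    rw [h1 w hw.1 (by linarith [hw.2]) (by linarith [hw.2]) (by linarith [hw.2]),
      ← st_Gp (by rw [add_sub_cancel_left])]
    exact h.pair1 (by linarith) (Or.inl ⟨hw.1, by linarith [hw.2]⟩)
  have p2 : ∀ s ∈ Ioo 0 t, Gc (ph M) (ps Γ2) (F0 a b t) (π - t + s) (π + s) (π + s) (π - t + s + π) ≤ D (π - t + s) := by
    intro s hs
    have e : π - t + s + t = π + s := by ring
    rw [h1 (π - t + s) (by linarith [hs.1]) (by linarith [hs.2]) (by linarith [hs.2]) (by linarith [hs.1]), e,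
      ← st_Gp (by rw [show π + s - (π - t + s) = t by ring])]
    exact h.pair2 (by linarith [hs.1]) (by linarith [hs.2]) (by linarith [hs.1]) (by linarith [hs.1])
  have p3 : ∀ w ∈ Ioo 0 (π - t), Gc (ph M) (ps Γ2) (F0 a b t) (π + w) (π + w + t) (π + w) (π + w + t) ≤ D (π + w) := by
    intro w hw
    rw [h1 (π + w) (by linarith [hw.1]) (by linarith [hw.2]) (by linarith [hw.1]) (by linarith [hw.1]),
      ← st_Gp (by rw [add_sub_cancel_left])]
    exact h.pair1 (by linarith) (Or.inr ⟨by linarith [hw.1], by linarith [hw.2]⟩)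
  have p4 : ∀ s ∈ Ioo 0 t, Gc (ph M) (ps Γ2) (F0 a b t) s (s + (2 * π - t)) s (s + (2 * π - t) - π) ≤ D (2 * π - t + s) := by
    intro s hs
    rw [h2 s hs.1 hs.2, ← st_Gp (by rw [add_sub_cancel_left, st_F0])]
    exact h.pair3 hs.1 (by linarith) (by linarith [hs.2])
  have g1 := intervalIntegral.integral_mono_on_of_le_Ioo (by linarith : (0 : ℝ) ≤ π - t) i1 j1 p1
  have g2 := intervalIntegral.integral_mono_on_of_le_Ioo ht0.le i2 j2 p2
  have g3 := intervalIntegral.integral_mono_on_of_le_Ioo (by linarith : (0 : ℝ) ≤ π - t) i3 j3 p3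
  have g4 := intervalIntegral.integral_mono_on_of_le_Ioo ht0.le i4 j4 p4
  rw [q2] at g2
  rw [q3] at g3
  rw [q4] at g4
  have r1 := intervalIntegral.integral_add_adjacent_intervals (sub m0 m1) (sub m1 m2)
  have r2 := intervalIntegral.integral_add_adjacent_intervals (sub m0 m2) (sub m2 m3)
  have r3 := intervalIntegral.integral_add_adjacent_intervals (sub m0 m3) (sub m3 m4)
  refine ⟨i1, j1, p1, g1, ?_⟩
  linarith

theorem SData.ineq (h : SData M S Γ2 S2) {t : ℝ} (ht : t ∈ Ioo 0 π) {D : ℝ → ℝ}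
    (hD : IntervalIntegrable D MeasureTheory.volume 0 (2 * π))
    (h1 : ∀ w, 0 < w → w + t < 2 * π → w ≠ π → w + t ≠ π → D w = LL M S w (w + t))
    (h2 : ∀ s, 0 < s → s < t → D (2 * π - t + s) = LL M S s (s + (2 * π - t))) :
    2 * π * F0 a b t ≤ ∫ w in (0 : ℝ)..(2 * π), D w := by
  obtain ⟨_, _, _, g1, g2⟩ := st_core h ht hD h1 h2
  linarith

theorem SData.eq_first (h : SData M S Γ2 S2) {t : ℝ} (ht : t ∈ Ioo 0 π) {D : ℝ → ℝ}
    (hD : IntervalIntegrable D MeasureTheory.volume 0 (2 * π))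
    (h1 : ∀ w, 0 < w → w + t < 2 * π → w ≠ π → w + t ≠ π → D w = LL M S w (w + t))
    (h2 : ∀ s, 0 < s → s < t → D (2 * π - t + s) = LL M S s (s + (2 * π - t)))
    (heq : ∫ w in (0 : ℝ)..(2 * π), D w = 2 * π * F0 a b t) :
    ∀ w ∈ Ioo 0 (π - t), Gp M Γ2 w (w + t) w (w + t) = LL M S w (w + t) := by
  have hπ := Real.pi_pos
  have ht0 := ht.1
  have ht1 := ht.2
  have hle : (0 : ℝ) ≤ π - t := by linarith
  obtain ⟨i1, j1, p1, g1, g2⟩ := st_core h ht hD h1 h2
  have e1 : (∫ w in (0 : ℝ)..(π - t), Gc (ph M) (ps Γ2) (F0 a b t) w (w + t) w (w + t)) = ∫ w in (0 : ℝ)..(π - t), D w := by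
    linarith
  have hDL : ∀ w ∈ Ioo 0 (π - t), D w = LL M S w (w + t) := fun w hw =>
    h1 w hw.1 (by linarith [hw.2]) (by linarith [hw.2]) (by linarith [hw.2])
  have cG := cont_Gc (f := ph M) (g := ps Γ2) (fun x hx hx' => h.ph_cont hx hx') (fun x hx => h.ps_cont hx) ht (F0 a b t)
  have cL := h.LL_cont ht
  have e2 : ∫ w in Ioo 0 (π - t), (D w - Gc (ph M) (ps Γ2) (F0 a b t) w (w + t) w (w + t)) = 0 := by
    have e3 := intervalIntegral.integral_sub j1 i1
    rw [e1, sub_self, intervalIntegral.integral_of_le hle, MeasureTheory.integral_Ioc_eq_integral_Ioo] at e3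
    exact e3
  have hint : MeasureTheory.IntegrableOn (fun w => D w - Gc (ph M) (ps Γ2) (F0 a b t) w (w + t) w (w + t)) (Ioo 0 (π - t)) :=
    (intervalIntegrable_iff_integrableOn_Ioo_of_le hle).mp (j1.sub i1)
  have hnn : 0 ≤ᵐ[MeasureTheory.volume.restrict (Ioo 0 (π - t))]
      (fun w => D w - Gc (ph M) (ps Γ2) (F0 a b t) w (w + t) w (w + t)) := by
    refine (MeasureTheory.ae_restrict_iff' measurableSet_Ioo).2 (Filter.Eventually.of_forall ?_)
    intro w hw
    exact sub_nonneg.mpr (p1 w hw)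
  have hz := (MeasureTheory.setIntegral_eq_zero_iff_of_nonneg_ae hnn hint).1 e2
  have hae : (fun w => Gc (ph M) (ps Γ2) (F0 a b t) w (w + t) w (w + t)) =ᵐ[MeasureTheory.volume.restrict (Ioo 0 (π - t))]
      (fun w => LL M S w (w + t)) := by
    have hz' := hz
    filter_upwards [hz', MeasureTheory.ae_restrict_mem measurableSet_Ioo] with w hw hw'
    have := hDL w hw'
    simp only [Pi.zero_apply] at hw
    linarith
  have hE := MeasureTheory.Measure.eqOn_open_of_ae_eq hae isOpen_Ioo cG cL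
  intro w hw
  rw [st_Gp (by rw [add_sub_cancel_left])]
  exact hE hw

end BL
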