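import Pool.Agent.Lib.MP_ccbbf6_gt.S.SEb
import Pool.Agent.Lib.MP_ccbbf6_gt.S.ST

/-!
# Main1: Theorem 1 in S-form
-/

open Matrix Set Filter Topology
open scoped Real

namespace BL

variable {a b : Type} [Fintype a] [DecidableEq a] [Fintype b] [DecidableEq b]
variable {M S : ℝ → Matrix (a ⊕ b) (a ⊕ b) ℝ} {Γ2 S2 : ℝ → Matrix b b ℝ}

/-- **Theorem 1 in S-form**: the inequality, and the form of the metric in the case of equality. -/
theorem SData.main1 (h : SData M S Γ2 S2) {t : ℝ} (ht : t ∈ Ioo 0 π) {D : ℝ → ℝ}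
    (hD : IntervalIntegrable D MeasureTheory.volume 0 (2 * π))
    (h1 : ∀ w, 0 < w → w + t < 2 * π → w ≠ π → w + t ≠ π → D w = LL M S w (w + t))
    (h2 : ∀ s, 0 < s → s < t → D (2 * π - t + s) = LL M S s (s + (2 * π - t))) :
    2 * π * F0 a b t ≤ ∫ w in (0 : ℝ)..(2 * π), D w ∧
    (∫ w in (0 : ℝ)..(2 * π), D w = 2 * π * F0 a b t → ∀ x ∈ Ioo 0 t,
      M x = fromBlocks (Real.sin x ^ 2 • (1 : Matrix a a ℝ)) 0 0 ((4 * Real.sin (x / 2) ^ 2) • (1 : Matrix b b ℝ))) :=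
  ⟨h.ineq ht hD h1 h2, fun he _ hx => h.eq_gram ht (h.eq_first ht hD h1 h2 he) hx⟩

end BL
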