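import Pool.Agent.Lib.MP_ccbbf6_gt.S.KS
import Pool.Agent.Lib.MP_ccbbf6_gt.S.Main1

/-!
# KG: the K-form on a general index type, and its reduction to `KData` by an orthogonal change of basis
-/

open Matrix Set Filter Topology
open scoped Real

namespace BL

variable {ι : Type} [Fintype ι] [DecidableEq ι]

/-- the K-form of the data on a general index type -/
structure GData (S Γ K L : ℝ → Matrix ι ι ℝ) (S₀ : Matrix ι ι ℝ) : Prop where
  Gpos : ∀ x ∈ Ioo 0 (2 * π), x ≠ π → (Γ x).PosDef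
  Gcont : ∀ x ∈ Ioo 0 (2 * π), x ≠ π → ContinuousAt Γ x
  Ssymm : ∀ x ∈ Ioo 0 (2 * π), x ≠ π → (S x)ᵀ = S x
  dS : ∀ x ∈ Ioo 0 (2 * π), x ≠ π → MD S (-(Γ x)) x
  conj : ∀ u v, 0 < u → u < v → v < 2 * π → u ≠ π → v ≠ π → v ≠ u + π → (S u - S v).det ≠ 0
  G0 : Tendsto (fun x : ℝ => x ^ 2 • Γ x) (𝓝[>] 0) (𝓝 1)
  G2 : Tendsto (fun x : ℝ => (x - 2 * π) ^ 2 • Γ x) (𝓝[<] (2 * π)) (𝓝 1)
  S0 : Tendsto (fun x : ℝ => x • S x) (𝓝[>] 0) (𝓝 1)
  S0symm : S₀ᵀ = S₀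
  KS : ∀ᶠ x in 𝓝[≠] π, K x * (S₀ - S x) = 1
  dK : ∀ᶠ x in 𝓝 π, MD K (-(L x)) x
  Lcont : ContinuousAt L π
  Lpos : (L π).PosDef

/-- the value at distance `t` of the logarithm of the Jacobian -/
noncomputable def LG (S Γ : ℝ → Matrix ι ι ℝ) (u v : ℝ) : ℝ :=
  Real.log |(S u - S v).det| - (1 / 2) * Real.log (Γ u).det - (1 / 2) * Real.log (Γ v).det

/-- spectral decomposition with the kernel split off -/
theorem kg_split {A : Matrix ι ι ℝ} (hA : Aᵀ = A) : ∃ (κ ν : ℕ) (O : Matrix ι (Fin κ ⊕ Fin ν) ℝ) (k : Matrix (Fin ν) (Fin ν) ℝ),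
    κ + ν = Fintype.card ι ∧ ν = A.rank ∧ Oᵀ * O = 1 ∧ O * Oᵀ = 1 ∧ Oᵀ * A * O = fromBlocks 0 0 0 k ∧ k.det ≠ 0 := by
  classical
  have hH : A.IsHermitian := by
    rw [Matrix.IsHermitian, Matrix.conjTranspose_eq_transpose_of_trivial, hA]
  set U : Matrix ι ι ℝ := (hH.eigenvectorUnitary : Matrix ι ι ℝ) with hUdef
  have hU1 : Uᵀ * U = 1 := by
    have h := Unitary.coe_star_mul_self hH.eigenvectorUnitary
    rw [← Matrix.conjTranspose_eq_transpose_of_trivial]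
    exact h
  have hU2 : U * Uᵀ = 1 := mul_eq_one_comm.1 hU1
  have hsp : A = U * diagonal hH.eigenvalues * Uᵀ := by
    have h := hH.spectral_theorem
    rw [← Matrix.conjTranspose_eq_transpose_of_trivial]
    rw [Unitary.conjStarAlgAut_apply] at h
    exact h
  have hD : Uᵀ * A * U = diagonal hH.eigenvalues := by
    conv_lhs => rw [hsp]
    calc Uᵀ * (U * diagonal hH.eigenvalues * Uᵀ) * U = (Uᵀ * U) * diagonal hH.eigenvalues * (Uᵀ * U) := by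
          simp only [Matrix.mul_assoc]
      _ = diagonal hH.eigenvalues := by rw [hU1, Matrix.one_mul, Matrix.mul_one]
  let p : ι → Prop := fun i => hH.eigenvalues i = 0
  let κ := Fintype.card {i // p i}
  let ν := Fintype.card {i // ¬ p i}
  let e1 : Fin κ ≃ {i // p i} := (Fintype.equivFin _).symm
  let e2 : Fin ν ≃ {i // ¬ p i} := (Fintype.equivFin _).symm
  let e : Fin κ ⊕ Fin ν ≃ ι := (Equiv.sumCongr e1 e2).trans (Equiv.sumCompl p)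
  have he1 : ∀ j, e (Sum.inl j) = (e1 j : ι) := fun j => rfl
  have he2 : ∀ j, e (Sum.inr j) = (e2 j : ι) := fun j => rfl
  have hO : ∀ B C : Matrix ι ι ℝ, (B.submatrix e id) * (C.submatrix id e) = (B * C).submatrix e e := by
    intro B C
    exact (Matrix.submatrix_mul B C e id e Function.bijective_id).symm
  refine ⟨κ, ν, U.submatrix id e, diagonal fun j => hH.eigenvalues (e (Sum.inr j)), ?_, ?_, ?_, ?_, ?_, ?_⟩
  · have h := Fintype.card_congr e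
    rwa [Fintype.card_sum, Fintype.card_fin, Fintype.card_fin] at h
  · rw [hH.rank_eq_card_non_zero_eigs]
  · rw [Matrix.transpose_submatrix, hO, hU1, Matrix.submatrix_one _ e.injective]
  · rw [Matrix.transpose_submatrix, Matrix.submatrix_mul_equiv, hU2, Matrix.submatrix_id_id]
  · have h1 : (U.submatrix id e)ᵀ * A = (Uᵀ * A).submatrix e id := by
      rw [Matrix.transpose_submatrix]
      have h2 := Matrix.submatrix_mul Uᵀ A e id id Function.bijective_id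
      rw [Matrix.submatrix_id_id] at h2
      exact h2.symm
    rw [h1, hO, hD]
    ext i j
    rcases i with i | i <;> rcases j with j | j
    · rw [Matrix.submatrix_apply, he1, he1, Matrix.diagonal_apply]
      show _ = (0 : ℝ)
      split_ifs
      · exact (e1 i).2
      · rfl
    · rw [Matrix.submatrix_apply, Matrix.diagonal_apply]
      show _ = (0 : ℝ)
      rw [if_neg (by simp)]
    · rw [Matrix.submatrix_apply, Matrix.diagonal_apply]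
      show _ = (0 : ℝ)
      rw [if_neg (by simp)]
    · rw [Matrix.submatrix_apply, Matrix.diagonal_apply]
      show _ = (diagonal fun j => hH.eigenvalues (e (Sum.inr j))) i j
      rw [Matrix.diagonal_apply]
      by_cases hij : i = j
      · subst hij; simp
      · rw [if_neg (by simpa using hij), if_neg hij]
  · rw [Matrix.det_diagonal]
    refine Finset.prod_ne_zero_iff.2 fun j _ => ?_
    exact (e2 j).2

section cj

variable {τ : Type} [Fintype τ] [DecidableEq τ]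

theorem kg_mul {O : Matrix ι τ ℝ} (h2 : O * Oᵀ = 1) (A B : Matrix ι ι ℝ) :
    Oᵀ * (A * B) * O = (Oᵀ * A * O) * (Oᵀ * B * O) := by
  calc Oᵀ * (A * B) * O = Oᵀ * A * (1 : Matrix ι ι ℝ) * B * O := by
        rw [Matrix.mul_one, Matrix.mul_assoc Oᵀ A B]
    _ = Oᵀ * A * (O * Oᵀ) * B * O := by rw [h2]
    _ = (Oᵀ * A * O) * (Oᵀ * B * O) := by simp only [Matrix.mul_assoc]

theorem kg_det {O : Matrix ι τ ℝ} (h1 : Oᵀ * O = 1) (h2 : O * Oᵀ = 1) (A : Matrix ι ι ℝ) :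
    (Oᵀ * A * O).det = A.det := Matrix.det_conj_of_mul_eq_one h1 h2

theorem kg_inv {O : Matrix ι τ ℝ} (h1 : Oᵀ * O = 1) (h2 : O * Oᵀ = 1) (A : Matrix ι ι ℝ) :
    (Oᵀ * A * O)⁻¹ = Oᵀ * A⁻¹ * O := by
  by_cases hd : A.det = 0
  · have h3 : (Oᵀ * A * O).det = 0 := by rw [kg_det h1 h2, hd]
    rw [Matrix.nonsing_inv_apply_not_isUnit _ (by rw [h3]; exact not_isUnit_zero),
      Matrix.nonsing_inv_apply_not_isUnit _ (by rw [hd]; exact not_isUnit_zero)]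
    simp
  · refine Matrix.inv_eq_right_inv ?_
    rw [← kg_mul h2, Matrix.mul_nonsing_inv _ (isUnit_iff_ne_zero.2 hd), Matrix.mul_one, h1]

theorem kg_back {O : Matrix ι τ ℝ} (h2 : O * Oᵀ = 1) (A : Matrix ι ι ℝ) : O * (Oᵀ * A * O) * Oᵀ = A := by
  calc O * (Oᵀ * A * O) * Oᵀ = (O * Oᵀ) * A * (O * Oᵀ) := by simp only [Matrix.mul_assoc]
    _ = A := by rw [h2, Matrix.one_mul, Matrix.mul_one]

theorem kg_posDef {O : Matrix ι τ ℝ} (h1 : Oᵀ * O = 1) {A : Matrix ι ι ℝ} (h : A.PosDef) : (Oᵀ * A * O).PosDef := by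
  have h3 : (Oᴴ * A * O).PosDef := by
    refine h.conjTranspose_mul_mul_same ?_
    intro x y hxy
    have h4 := congrArg (fun z => Oᵀ *ᵥ z) hxy
    simpa only [Matrix.mulVec_mulVec, h1, Matrix.one_mulVec] using h4
  rwa [Matrix.conjTranspose_eq_transpose_of_trivial] at h3

theorem kg_cont (O : Matrix ι τ ℝ) : Continuous fun A : Matrix ι ι ℝ => Oᵀ * A * O := by
  fun_prop

theorem kg_MD (O : Matrix ι τ ℝ) {S : ℝ → Matrix ι ι ℝ} {S' : Matrix ι ι ℝ} {x : ℝ} (h : MD S S' x) :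
    MD (fun y => Oᵀ * S y * O) (Oᵀ * S' * O) x := MD.mul_const O (MD.const_mul Oᵀ h)

end cj

variable {S Γ K L : ℝ → Matrix ι ι ℝ} {S₀ : Matrix ι ι ℝ}

theorem GData.Ksymm (h : GData S Γ K L S₀) : (K π)ᵀ = K π := by
  have hKt : Tendsto K (𝓝[≠] π) (𝓝 (K π)) := (MD.continuousAt h.dK.self_of_nhds).tendsto.mono_left nhdsWithin_le_nhds
  have hKT : Tendsto (fun x => (K x)ᵀ) (𝓝[≠] π) (𝓝 (K π)ᵀ) :=
    ((continuous_id.matrix_transpose).tendsto (K π)).comp hKt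
  have hI : ∀ᶠ x in 𝓝[≠] π, x ∈ Ioo 0 (2 * π) :=
    nhdsWithin_le_nhds (Ioo_mem_nhds Real.pi_pos (by linarith [Real.pi_pos]))
  refine tendsto_nhds_unique hKT (hKt.congr' ?_)
  filter_upwards [h.KS, hI, self_mem_nhdsWithin] with x hx hxI hxp
  have hinv : (S₀ - S x)⁻¹ = K x := ks_inv_of_mul (mul_eq_one_comm.1 hx)
  rw [← hinv, Matrix.transpose_nonsing_inv, Matrix.transpose_sub, h.S0symm, h.Ssymm x hxI hxp]

theorem GData.kdata {κ ν : ℕ} {O : Matrix ι (Fin κ ⊕ Fin ν) ℝ} {k : Matrix (Fin ν) (Fin ν) ℝ} (h : GData S Γ K L S₀)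
    (h1 : Oᵀ * O = 1) (h2 : O * Oᵀ = 1) (h3 : Oᵀ * K π * O = fromBlocks 0 0 0 k) (h4 : k.det ≠ 0) :
    KData (fun x => Oᵀ * S x * O) (fun x => Oᵀ * Γ x * O) (fun x => Oᵀ * K x * O) (fun x => Oᵀ * L x * O)
      (Oᵀ * S₀ * O) k := by
  have hone : Oᵀ * (1 : Matrix ι ι ℝ) * O = 1 := by rw [Matrix.mul_one, h1]
  have hsub : ∀ A B : Matrix ι ι ℝ, Oᵀ * A * O - Oᵀ * B * O = Oᵀ * (A - B) * O := by
    intro A B
    rw [Matrix.mul_sub, Matrix.sub_mul]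
  have hneg : ∀ A : Matrix ι ι ℝ, -(Oᵀ * A * O) = Oᵀ * (-A) * O := by
    intro A
    rw [Matrix.mul_neg, Matrix.neg_mul]
  have hsm : ∀ (c : ℝ) (A : Matrix ι ι ℝ), c • (Oᵀ * A * O) = Oᵀ * (c • A) * O := by
    intro c A
    rw [Matrix.mul_smul, Matrix.smul_mul]
  have htr : ∀ A : Matrix ι ι ℝ, (Oᵀ * A * O)ᵀ = Oᵀ * Aᵀ * O := by
    intro A
    rw [Matrix.transpose_mul, Matrix.transpose_mul, Matrix.transpose_transpose, Matrix.mul_assoc]
  have hlim : ∀ {l : Filter ℝ} {f : ℝ → Matrix ι ι ℝ} {A : Matrix ι ι ℝ}, Tendsto f l (𝓝 A) →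
      Tendsto (fun x => Oᵀ * f x * O) l (𝓝 (Oᵀ * A * O)) := fun hf => ((kg_cont O).tendsto _).comp hf
  refine
    { Gpos := fun x hx hx' => kg_posDef h1 (h.Gpos x hx hx')
      Gcont := fun x hx hx' => hlim (h.Gcont x hx hx')
      Ssymm := fun x hx hx' => by rw [htr, h.Ssymm x hx hx']
      dS := fun x hx hx' => by rw [hneg]; exact kg_MD O (h.dS x hx hx')
      conj := fun u v hu huv hv hu' hv' hne => by
        rw [hsub, kg_det h1 h2]; exact h.conj u v hu huv hv hu' hv' hne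
      G0 := ?_
      G2 := ?_
      S0 := ?_
      S0symm := by rw [htr, h.S0symm]
      KS := ?_
      dK := ?_
      Lcont := hlim h.Lcont
      Lpos := kg_posDef h1 h.Lpos
      Kpi := h3
      kdet := h4 }
  · have h5 := hlim h.G0
    rw [hone] at h5
    exact h5.congr fun x => (hsm _ _).symm
  · have h5 := hlim h.G2
    rw [hone] at h5
    exact h5.congr fun x => (hsm _ _).symm
  · have h5 := hlim h.S0
    rw [hone] at h5
    exact h5.congr fun x => (hsm _ _).symm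
  · filter_upwards [h.KS] with x hx
    rw [hsub, ← kg_mul h2, hx, hone]
  · filter_upwards [h.dK] with x hx
    rw [hneg]
    exact kg_MD O hx

theorem kg_LL {κ ν : ℕ} {O : Matrix ι (Fin κ ⊕ Fin ν) ℝ} (h1 : Oᵀ * O = 1) (h2 : O * Oᵀ = 1)
    (S Γ : ℝ → Matrix ι ι ℝ) (u v : ℝ) :
    LL (fun x => (Oᵀ * Γ x * O)⁻¹) (fun x => Oᵀ * S x * O) u v = LG S Γ u v := by
  have hi : ∀ A : Matrix ι ι ℝ, Real.log ((Oᵀ * A * O)⁻¹).det = -Real.log A.det := by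
    intro A
    rw [Matrix.det_nonsing_inv, kg_det h1 h2, Ring.inverse_eq_inv', Real.log_inv]
  rw [LL, LG, hi, hi]
  have h3 : (Oᵀ * S u * O - Oᵀ * S v * O) = Oᵀ * (S u - S v) * O := by
    rw [Matrix.mul_sub, Matrix.sub_mul]
  rw [h3, kg_det h1 h2]
  ring

/-- the kernel in the adapted basis -/
theorem kg_ker {κ ν : ℕ} {O : Matrix ι (Fin κ ⊕ Fin ν) ℝ} (h1 : Oᵀ * O = 1) (h2 : O * Oᵀ = 1)
    {m : Matrix (Fin ν) (Fin ν) ℝ} (hm : m.det ≠ 0) (w : ι → ℝ) :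
    (O * (fromBlocks 0 0 0 m : Matrix (Fin κ ⊕ Fin ν) (Fin κ ⊕ Fin ν) ℝ) * Oᵀ) *ᵥ w = 0 ↔
      (O * (fromBlocks 1 0 0 0 : Matrix (Fin κ ⊕ Fin ν) (Fin κ ⊕ Fin ν) ℝ) * Oᵀ) *ᵥ w = w := by
  have hO' : Oᵀ * Oᵀᵀ = 1 := by rw [Matrix.transpose_transpose, h1]
  have hmul : ∀ A B : Matrix (Fin κ ⊕ Fin ν) (Fin κ ⊕ Fin ν) ℝ, O * (A * B) * Oᵀ = (O * A * Oᵀ) * (O * B * Oᵀ) := by
    intro A B
    have h5 := kg_mul hO' A B
    rwa [Matrix.transpose_transpose] at h5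
  have hmi := Matrix.nonsing_inv_mul m (isUnit_iff_ne_zero.2 hm)
  constructor
  · intro h
    have h3 : (O * (fromBlocks 0 0 0 m⁻¹ : Matrix (Fin κ ⊕ Fin ν) (Fin κ ⊕ Fin ν) ℝ) * Oᵀ) *
        (O * (fromBlocks 0 0 0 m : Matrix (Fin κ ⊕ Fin ν) (Fin κ ⊕ Fin ν) ℝ) * Oᵀ) =
        1 - O * (fromBlocks 1 0 0 0 : Matrix (Fin κ ⊕ Fin ν) (Fin κ ⊕ Fin ν) ℝ) * Oᵀ := by
      rw [← hmul, fromBlocks_multiply]
      simp only [Matrix.mul_zero, Matrix.zero_mul, add_zero, zero_add, hmi]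
      have h4 : (fromBlocks 0 0 0 1 : Matrix (Fin κ ⊕ Fin ν) (Fin κ ⊕ Fin ν) ℝ) = 1 - fromBlocks 1 0 0 0 := by
        rw [← fromBlocks_one, sub_eq_add_neg, fromBlocks_neg, fromBlocks_add]
        simp
      rw [h4, Matrix.mul_sub, Matrix.sub_mul, Matrix.mul_one, h2]
    have h6 : ((O * (fromBlocks 0 0 0 m⁻¹ : Matrix (Fin κ ⊕ Fin ν) (Fin κ ⊕ Fin ν) ℝ) * Oᵀ) *
        (O * (fromBlocks 0 0 0 m : Matrix (Fin κ ⊕ Fin ν) (Fin κ ⊕ Fin ν) ℝ) * Oᵀ)) *ᵥ w = 0 := by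
      rw [← Matrix.mulVec_mulVec, h, Matrix.mulVec_zero]
    rw [h3, Matrix.sub_mulVec, Matrix.one_mulVec] at h6
    exact (sub_eq_zero.1 h6).symm
  · intro h
    rw [← h, Matrix.mulVec_mulVec, ← hmul, fromBlocks_multiply]
    simp

/-- **Theorem 1 along one closed geodesic**, general index type. `P` is the orthogonal projection onto the kernel of `K π`. -/
theorem GData.main (h : GData S Γ K L S₀) : ∃ (κ ν : ℕ) (P Mπ : Matrix ι ι ℝ), κ + ν = Fintype.card ι ∧ ν = (K π).rank ∧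
    Pᵀ = P ∧ P * P = P ∧ P.trace = κ ∧ (∀ w, K π *ᵥ w = 0 ↔ P *ᵥ w = w) ∧ (∀ w, Mπ *ᵥ w = 0 ↔ P *ᵥ w = w) ∧
    Tendsto (fun x => (Γ x)⁻¹) (𝓝[≠] π) (𝓝 Mπ) ∧
    ∀ t ∈ Ioo 0 π, ∀ D : ℝ → ℝ, IntervalIntegrable D MeasureTheory.volume 0 (2 * π) →
      (∀ w, 0 < w → w + t < 2 * π → w ≠ π → w + t ≠ π → D w = LG S Γ w (w + t)) →
      (∀ s, 0 < s → s < t → D (2 * π - t + s) = LG S Γ s (s + (2 * π - t))) →
      2 * π * (κ * Real.log (Real.sin t) + ν * Real.log (2 * Real.sin (t / 2))) ≤ ∫ w in (0 : ℝ)..(2 * π), D w ∧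
      (∫ w in (0 : ℝ)..(2 * π), D w = 2 * π * (κ * Real.log (Real.sin t) + ν * Real.log (2 * Real.sin (t / 2))) →
        ∀ x ∈ Ioo 0 t, (Γ x)⁻¹ = Real.sin x ^ 2 • P + (4 * Real.sin (x / 2) ^ 2) • (1 - P)) := by
  obtain ⟨κ, ν, O, k, hc, hr, h1, h2, h3, h4⟩ := kg_split h.Ksymm
  have hk := h.kdata h1 h2 h3 h4
  have hs := hk.sdata
  obtain ⟨hM1, hM2⟩ := hk.M_lim
  set m := ((KData.Fm (fun x => Oᵀ * K x * O) π)ᵀ * (Oᵀ * L π * O)⁻¹ * KData.Fm (fun x => Oᵀ * K x * O) π).toBlocks₂₂ with hm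
  have hO' : Oᵀ * Oᵀᵀ = 1 := by rw [Matrix.transpose_transpose, h1]
  have hmul : ∀ A B : Matrix (Fin κ ⊕ Fin ν) (Fin κ ⊕ Fin ν) ℝ, O * (A * B) * Oᵀ = (O * A * Oᵀ) * (O * B * Oᵀ) := by
    intro A B
    have h5 := kg_mul hO' A B
    rwa [Matrix.transpose_transpose] at h5
  set P : Matrix ι ι ℝ := O * (fromBlocks 1 0 0 0 : Matrix (Fin κ ⊕ Fin ν) (Fin κ ⊕ Fin ν) ℝ) * Oᵀ with hP
  have hKpi : K π = O * (fromBlocks 0 0 0 k : Matrix (Fin κ ⊕ Fin ν) (Fin κ ⊕ Fin ν) ℝ) * Oᵀ := by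
    rw [← h3, kg_back h2]
  refine ⟨κ, ν, P, O * (fromBlocks 0 0 0 m : Matrix (Fin κ ⊕ Fin ν) (Fin κ ⊕ Fin ν) ℝ) * Oᵀ, hc, hr, ?_, ?_, ?_, ?_, ?_, ?_, ?_⟩
  · rw [hP, Matrix.transpose_mul, Matrix.transpose_mul, Matrix.transpose_transpose, fromBlocks_transpose,
      Matrix.transpose_zero, Matrix.transpose_one, Matrix.transpose_zero, Matrix.transpose_zero, ← Matrix.mul_assoc]
  · rw [hP, ← hmul, fromBlocks_multiply]
    simp
  · rw [hP, Matrix.trace_mul_comm, ← Matrix.mul_assoc, h1, Matrix.one_mul]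
    simp [Matrix.trace, Fintype.sum_sum_type]
  · intro w
    rw [hKpi]
    exact kg_ker h1 h2 h4 w
  · intro w
    exact kg_ker h1 h2 (ks_posDef_det hM2) w
  · have h5 : Tendsto (fun x => O * (Oᵀ * Γ x * O)⁻¹ * Oᵀ) (𝓝[≠] π)
        (𝓝 (O * (fromBlocks 0 0 0 m : Matrix (Fin κ ⊕ Fin ν) (Fin κ ⊕ Fin ν) ℝ) * Oᵀ)) :=
      ((show Continuous fun A : Matrix (Fin κ ⊕ Fin ν) (Fin κ ⊕ Fin ν) ℝ => O * A * Oᵀ by fun_prop).tendsto _).comp hM1
    refine h5.congr fun x => ?_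
    rw [kg_inv h1 h2, kg_back h2]
  · intro t ht D hD hD1 hD2
    have hF : F0 (Fin κ) (Fin ν) t = κ * Real.log (Real.sin t) + ν * Real.log (2 * Real.sin (t / 2)) := by
      rw [F0, Fintype.card_fin, Fintype.card_fin, abs_of_pos (Real.sin_pos_of_pos_of_lt_pi ht.1 ht.2)]
    have hmain := hs.main1 ht hD (fun w hw hw' hw1 hw2 => by rw [hD1 w hw hw' hw1 hw2, kg_LL h1 h2])
      (fun s hs1 hs2 => by rw [hD2 s hs1 hs2, kg_LL h1 h2])
    rw [hF] at hmain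
    refine ⟨hmain.1, fun he x hx => ?_⟩
    have h6 := hmain.2 he x hx
    have h7 : (Γ x)⁻¹ = O * (Oᵀ * Γ x * O)⁻¹ * Oᵀ := by rw [kg_inv h1 h2, kg_back h2]
    rw [h7, h6]
    have h9 : (fromBlocks (Real.sin x ^ 2 • (1 : Matrix (Fin κ) (Fin κ) ℝ)) 0 0
        ((4 * Real.sin (x / 2) ^ 2) • (1 : Matrix (Fin ν) (Fin ν) ℝ))) =
        Real.sin x ^ 2 • fromBlocks 1 0 0 0 + (4 * Real.sin (x / 2) ^ 2) • (1 - fromBlocks 1 0 0 0) := by
      rw [← fromBlocks_one, sub_eq_add_neg, fromBlocks_neg, fromBlocks_add, fromBlocks_smul, fromBlocks_smul,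
        fromBlocks_add]
      simp
    rw [h9, Matrix.mul_add, Matrix.add_mul, Matrix.mul_smul, Matrix.smul_mul, Matrix.mul_smul, Matrix.smul_mul,
      Matrix.mul_sub, Matrix.sub_mul, Matrix.mul_one, h2]

end BL
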