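import Pool.Agent.Lib.MP_ccbbf6_gt.Base

/-!
# SD: the abstract data of Theorem 1 (S-form)

Index type `a ⊕ b`; `a` = the kernel block at `π`.  `M x` = `Aᵀ A` = the metric in polar coordinates at distance `x` from the base point along one
geodesic; `S x` = the (symmetric) difference of shape operators; `S' = - M⁻¹`.  `Γ2`, `S2` = the second diagonal blocks of `M⁻¹`, `S`, extended
continuously to `x = π`.  `LL u v = log |det A(u,v)|`.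
-/

open Matrix Set Filter Topology
open scoped Real

namespace BL

variable {a b : Type} [Fintype a] [DecidableEq a] [Fintype b] [DecidableEq b]

structure SData (M S : ℝ → Matrix (a ⊕ b) (a ⊕ b) ℝ) (Γ2 S2 : ℝ → Matrix b b ℝ) : Prop where
  Mpos : ∀ x ∈ Ioo 0 (2 * π), x ≠ π → (M x).PosDef
  Mcont : ∀ x ∈ Ioo 0 (2 * π), x ≠ π → ContinuousAt M x
  Ssymm : ∀ x ∈ Ioo 0 (2 * π), x ≠ π → (S x)ᵀ = S x
  dS : ∀ x ∈ Ioo 0 (2 * π), x ≠ π → MD S (-(M x)⁻¹) x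
  conj : ∀ u v, 0 < u → u < v → v < 2 * π → u ≠ π → v ≠ π → v ≠ u + π → (S u - S v).det ≠ 0
  M0 : Tendsto (fun x : ℝ => (x ^ 2)⁻¹ • M x) (𝓝[>] 0) (𝓝 1)
  M2 : Tendsto (fun x : ℝ => ((x - 2 * π) ^ 2)⁻¹ • M x) (𝓝[<] (2 * π)) (𝓝 1)
  S0 : Tendsto (fun x : ℝ => x • S x) (𝓝[>] 0) (𝓝 1)
  Gpi : ∃ G : Matrix a a ℝ, G.PosDef ∧ Tendsto (fun x : ℝ => ((x - π) ^ 2)⁻¹ • (M x).toBlocks₁₁) (𝓝[≠] π) (𝓝 G)
  G2eq : ∀ x ∈ Ioo 0 (2 * π), x ≠ π → Γ2 x = ((M x)⁻¹).toBlocks₂₂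
  G2cont : ∀ x ∈ Ioo 0 (2 * π), ContinuousAt Γ2 x
  G2pos : ∀ x ∈ Ioo 0 (2 * π), (Γ2 x).PosDef
  S2eq : ∀ x ∈ Ioo 0 (2 * π), x ≠ π → S2 x = (S x).toBlocks₂₂
  S2cont : ∀ x ∈ Ioo 0 (2 * π), ContinuousAt S2 x

/-- `(Jᵀ J)⁻¹` -/
noncomputable def Cm (M : ℝ → Matrix (a ⊕ b) (a ⊕ b) ℝ) (x : ℝ) : Matrix a a ℝ := ((M x).toBlocks₁₁)⁻¹

noncomputable def QQ (S : ℝ → Matrix (a ⊕ b) (a ⊕ b) ℝ) (u v : ℝ) : Matrix a a ℝ := ((S u - S v)⁻¹).toBlocks₁₁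

noncomputable def LL (M S : ℝ → Matrix (a ⊕ b) (a ⊕ b) ℝ) (u v : ℝ) : ℝ :=
  Real.log |(S u - S v).det| + (1 / 2) * Real.log (M u).det + (1 / 2) * Real.log (M v).det

noncomputable def ph (M : ℝ → Matrix (a ⊕ b) (a ⊕ b) ℝ) (x : ℝ) : ℝ :=
  (1 / 2) * Real.log ((M x).toBlocks₁₁).det - (Fintype.card a : ℝ) * Real.log |Real.sin x|

noncomputable def ps (Γ2 : ℝ → Matrix b b ℝ) (x : ℝ) : ℝ :=
  -(1 / 2) * Real.log (Γ2 x).det - (Fintype.card b : ℝ) * Real.log (2 * Real.sin (x / 2))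

/-- the right side of the pair inequality -/
noncomputable def Gp (M : ℝ → Matrix (a ⊕ b) (a ⊕ b) ℝ) (Γ2 : ℝ → Matrix b b ℝ) (u v α β : ℝ) : ℝ :=
  F0 a b (v - u) + (ph M u + ph M v - 2 * ∫ x in α..β, rho u v x * ph M x)
    + (ps Γ2 u + ps Γ2 v - 2 * ∫ x in u..v, rho2 u v x * ps Γ2 x)

end BL
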