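import Pool.Agent.Lib.MP_ccbbf6_gt.MC
import Pool.Agent.Lib.MP_ccbbf6_gt.S.SD

/-!
# KS: from the K-form (smooth across `π`) to the data `SData`

`K x = (S₀ - S x)⁻¹` is differentiable at `π`, with derivative `- L π`, `L` positive definite, and `K π = fromBlocks 0 0 0 k` with `k` invertible.
-/

open Matrix Set Filter Topology
open scoped Real

namespace BL

section gen

variable {n : Type*} [Fintype n] [DecidableEq n]

theorem ks_det_cont : Continuous fun N : Matrix n n ℝ => N.det := continuous_id.matrix_det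

theorem ks_tendsto_inv {α : Type*} {l : Filter α} {f : α → Matrix n n ℝ} {A : Matrix n n ℝ} (h : Tendsto f l (𝓝 A))
    (hd : A.det ≠ 0) : Tendsto (fun x => (f x)⁻¹) l (𝓝 A⁻¹) := by
  have h1 : Tendsto (fun y => ((f y).det)⁻¹ • (f y).adjugate) l (𝓝 ((A.det)⁻¹ • A.adjugate)) := by
    have h2 : Continuous fun N : Matrix n n ℝ => N.adjugate := continuous_id.matrix_adjugate
    exact (((ks_det_cont.tendsto A).comp h).inv₀ hd).smul ((h2.tendsto A).comp h)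
  have h3 : (fun y => (f y)⁻¹) = fun y => ((f y).det)⁻¹ • (f y).adjugate := by
    funext y
    rw [Matrix.inv_def, Ring.inverse_eq_inv']
  rw [h3, Matrix.inv_def, Ring.inverse_eq_inv']
  exact h1

theorem ks_inv_of_mul {A B : Matrix n n ℝ} (h : A * B = 1) : A⁻¹ = B := Matrix.inv_eq_right_inv h

theorem ks_det_of_mul {A B : Matrix n n ℝ} (h : A * B = 1) : A.det ≠ 0 := by
  intro h0
  have h1 := congrArg Matrix.det h
  rw [Matrix.det_mul, h0, zero_mul, Matrix.det_one] at h1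
  exact zero_ne_one h1

theorem ks_posDef_symm {A : Matrix n n ℝ} (h : A.PosDef) : Aᵀ = A := by
  have h1 := h.isHermitian.eq
  rwa [Matrix.conjTranspose_eq_transpose_of_trivial] at h1

theorem ks_posDef_det {A : Matrix n n ℝ} (h : A.PosDef) : A.det ≠ 0 := h.det_pos.ne'

end gen

variable {a b : Type} [Fintype a] [DecidableEq a] [Fintype b] [DecidableEq b]

/-- block `₁₁` of a positive definite matrix -/
theorem ks_posDef_11 {A : Matrix (a ⊕ b) (a ⊕ b) ℝ} (h : A.PosDef) : (A.toBlocks₁₁).PosDef :=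
  h.submatrix Sum.inl_injective

theorem ks_posDef_22 {A : Matrix (a ⊕ b) (a ⊕ b) ℝ} (h : A.PosDef) : (A.toBlocks₂₂).PosDef :=
  h.submatrix Sum.inr_injective

theorem ks_posDef_conj {n : Type*} [Fintype n] [DecidableEq n] {A F : Matrix n n ℝ} (h : A.PosDef) (hF : F.det ≠ 0) :
    (Fᵀ * A * F).PosDef := by
  have h1 : (Fᴴ * A * F).PosDef := by
    refine h.conjTranspose_mul_mul_same ?_
    exact Matrix.mulVec_injective_of_isUnit ((Matrix.isUnit_iff_isUnit_det _).2 (isUnit_iff_ne_zero.2 hF))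
  rwa [Matrix.conjTranspose_eq_transpose_of_trivial] at h1

/-- the K-form of the data -/
structure KData (S Γ K L : ℝ → Matrix (a ⊕ b) (a ⊕ b) ℝ) (S₀ : Matrix (a ⊕ b) (a ⊕ b) ℝ) (k : Matrix b b ℝ) : Prop where
  Gpos : ∀ x ∈ Ioo 0 (2 * π), x ≠ π → (Γ x).PosDef
  Gcont : ∀ x ∈ Ioo 0 (2 * π), x ≠ π → ContinuousAt Γ x
  Ssymm : ∀ x ∈ Ioo 0 (2 * π), x ≠ π → (S x)ᵀ = S x
  dS : ∀ x ∈ Ioo 0 (2 * π), x ≠ π → MD S (-(Γ x)) x
  conj : ∀ u v, 0 < u → u < v → v < 2 * π → u ≠ π → v ≠ π → v ≠ u + π → (S u - S v).det ≠ 0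
  G0 : Tendsto (fun x : ℝ => x ^ 2 • Γ x) (𝓝[>] 0) (𝓝 1)
  G2 : Tendsto (fun x : ℝ => (x - 2 * π) ^ 2 • Γ x) (𝓝[<] (2 * π)) (𝓝 1)
  S0 : Tendsto (fun x : ℝ => x • S x) (𝓝[>] 0) (𝓝 1)
  S0symm : S₀ᵀ = S₀
  KS : ∀ᶠ x in 𝓝[≠] π, K x * (S₀ - S x) = 1
  dK : ∀ᶠ x in 𝓝 π, MD K (-(L x)) x
  Lcont : ContinuousAt L π
  Lpos : (L π).PosDef
  Kpi : K π = fromBlocks 0 0 0 k
  kdet : k.det ≠ 0

namespace KData

variable {S Γ K L : ℝ → Matrix (a ⊕ b) (a ⊕ b) ℝ} {S₀ : Matrix (a ⊕ b) (a ⊕ b) ℝ} {k : Matrix b b ℝ}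

/-- the regularised `K` : the columns of block `a` divided by `x - π` -/
noncomputable def Fm (K : ℝ → Matrix (a ⊕ b) (a ⊕ b) ℝ) (x : ℝ) : Matrix (a ⊕ b) (a ⊕ b) ℝ :=
  fun i j => Sum.elim (fun j' => dslope (fun y => K y i (Sum.inl j')) π x) (fun j' => K x i (Sum.inr j')) j

/-- `diag((x-π) 1, 1)` -/
noncomputable def Dm (a b : Type) [DecidableEq a] [DecidableEq b] (x : ℝ) : Matrix (a ⊕ b) (a ⊕ b) ℝ :=
  fromBlocks ((x - π) • (1 : Matrix a a ℝ)) 0 0 1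

theorem Fm_pi (h : KData S Γ K L S₀ k) :
    Fm K π = fromBlocks (-(L π).toBlocks₁₁) 0 (-(L π).toBlocks₂₁) k := by
  have hd : MD K (-(L π)) π := h.dK.self_of_nhds
  ext i j
  rcases j with j | j
  · have h1 : Fm K π i (Sum.inl j) = -(L π i (Sum.inl j)) := by
      show dslope (fun y => K y i (Sum.inl j)) π π = _
      rw [dslope_same]
      exact (hd i (Sum.inl j)).deriv
    rw [h1]
    rcases i with i | i
    · rfl
    · rfl
  · have h1 : Fm K π i (Sum.inr j) = K π i (Sum.inr j) := rfl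
    rw [h1, h.Kpi]
    rcases i with i | i
    · rfl
    · rfl

theorem Fm_cont (h : KData S Γ K L S₀ k) : ContinuousAt (Fm K) π := by
  have hd : MD K (-(L π)) π := h.dK.self_of_nhds
  refine continuousAt_pi.2 fun i => continuousAt_pi.2 fun j => ?_
  rcases j with j | j
  · exact continuousAt_dslope_same.2 (hd i (Sum.inl j)).differentiableAt
  · exact (hd i (Sum.inr j)).continuousAt

theorem Fm_det (h : KData S Γ K L S₀ k) : (Fm K π).det ≠ 0 := by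
  rw [h.Fm_pi, Matrix.det_fromBlocks_zero₁₂]
  refine mul_ne_zero ?_ h.kdet
  have h1 := ks_posDef_det (ks_posDef_11 h.Lpos)
  rw [Matrix.det_neg]
  exact mul_ne_zero (pow_ne_zero _ (by norm_num)) h1

theorem K_eq (h : KData S Γ K L S₀ k) {x : ℝ} (hx : x ≠ π) : K x = Fm K x * Dm a b x := by
  have hf : Fm K x = fromBlocks (Fm K x).toBlocks₁₁ (Fm K x).toBlocks₁₂ (Fm K x).toBlocks₂₁ (Fm K x).toBlocks₂₂ :=
    (fromBlocks_toBlocks _).symm
  rw [hf, Dm, fromBlocks_multiply]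
  simp only [Matrix.mul_zero, Matrix.mul_one, zero_add, add_zero, Matrix.mul_smul]
  have hx' : x - π ≠ 0 := sub_ne_zero.2 hx
  have h1 : ∀ i (j : a), (x - π) * Fm K x i (Sum.inl j) = K x i (Sum.inl j) := by
    intro i j
    show (x - π) * dslope (fun y => K y i (Sum.inl j)) π x = _
    rw [dslope_of_ne _ hx, slope_def_field]
    have h2 : K π i (Sum.inl j) = 0 := by
      rw [h.Kpi]
      rcases i with i | i <;> rfl
    rw [h2, sub_zero]
    field_simp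
  ext i j
  rcases i with i | i <;> rcases j with j | j
  · exact (h1 (Sum.inl i) j).symm
  · rfl
  · exact (h1 (Sum.inr i) j).symm
  · rfl

/-- near `π` : `K` is invertible, symmetric, and `L = K Γ K` -/
theorem near (h : KData S Γ K L S₀ k) : ∀ᶠ x in 𝓝[≠] π, x ≠ π ∧ x ∈ Ioo 0 (2 * π) ∧ K x * (S₀ - S x) = 1 ∧ (K x)ᵀ = K x ∧
    L x = K x * Γ x * K x ∧ (K x).det ≠ 0 ∧ (L x).PosDef := by
  have hI : ∀ᶠ x in 𝓝[≠] π, x ∈ Ioo 0 (2 * π) := by
    refine nhdsWithin_le_nhds ?_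
    exact Ioo_mem_nhds Real.pi_pos (by linarith [Real.pi_pos])
  have hne : ∀ᶠ x in 𝓝[≠] π, x ≠ π := eventually_nhdsWithin_of_forall fun x hx => hx
  have hKS := h.KS
  have hKS' : ∀ᶠ x in 𝓝[≠] π, ∀ᶠ y in 𝓝 x, K y * (S₀ - S y) = 1 := by
    have h2 := eventually_eventually_nhdsWithin.2 hKS
    filter_upwards [h2, hne] with x hx hx'
    rwa [nhdsWithin_eq_nhds.2 (isOpen_compl_singleton.mem_nhds hx')] at hx
  filter_upwards [hI, hne, hKS, hKS', nhdsWithin_le_nhds h.dK] with x hx hx' hk hk' hdK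
  have hdet : (K x).det ≠ 0 := ks_det_of_mul hk
  have hinv : (S₀ - S x)⁻¹ = K x := ks_inv_of_mul (mul_eq_one_comm.1 hk)
  have hsymm : (K x)ᵀ = K x := by
    rw [← hinv, Matrix.transpose_nonsing_inv, Matrix.transpose_sub, h.S0symm, h.Ssymm x hx hx']
  -- L = K Γ K
  have hev : K =ᶠ[𝓝 x] fun y => (S₀ - S y)⁻¹ := by
    filter_upwards [hk'] with y hy
    exact (ks_inv_of_mul (mul_eq_one_comm.1 hy)).symm
  have hd1 : MD (fun y => S₀ - S y) (0 - (-(Γ x))) x := MD.sub (MD.const S₀ x) (h.dS x hx hx')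
  have hdd : (S₀ - S x).det ≠ 0 := ks_det_of_mul (mul_eq_one_comm.1 hk)
  have hd2 := MD.inv hd1 hdd
  have hd3 : MD K (-((S₀ - S x)⁻¹ * (0 - (-(Γ x))) * (S₀ - S x)⁻¹)) x := MD.congr hd2 hev
  have h4 := MD.unique hdK hd3
  rw [hinv, zero_sub, neg_neg] at h4
  have h5 : L x = K x * Γ x * K x := neg_injective h4
  refine ⟨hx', hx, hk, hsymm, h5, hdet, ?_⟩
  rw [h5]
  have h6 := ks_posDef_conj (h.Gpos x hx hx') hdet
  rwa [hsymm] at h6

/-- regularised formulas near `π` -/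
theorem near' (h : KData S Γ K L S₀ k) : ∀ᶠ x in 𝓝[≠] π,
    ((x - π) ^ 2)⁻¹ • ((Γ x)⁻¹).toBlocks₁₁ = ((Fm K x)ᵀ * (L x)⁻¹ * Fm K x).toBlocks₁₁ ∧
    (Γ x).toBlocks₂₂ = ((Fm K x)⁻¹ * L x * ((Fm K x)ᵀ)⁻¹).toBlocks₂₂ ∧
    (S x).toBlocks₂₂ = S₀.toBlocks₂₂ - ((Fm K x)⁻¹).toBlocks₂₂ ∧
    (Γ x)⁻¹ = Dm a b x * ((Fm K x)ᵀ * (L x)⁻¹ * Fm K x) * Dm a b x := by
  have hFd : ∀ᶠ x in 𝓝[≠] π, (Fm K x).det ≠ 0 :=
    nhdsWithin_le_nhds ((cont_det h.Fm_cont).eventually_ne h.Fm_det)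
  filter_upwards [h.near, hFd] with x ⟨hx, hxI, hKS, hKs, hL, hKd, hLp⟩ hF
  have hx0 : x - π ≠ 0 := sub_ne_zero.2 hx
  have hK := h.K_eq hx
  have hDt : (Dm a b x)ᵀ = Dm a b x := by
    rw [Dm, fromBlocks_transpose]
    simp
  have hK' : K x = Dm a b x * (Fm K x)ᵀ := by
    rw [← hKs, hK, Matrix.transpose_mul, hDt]
  have hDd : (Dm a b x).det ≠ 0 := by
    rw [Dm, Matrix.det_fromBlocks_zero₁₂, Matrix.det_one, mul_one, Matrix.det_smul, Matrix.det_one, mul_one]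
    exact pow_ne_zero _ hx0
  have hLd := ks_posDef_det hLp
  have hGd := ks_posDef_det (h.Gpos x hxI hx)
  have uK : IsUnit (K x).det := isUnit_iff_ne_zero.2 hKd
  have uF : IsUnit (Fm K x).det := isUnit_iff_ne_zero.2 hF
  have uD : IsUnit (Dm a b x).det := isUnit_iff_ne_zero.2 hDd
  have uL : IsUnit (L x).det := isUnit_iff_ne_zero.2 hLd
  have uG : IsUnit (Γ x).det := isUnit_iff_ne_zero.2 hGd
  -- `Γ⁻¹ = K L⁻¹ K = D Fᵀ L⁻¹ F D`
  have hGinv : (Γ x)⁻¹ = K x * (L x)⁻¹ * K x := by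
    refine Matrix.inv_eq_right_inv ?_
    have h1 : (L x)⁻¹ = (K x)⁻¹ * (Γ x)⁻¹ * (K x)⁻¹ := by
      rw [hL, Matrix.mul_inv_rev, Matrix.mul_inv_rev, ← Matrix.mul_assoc]
    rw [h1]
    calc Γ x * (K x * ((K x)⁻¹ * (Γ x)⁻¹ * (K x)⁻¹) * K x)
        = Γ x * ((K x * (K x)⁻¹) * (Γ x)⁻¹ * ((K x)⁻¹ * K x)) := by simp only [Matrix.mul_assoc]
      _ = 1 := by
        rw [Matrix.mul_nonsing_inv _ uK, Matrix.nonsing_inv_mul _ uK, Matrix.one_mul, Matrix.mul_one,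
          Matrix.mul_nonsing_inv _ uG]
  have hG1 : (Γ x)⁻¹ = Dm a b x * ((Fm K x)ᵀ * (L x)⁻¹ * Fm K x) * Dm a b x := by
    rw [hGinv]
    conv_lhs => rw [hK']
    have h2 : Dm a b x * (Fm K x)ᵀ * (L x)⁻¹ * (Dm a b x * (Fm K x)ᵀ) = Dm a b x * (Fm K x)ᵀ * (L x)⁻¹ * K x := by
      rw [← hK']
    rw [h2, hK]
    simp only [Matrix.mul_assoc]
  -- `Γ = D⁻¹ F⁻¹ L F⁻ᵀ D⁻¹`
  have hGG : Γ x = (K x)⁻¹ * L x * (K x)⁻¹ := by
    rw [hL]
    calc Γ x = 1 * Γ x * 1 := by rw [Matrix.one_mul, Matrix.mul_one]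
      _ = ((K x)⁻¹ * K x) * Γ x * (K x * (K x)⁻¹) := by
        rw [Matrix.mul_nonsing_inv _ uK, Matrix.nonsing_inv_mul _ uK]
      _ = (K x)⁻¹ * (K x * Γ x * K x) * (K x)⁻¹ := by simp only [Matrix.mul_assoc]
  have hKi1 : (K x)⁻¹ = (Dm a b x)⁻¹ * (Fm K x)⁻¹ := by rw [hK, Matrix.mul_inv_rev]
  have hKi2 : (K x)⁻¹ = ((Fm K x)ᵀ)⁻¹ * (Dm a b x)⁻¹ := by rw [hK', Matrix.mul_inv_rev]
  have hG2 : Γ x = (Dm a b x)⁻¹ * ((Fm K x)⁻¹ * L x * ((Fm K x)ᵀ)⁻¹) * (Dm a b x)⁻¹ := by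
    rw [hGG]
    have h2 : (K x)⁻¹ * L x * (K x)⁻¹ = ((Dm a b x)⁻¹ * (Fm K x)⁻¹) * L x * (((Fm K x)ᵀ)⁻¹ * (Dm a b x)⁻¹) := by
      rw [← hKi1, ← hKi2]
    rw [h2]
    simp only [Matrix.mul_assoc]
  have hDi : (Dm a b x)⁻¹ = fromBlocks ((x - π)⁻¹ • (1 : Matrix a a ℝ)) 0 0 1 := by
    refine Matrix.inv_eq_right_inv ?_
    rw [Dm, fromBlocks_multiply]
    simp only [Matrix.mul_zero, Matrix.mul_one, zero_add, add_zero, Matrix.mul_smul, Matrix.zero_mul, smul_smul,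
      inv_mul_cancel₀ hx0, one_smul, smul_zero]
    exact fromBlocks_one
  refine ⟨?_, ?_, ?_, hG1⟩
  · rw [hG1, Dm]
    set N := (Fm K x)ᵀ * (L x)⁻¹ * Fm K x
    have hN : N = fromBlocks N.toBlocks₁₁ N.toBlocks₁₂ N.toBlocks₂₁ N.toBlocks₂₂ := (fromBlocks_toBlocks N).symm
    rw [hN, fromBlocks_multiply, fromBlocks_multiply]
    simp only [toBlocks_fromBlocks₁₁, Matrix.mul_zero, Matrix.mul_one, zero_add, add_zero, Matrix.mul_smul,
      Matrix.zero_mul, smul_smul, Matrix.smul_mul, Matrix.one_mul]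
    rw [← sq, inv_mul_cancel₀ (pow_ne_zero 2 hx0), one_smul]
  · conv_lhs => rw [hG2]
    rw [hDi]
    set N := (Fm K x)⁻¹ * L x * ((Fm K x)ᵀ)⁻¹
    have hN : N = fromBlocks N.toBlocks₁₁ N.toBlocks₁₂ N.toBlocks₂₁ N.toBlocks₂₂ := (fromBlocks_toBlocks N).symm
    rw [hN, fromBlocks_multiply, fromBlocks_multiply]
    simp only [toBlocks_fromBlocks₂₂, Matrix.mul_zero, Matrix.mul_one, zero_add, add_zero,
      Matrix.zero_mul, Matrix.one_mul]
  · have h1 : S₀ - S x = (K x)⁻¹ := (ks_inv_of_mul hKS).symm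
    have h2 : S x = S₀ - (K x)⁻¹ := by rw [← h1, sub_sub_cancel]
    rw [h2, hKi1, hDi]
    set N := (Fm K x)⁻¹
    have hN : N = fromBlocks N.toBlocks₁₁ N.toBlocks₁₂ N.toBlocks₂₁ N.toBlocks₂₂ := (fromBlocks_toBlocks N).symm
    have h3 : (fromBlocks ((x - π)⁻¹ • (1 : Matrix a a ℝ)) 0 0 1 * N).toBlocks₂₂ = N.toBlocks₂₂ := by
      conv_lhs => rw [hN, fromBlocks_multiply]
      simp
    show S₀.toBlocks₂₂ - (fromBlocks ((x - π)⁻¹ • (1 : Matrix a a ℝ)) 0 0 1 * N).toBlocks₂₂ = _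
    rw [h3]

/-- the block `₂₂` of `Γ`, extended to `π` -/
noncomputable def Gt (Γ K L : ℝ → Matrix (a ⊕ b) (a ⊕ b) ℝ) (x : ℝ) : Matrix b b ℝ :=
  if x = π then ((Fm K π)⁻¹ * L π * ((Fm K π)ᵀ)⁻¹).toBlocks₂₂ else (Γ x).toBlocks₂₂

/-- the block `₂₂` of `S`, extended to `π` -/
noncomputable def T2 (S K : ℝ → Matrix (a ⊕ b) (a ⊕ b) ℝ) (S₀ : Matrix (a ⊕ b) (a ⊕ b) ℝ) (x : ℝ) : Matrix b b ℝ :=
  if x = π then S₀.toBlocks₂₂ - ((Fm K π)⁻¹).toBlocks₂₂ else (S x).toBlocks₂₂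

theorem ks_b22_cont : Continuous fun N : Matrix (a ⊕ b) (a ⊕ b) ℝ => N.toBlocks₂₂ :=
  continuous_pi fun i => continuous_pi fun j => continuous_apply_apply (Sum.inr i) (Sum.inr j)

theorem ks_b11_cont : Continuous fun N : Matrix (a ⊕ b) (a ⊕ b) ℝ => N.toBlocks₁₁ :=
  continuous_pi fun i => continuous_pi fun j => continuous_apply_apply (Sum.inl i) (Sum.inl j)

/-- the K-form gives `SData` -/
theorem sdata (h : KData S Γ K L S₀ k) : SData (fun x => (Γ x)⁻¹) S (Gt Γ K L) (T2 S K S₀) := by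
  have hpi := Real.pi_pos
  have hFT : (((Fm K π)ᵀ)).det ≠ 0 := by rw [Matrix.det_transpose]; exact h.Fm_det
  have hFtend : Tendsto (Fm K) (𝓝[≠] π) (𝓝 (Fm K π)) := h.Fm_cont.tendsto.mono_left nhdsWithin_le_nhds
  have hLtend : Tendsto L (𝓝[≠] π) (𝓝 (L π)) := h.Lcont.tendsto.mono_left nhdsWithin_le_nhds
  have hFTtend : Tendsto (fun x => (Fm K x)ᵀ) (𝓝[≠] π) (𝓝 (Fm K π)ᵀ) :=
    ((continuous_id.matrix_transpose).tendsto (Fm K π)).comp hFtend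
  have hLd := ks_posDef_det h.Lpos
  have hev : ∀ {f g : ℝ → Matrix b b ℝ} {x : ℝ}, x ≠ π → ContinuousAt g x → (∀ y, y ≠ π → f y = g y) → ContinuousAt f x := by
    intro f g x hx hg hfg
    refine hg.congr ?_
    filter_upwards [isOpen_ne.mem_nhds hx] with y hy
    exact (hfg y hy).symm
  refine
    { Mpos := fun x hx hx' => (h.Gpos x hx hx').inv
      Mcont := fun x hx hx' => cont_inv (h.Gcont x hx hx') (ks_posDef_det (h.Gpos x hx hx'))
      Ssymm := h.Ssymm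
      dS := ?_
      conj := h.conj
      M0 := ?_
      M2 := ?_
      S0 := h.S0
      Gpi := ?_
      G2eq := ?_
      G2cont := ?_
      G2pos := ?_
      S2eq := ?_
      S2cont := ?_ }
  · intro x hx hx'
    rw [Matrix.nonsing_inv_nonsing_inv _ (isUnit_iff_ne_zero.2 (ks_posDef_det (h.Gpos x hx hx')))]
    exact h.dS x hx hx'
  · have h1 := ks_tendsto_inv h.G0 (by rw [Matrix.det_one]; exact one_ne_zero)
    rw [inv_one] at h1
    refine h1.congr' ?_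
    filter_upwards [Ioo_mem_nhdsGT hpi] with x hx
    have hG := ks_posDef_det (h.Gpos x ⟨hx.1, by linarith [hx.2]⟩ (by linarith [hx.2] : x < π).ne)
    have hx2 : x ^ 2 ≠ 0 := pow_ne_zero 2 hx.1.ne'
    refine Matrix.inv_eq_right_inv ?_
    rw [Matrix.smul_mul, Matrix.mul_smul, smul_smul, mul_inv_cancel₀ hx2, one_smul,
      Matrix.mul_nonsing_inv _ (isUnit_iff_ne_zero.2 hG)]
  · have h1 := ks_tendsto_inv h.G2 (by rw [Matrix.det_one]; exact one_ne_zero)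
    rw [inv_one] at h1
    refine h1.congr' ?_
    have h3 : Ioo π (2 * π) ∈ 𝓝[<] (2 * π) := Ioo_mem_nhdsLT (by linarith)
    filter_upwards [h3] with x hx
    have hG := ks_posDef_det (h.Gpos x ⟨by linarith [hx.1], hx.2⟩ hx.1.ne')
    have hx2 : (x - 2 * π) ^ 2 ≠ 0 := pow_ne_zero 2 (sub_ne_zero.2 hx.2.ne)
    refine Matrix.inv_eq_right_inv ?_
    rw [Matrix.smul_mul, Matrix.mul_smul, smul_smul, mul_inv_cancel₀ hx2, one_smul,
      Matrix.mul_nonsing_inv _ (isUnit_iff_ne_zero.2 hG)]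
  · refine ⟨((Fm K π)ᵀ * (L π)⁻¹ * Fm K π).toBlocks₁₁, ks_posDef_11 (ks_posDef_conj h.Lpos.inv h.Fm_det), ?_⟩
    have h1 : Tendsto (fun x => (Fm K x)ᵀ * (L x)⁻¹ * Fm K x) (𝓝[≠] π) (𝓝 ((Fm K π)ᵀ * (L π)⁻¹ * Fm K π)) :=
      (hFTtend.mul (ks_tendsto_inv hLtend hLd)).mul hFtend
    refine ((ks_b11_cont.tendsto _).comp h1).congr' ?_
    filter_upwards [h.near'] with x hx
    exact hx.1.symm
  · intro x hx hx'
    rw [Gt, if_neg hx', Matrix.nonsing_inv_nonsing_inv _ (isUnit_iff_ne_zero.2 (ks_posDef_det (h.Gpos x hx hx')))]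
  · intro x hx
    by_cases hx' : x = π
    · subst hx'
      refine continuousAt_iff_punctured_nhds.2 ?_
      have h1 : Tendsto (fun x => (Fm K x)⁻¹ * L x * ((Fm K x)ᵀ)⁻¹) (𝓝[≠] π)
          (𝓝 ((Fm K π)⁻¹ * L π * ((Fm K π)ᵀ)⁻¹)) :=
        ((ks_tendsto_inv hFtend h.Fm_det).mul hLtend).mul (ks_tendsto_inv hFTtend hFT)
      have h2 := (ks_b22_cont.tendsto _).comp h1
      have h3 : Gt Γ K L π = ((Fm K π)⁻¹ * L π * ((Fm K π)ᵀ)⁻¹).toBlocks₂₂ := if_pos rfl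
      rw [h3]
      refine h2.congr' ?_
      filter_upwards [h.near', self_mem_nhdsWithin] with x hx hx'
      have hx'' : x ≠ π := hx'
      rw [Gt, if_neg hx'', hx.2.1]
      rfl
    · refine hev hx' ((ks_b22_cont.tendsto _).comp (h.Gcont x hx hx')) ?_
      intro y hy
      rw [Gt, if_neg hy]
      rfl
  · intro x hx
    by_cases hx' : x = π
    · subst hx'
      rw [Gt, if_pos rfl]
      refine ks_posDef_22 ?_
      have h1 := ks_posDef_conj h.Lpos (F := ((Fm K π)ᵀ)⁻¹) (by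
        have h2 := Matrix.isUnit_nonsing_inv_det _ (isUnit_iff_ne_zero.2 hFT)
        exact h2.ne_zero)
      rwa [Matrix.transpose_nonsing_inv, Matrix.transpose_transpose] at h1
    · rw [Gt, if_neg hx']
      exact ks_posDef_22 (h.Gpos x hx hx')
  · intro x hx hx'
    rw [T2, if_neg hx']
  · intro x hx
    by_cases hx' : x = π
    · subst hx'
      refine continuousAt_iff_punctured_nhds.2 ?_
      have h1 := (ks_b22_cont.tendsto _).comp (ks_tendsto_inv hFtend h.Fm_det)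
      have h3 : T2 S K S₀ π = S₀.toBlocks₂₂ - ((Fm K π)⁻¹).toBlocks₂₂ := if_pos rfl
      rw [h3]
      refine ((tendsto_const_nhds (x := S₀.toBlocks₂₂)).sub h1).congr' ?_
      filter_upwards [h.near', self_mem_nhdsWithin] with x hx hx'
      have hx'' : x ≠ π := hx'
      rw [T2, if_neg hx'', hx.2.2.1]
      rfl
    · refine hev hx' ((ks_b22_cont.tendsto _).comp (MD.continuousAt (h.dS x hx hx'))) ?_
      intro y hy
      rw [T2, if_neg hy]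
      rfl

/-- the limit of the metric at `π` -/
theorem M_lim (h : KData S Γ K L S₀ k) :
    Tendsto (fun x => (Γ x)⁻¹) (𝓝[≠] π) (𝓝 (fromBlocks 0 0 0 ((Fm K π)ᵀ * (L π)⁻¹ * Fm K π).toBlocks₂₂)) ∧
    (((Fm K π)ᵀ * (L π)⁻¹ * Fm K π).toBlocks₂₂).PosDef := by
  refine ⟨?_, ks_posDef_22 (ks_posDef_conj h.Lpos.inv h.Fm_det)⟩
  have hFtend : Tendsto (Fm K) (𝓝[≠] π) (𝓝 (Fm K π)) := h.Fm_cont.tendsto.mono_left nhdsWithin_le_nhds
  have hLtend : Tendsto L (𝓝[≠] π) (𝓝 (L π)) := h.Lcont.tendsto.mono_left nhdsWithin_le_nhds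
  have hFTtend : Tendsto (fun x => (Fm K x)ᵀ) (𝓝[≠] π) (𝓝 (Fm K π)ᵀ) :=
    ((continuous_id.matrix_transpose).tendsto (Fm K π)).comp hFtend
  have hD : Tendsto (Dm a b) (𝓝[≠] π) (𝓝 (Dm a b π)) := by
    refine Tendsto.mono_left ?_ nhdsWithin_le_nhds
    refine tendsto_pi_nhds.2 fun i => tendsto_pi_nhds.2 fun j => ?_
    rcases i with i | i <;> rcases j with j | j
    · show Tendsto (fun x => ((x - π) • (1 : Matrix a a ℝ)) i j) (𝓝 π) (𝓝 (((π - π) • (1 : Matrix a a ℝ)) i j))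
      exact ((continuous_id.sub continuous_const).mul continuous_const).tendsto π
    · exact tendsto_const_nhds
    · exact tendsto_const_nhds
    · exact tendsto_const_nhds
  have h1 : Tendsto (fun x => Dm a b x * ((Fm K x)ᵀ * (L x)⁻¹ * Fm K x) * Dm a b x) (𝓝[≠] π)
      (𝓝 (Dm a b π * ((Fm K π)ᵀ * (L π)⁻¹ * Fm K π) * Dm a b π)) :=
    (hD.mul ((hFTtend.mul (ks_tendsto_inv hLtend (ks_posDef_det h.Lpos))).mul hFtend)).mul hD
  have h2 : Dm a b π * ((Fm K π)ᵀ * (L π)⁻¹ * Fm K π) * Dm a b π =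
      fromBlocks 0 0 0 ((Fm K π)ᵀ * (L π)⁻¹ * Fm K π).toBlocks₂₂ := by
    set N := (Fm K π)ᵀ * (L π)⁻¹ * Fm K π
    have hN : N = fromBlocks N.toBlocks₁₁ N.toBlocks₁₂ N.toBlocks₂₁ N.toBlocks₂₂ := (fromBlocks_toBlocks N).symm
    rw [Dm, hN, fromBlocks_multiply, fromBlocks_multiply]
    simp
  rw [h2] at h1
  refine h1.congr' ?_
  filter_upwards [h.near'] with x hx
  exact hx.2.2.2.symm

end KData

end BL
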