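import Pool.Agent.Lib.MP_ccbbf6_gt.MC
import Pool.Agent.Lib.MP_ccbbf6_gt.S.SD

/-!
# SB: algebra of blocks

* `det_minor`: `M * fromBlocks (M⁻¹)₁₁ 0 (M⁻¹)₂₁ 1 = fromBlocks 1 M₁₂ 0 M₂₂` (first block column of `M M⁻¹ = 1`); take determinants
  (`det_fromBlocks_zero₁₂`, `det_fromBlocks_zero₂₁`).  `det_minor'`: the same with the blocks exchanged.
* `block_le`: for `M` positive definite, `z` a vector, `p = M₁₁⁻¹ z₁` extended by `0`: `(M⁻¹ z - p)ᵀ M (M⁻¹ z - p) = zᵀ M⁻¹ z - z₁ᵀ M₁₁⁻¹ z₁ ≥ 0`, equality iff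
  `M⁻¹ z = p`, i.e. `z = M p`.
* `half_log_det`: `det (M⁻¹)₂₂ = det M₁₁ / det M` (`det_minor` for `M⁻¹`), so `(1/2) log det M x = (1/2) log det M₁₁ - (1/2) log det Γ2`.
* `LL_split`: `det_minor` for `S u - S v`: `(S u - S v)₂₂ = S2 u - S2 v`.
* `S2_quad`: `x ↦ y ⬝ᵥ (S2 x *ᵥ y)` is continuous on `[u, v]` and has derivative `- y ⬝ᵥ (Γ2 x *ᵥ y)` at every `x ≠ π` (`dS`, `MD.submatrix`/blocks, equality near `x`);
  `intervalIntegral.integral_eq_of_hasDerivAt_off_countable` (exceptional set `{π}`, continuous integrand).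
* `S2_pos`: from `S2_quad`: the integral of a positive continuous function.
-/

open Matrix Set Filter Topology
open scoped Real

namespace BL

variable {a b : Type} [Fintype a] [DecidableEq a] [Fintype b] [DecidableEq b]

theorem det_minor (M : Matrix (a ⊕ b) (a ⊕ b) ℝ) (h : M.det ≠ 0) :
    M.toBlocks₂₂.det = M.det * (M⁻¹).toBlocks₁₁.det := by
  have hu : IsUnit M.det := isUnit_iff_ne_zero.mpr h
  have h1 : M * M⁻¹ = 1 := mul_nonsing_inv M hu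
  have h2 : fromBlocks M.toBlocks₁₁ M.toBlocks₁₂ M.toBlocks₂₁ M.toBlocks₂₂ *
      fromBlocks (M⁻¹).toBlocks₁₁ (M⁻¹).toBlocks₁₂ (M⁻¹).toBlocks₂₁ (M⁻¹).toBlocks₂₂ = fromBlocks 1 0 0 1 := by
    rw [fromBlocks_toBlocks, fromBlocks_toBlocks, h1, fromBlocks_one]
  rw [fromBlocks_multiply, fromBlocks_inj] at h2
  have h3 : M * fromBlocks (M⁻¹).toBlocks₁₁ 0 (M⁻¹).toBlocks₂₁ 1 = fromBlocks 1 M.toBlocks₁₂ 0 M.toBlocks₂₂ := by
    have h4 : M = fromBlocks M.toBlocks₁₁ M.toBlocks₁₂ M.toBlocks₂₁ M.toBlocks₂₂ := (fromBlocks_toBlocks M).symm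
    calc M * fromBlocks (M⁻¹).toBlocks₁₁ 0 (M⁻¹).toBlocks₂₁ 1
        = fromBlocks M.toBlocks₁₁ M.toBlocks₁₂ M.toBlocks₂₁ M.toBlocks₂₂ *
          fromBlocks (M⁻¹).toBlocks₁₁ 0 (M⁻¹).toBlocks₂₁ 1 := by rw [fromBlocks_toBlocks]
      _ = _ := by
          rw [fromBlocks_multiply, h2.1, h2.2.2.1]
          simp
  have h5 := congrArg det h3
  rw [det_mul, det_fromBlocks_zero₁₂, det_fromBlocks_zero₂₁, det_one, det_one, mul_one, one_mul] at h5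
  exact h5.symm

theorem det_minor' (M : Matrix (a ⊕ b) (a ⊕ b) ℝ) (h : M.det ≠ 0) :
    M.toBlocks₁₁.det = M.det * (M⁻¹).toBlocks₂₂.det := by
  have hu : IsUnit M.det := isUnit_iff_ne_zero.mpr h
  have h1 : M * M⁻¹ = 1 := mul_nonsing_inv M hu
  have h2 : fromBlocks M.toBlocks₁₁ M.toBlocks₁₂ M.toBlocks₂₁ M.toBlocks₂₂ *
      fromBlocks (M⁻¹).toBlocks₁₁ (M⁻¹).toBlocks₁₂ (M⁻¹).toBlocks₂₁ (M⁻¹).toBlocks₂₂ = fromBlocks 1 0 0 1 := by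
    rw [fromBlocks_toBlocks, fromBlocks_toBlocks, h1, fromBlocks_one]
  rw [fromBlocks_multiply, fromBlocks_inj] at h2
  have h3 : M * fromBlocks 1 (M⁻¹).toBlocks₁₂ 0 (M⁻¹).toBlocks₂₂ = fromBlocks M.toBlocks₁₁ 0 M.toBlocks₂₁ 1 := by
    calc M * fromBlocks 1 (M⁻¹).toBlocks₁₂ 0 (M⁻¹).toBlocks₂₂
        = fromBlocks M.toBlocks₁₁ M.toBlocks₁₂ M.toBlocks₂₁ M.toBlocks₂₂ *
          fromBlocks 1 (M⁻¹).toBlocks₁₂ 0 (M⁻¹).toBlocks₂₂ := by rw [fromBlocks_toBlocks]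
      _ = _ := by
          rw [fromBlocks_multiply, h2.2.1, h2.2.2.2]
          simp
  have h5 := congrArg det h3
  rw [det_mul, det_fromBlocks_zero₁₂, det_fromBlocks_zero₂₁, det_one, det_one, mul_one, one_mul] at h5
  exact h5.symm

theorem block_pos {M : Matrix (a ⊕ b) (a ⊕ b) ℝ} (h : M.PosDef) : M.toBlocks₁₁.PosDef ∧ M.toBlocks₂₂.PosDef :=
  ⟨h.submatrix Sum.inl_injective, h.submatrix Sum.inr_injective⟩

private theorem sb_symm {n : Type*} [Fintype n] {M : Matrix n n ℝ} (h : M.PosDef) : Mᵀ = M := by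
  have h1 := h.isHermitian
  rw [IsHermitian, conjTranspose_eq_transpose_of_trivial] at h1
  exact h1

private theorem sb_pos {n : Type*} [Fintype n] {M : Matrix n n ℝ} (h : M.PosDef) {x : n → ℝ} (hx : x ≠ 0) :
    0 < x ⬝ᵥ (M *ᵥ x) := by
  have h1 := h.dotProduct_mulVec_pos hx
  rwa [star_trivial] at h1

private theorem sb_comm {n : Type*} [Fintype n] {M : Matrix n n ℝ} (h : Mᵀ = M) (x y : n → ℝ) :
    x ⬝ᵥ (M *ᵥ y) = y ⬝ᵥ (M *ᵥ x) := by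
  rw [dotProduct_mulVec, ← mulVec_transpose, h, dotProduct_comm]

private theorem sb_elim (z : a ⊕ b → ℝ) (p : a → ℝ) : z ⬝ᵥ (Sum.elim p 0) = (z ∘ Sum.inl) ⬝ᵥ p := by
  simp [dotProduct, Fintype.sum_sum_type]

private theorem sb_quad (M : Matrix (a ⊕ b) (a ⊕ b) ℝ) (p q : a → ℝ) :
    (Sum.elim p 0 : a ⊕ b → ℝ) ⬝ᵥ (M *ᵥ (Sum.elim q 0)) = p ⬝ᵥ (M.toBlocks₁₁ *ᵥ q) := by
  simp [dotProduct, mulVec, Fintype.sum_sum_type, toBlocks₁₁]

theorem block_le {M : Matrix (a ⊕ b) (a ⊕ b) ℝ} (h : M.PosDef) (z : a ⊕ b → ℝ) :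
    (z ∘ Sum.inl) ⬝ᵥ ((M.toBlocks₁₁)⁻¹ *ᵥ (z ∘ Sum.inl)) ≤ z ⬝ᵥ (M⁻¹ *ᵥ z) ∧
    ((z ∘ Sum.inl) ⬝ᵥ ((M.toBlocks₁₁)⁻¹ *ᵥ (z ∘ Sum.inl)) = z ⬝ᵥ (M⁻¹ *ᵥ z) →
      z = M *ᵥ (Sum.elim ((M.toBlocks₁₁)⁻¹ *ᵥ (z ∘ Sum.inl)) 0)) := by
  have hM : IsUnit M.det := isUnit_iff_ne_zero.mpr h.det_pos.ne'
  have hM1 : IsUnit M.toBlocks₁₁.det := isUnit_iff_ne_zero.mpr (block_pos h).1.det_pos.ne'
  set q : a → ℝ := (M.toBlocks₁₁)⁻¹ *ᵥ (z ∘ Sum.inl) with hq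
  set p : a ⊕ b → ℝ := Sum.elim q 0 with hp
  have e1 : M *ᵥ (M⁻¹ *ᵥ z) = z := by
    rw [mulVec_mulVec, mul_nonsing_inv M hM, one_mulVec]
  have e2 : M.toBlocks₁₁ *ᵥ q = z ∘ Sum.inl := by
    rw [hq, mulVec_mulVec, mul_nonsing_inv _ hM1, one_mulVec]
  have e3 : (M⁻¹ *ᵥ z - p) ⬝ᵥ (M *ᵥ (M⁻¹ *ᵥ z - p)) = z ⬝ᵥ (M⁻¹ *ᵥ z) - (z ∘ Sum.inl) ⬝ᵥ q := by
    have e4 : (M⁻¹ *ᵥ z) ⬝ᵥ (M *ᵥ p) = p ⬝ᵥ z := by
      rw [sb_comm (sb_symm h), e1]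
    have e5 : p ⬝ᵥ (M *ᵥ p) = (z ∘ Sum.inl) ⬝ᵥ q := by
      rw [hp, sb_quad, e2, dotProduct_comm]
    have e6 : p ⬝ᵥ z = (z ∘ Sum.inl) ⬝ᵥ q := by
      rw [dotProduct_comm, hp, sb_elim]
    rw [mulVec_sub, e1, sub_dotProduct, dotProduct_sub, dotProduct_sub, e4, e5, e6, dotProduct_comm (M⁻¹ *ᵥ z) z]
    ring
  constructor
  · by_cases hz : M⁻¹ *ᵥ z - p = 0
    · rw [hz, zero_dotProduct] at e3
      linarith
    · have := sb_pos h hz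
      rw [e3] at this
      linarith
  · intro heq
    have hz : M⁻¹ *ᵥ z - p = 0 := by
      by_contra hz
      have := sb_pos h hz
      rw [e3, heq] at this
      linarith
    have h1 : M⁻¹ *ᵥ z = p := sub_eq_zero.mp hz
    rw [← h1, e1]

variable {M S : ℝ → Matrix (a ⊕ b) (a ⊕ b) ℝ} {Γ2 S2 : ℝ → Matrix b b ℝ}

private theorem sb_inv_neg {n : Type*} [Fintype n] [DecidableEq n] (A : Matrix n n ℝ) : (-A)⁻¹ = -A⁻¹ := by
  by_cases h : IsUnit A.det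
  · refine inv_eq_left_inv ?_
    rw [neg_mul_neg, nonsing_inv_mul A h]
  · have h1 : ¬ IsUnit (-A).det := by
      intro h2
      apply h
      rw [det_neg] at h2
      exact isUnit_of_mul_isUnit_right h2
    rw [nonsing_inv_apply_not_isUnit A h, nonsing_inv_apply_not_isUnit _ h1, neg_zero]

theorem QQ_swap (S : ℝ → Matrix (a ⊕ b) (a ⊕ b) ℝ) (u v : ℝ) : QQ S v u = -QQ S u v := by
  have h1 : S v - S u = -(S u - S v) := (neg_sub _ _).symm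
  rw [QQ, QQ, h1, sb_inv_neg]
  rfl

theorem SData.QQ_symm (h : SData M S Γ2 S2) {u v : ℝ} (hu : u ∈ Ioo 0 (2 * π)) (hu' : u ≠ π)
    (hv : v ∈ Ioo 0 (2 * π)) (hv' : v ≠ π) : (QQ S u v)ᵀ = QQ S u v := by
  have h1 : (S u - S v)ᵀ = S u - S v := by
    rw [transpose_sub, h.Ssymm u hu hu', h.Ssymm v hv hv']
  have h2 : ((S u - S v)⁻¹)ᵀ = (S u - S v)⁻¹ := by
    rw [transpose_nonsing_inv, h1]
  ext i j
  exact congrFun (congrFun h2 (Sum.inl i)) (Sum.inl j)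

theorem SData.half_log_det (h : SData M S Γ2 S2) {x : ℝ} (hx : x ∈ Ioo 0 (2 * π)) (hx' : x ≠ π) :
    (1 / 2) * Real.log (M x).det = ph M x + ps Γ2 x + (Fintype.card a : ℝ) * Real.log |Real.sin x|
      + (Fintype.card b : ℝ) * Real.log (2 * Real.sin (x / 2)) := by
  have h1 := h.Mpos x hx hx'
  have h2 := det_minor' (M x) h1.det_pos.ne'
  rw [← h.G2eq x hx hx'] at h2
  rw [ph, ps, h2, Real.log_mul h1.det_pos.ne' (h.G2pos x hx).det_pos.ne']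
  ring

theorem SData.Cm_cont (h : SData M S Γ2 S2) {x : ℝ} (hx : x ∈ Ioo 0 (2 * π)) (hx' : x ≠ π) :
    ContinuousAt (Cm M) x ∧ (Cm M x).PosDef := by
  have h1 := (block_pos (h.Mpos x hx hx')).1
  have h2 : ContinuousAt (fun y => (M y).toBlocks₁₁) x := by
    have h3 : Continuous fun N : Matrix (a ⊕ b) (a ⊕ b) ℝ => N.toBlocks₁₁ :=
      continuous_matrix fun i j => continuous_id.matrix_elem (Sum.inl i) (Sum.inl j)
    exact h3.continuousAt.comp (h.Mcont x hx hx')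
  exact ⟨cont_inv h2 h1.det_pos.ne', h1.inv⟩

private theorem sb_quad_cont {n : Type*} [Fintype n] {N : ℝ → Matrix n n ℝ} {x : ℝ} (h : ContinuousAt N x)
    (y : n → ℝ) : ContinuousAt (fun t => y ⬝ᵥ (N t *ᵥ y)) x := by
  have h3 : Continuous fun N : Matrix n n ℝ => y ⬝ᵥ (N *ᵥ y) := by
    unfold dotProduct mulVec dotProduct
    refine continuous_finsetSum _ fun i _ => continuous_const.mul ?_
    exact continuous_finsetSum _ fun j _ => (continuous_id.matrix_elem i j).mul continuous_const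
  exact h3.continuousAt.comp h

theorem SData.S2_quad (h : SData M S Γ2 S2) {u v : ℝ} (hu : 0 < u) (huv : u < v) (hv : v < 2 * π) (y : b → ℝ) :
    ∫ x in u..v, y ⬝ᵥ (Γ2 x *ᵥ y) = y ⬝ᵥ ((S2 u - S2 v) *ᵥ y) := by
  have hsub : ∀ x ∈ Icc u v, x ∈ Ioo 0 (2 * π) := fun x hx => ⟨by linarith [hx.1], by linarith [hx.2]⟩
  have h1 : ContinuousOn (fun x => y ⬝ᵥ (S2 x *ᵥ y)) (uIcc u v) := by
    rw [uIcc_of_le huv.le]
    exact fun x hx => (sb_quad_cont (h.S2cont x (hsub x hx)) y).continuousWithinAt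
  have h2 : ContinuousOn (fun x => -(y ⬝ᵥ (Γ2 x *ᵥ y))) (uIcc u v) := by
    rw [uIcc_of_le huv.le]
    exact fun x hx => (sb_quad_cont (h.G2cont x (hsub x hx)) y).neg.continuousWithinAt
  have h3 : ∀ x ∈ Ioo (min u v) (max u v) \ {π}, HasDerivAt (fun x => y ⬝ᵥ (S2 x *ᵥ y)) (-(y ⬝ᵥ (Γ2 x *ᵥ y))) x := by
    rw [min_eq_left huv.le, max_eq_right huv.le]
    rintro x ⟨hx, hxπ⟩
    have hx' : x ≠ π := hxπ
    have hx2 : x ∈ Ioo 0 (2 * π) := hsub x ⟨hx.1.le, hx.2.le⟩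
    have h4 : MD (fun t => (S t).submatrix Sum.inr Sum.inr) ((-(M x)⁻¹).submatrix (Sum.inr : b → a ⊕ b) Sum.inr) x :=
      (h.dS x hx2 hx').submatrix Sum.inr Sum.inr
    have h5 : S2 =ᶠ[𝓝 x] fun t => (S t).submatrix Sum.inr Sum.inr := by
      have h6 : ∀ᶠ t in 𝓝 x, t ∈ Ioo 0 (2 * π) := isOpen_Ioo.mem_nhds hx2
      have h7 : ∀ᶠ t in 𝓝 x, t ≠ π := isOpen_ne.mem_nhds hx'
      filter_upwards [h6, h7] with t ht1 ht2
      exact h.S2eq t ht1 ht2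
    have h6 := (h4.congr h5).quad y y
    refine h6.congr_deriv ?_
    rw [h.G2eq x hx2 hx', ← dotProduct_neg, ← neg_mulVec]
    rfl
  have h4 := MeasureTheory.integral_eq_of_hasDerivAt_off_countable (fun x => y ⬝ᵥ (S2 x *ᵥ y))
    (fun x => -(y ⬝ᵥ (Γ2 x *ᵥ y))) (countable_singleton π) h1 h3 h2.intervalIntegrable
  rw [intervalIntegral.integral_neg] at h4
  rw [sub_mulVec, dotProduct_sub]
  linarith

private theorem sb_S2_symm (h : SData M S Γ2 S2) {x : ℝ} (hx : x ∈ Ioo 0 (2 * π)) : (S2 x)ᵀ = S2 x := by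
  have h1 : ∀ t ∈ Ioo 0 (2 * π), t ≠ π → (S2 t)ᵀ = S2 t := by
    intro t ht ht'
    rw [h.S2eq t ht ht']
    ext i j
    exact congrFun (congrFun (h.Ssymm t ht ht') (Sum.inr i)) (Sum.inr j)
  by_cases hx' : x = π
  · have h2 : Tendsto S2 (𝓝[≠] x) (𝓝 (S2 x)) := (h.S2cont x hx).tendsto.mono_left nhdsWithin_le_nhds
    have h3 : Tendsto (fun t => (S2 t)ᵀ) (𝓝[≠] x) (𝓝 (S2 x)ᵀ) :=
      (continuous_id.matrix_transpose.continuousAt.tendsto).comp h2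
    have h4 : (fun t => (S2 t)ᵀ) =ᶠ[𝓝[≠] x] S2 := by
      have h6 : ∀ᶠ t in 𝓝[≠] x, t ∈ Ioo 0 (2 * π) := nhdsWithin_le_nhds (isOpen_Ioo.mem_nhds hx)
      filter_upwards [h6, self_mem_nhdsWithin] with t ht1 ht2
      exact h1 t ht1 (by rw [← hx']; exact ht2)
    exact tendsto_nhds_unique (h3.congr' h4) h2
  · exact h1 x hx hx'

theorem SData.S2_pos (h : SData M S Γ2 S2) {u v : ℝ} (hu : 0 < u) (huv : u < v) (hv : v < 2 * π) :
    (S2 u - S2 v).PosDef := by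
  refine PosDef.of_dotProduct_mulVec_pos ?_ fun y hy => ?_
  · rw [IsHermitian, conjTranspose_eq_transpose_of_trivial, transpose_sub,
      sb_S2_symm h ⟨hu, huv.trans hv⟩, sb_S2_symm h ⟨hu.trans huv, hv⟩]
  · rw [star_trivial, ← h.S2_quad hu huv hv y]
    have hsub : ∀ x ∈ Icc u v, x ∈ Ioo 0 (2 * π) := fun x hx => ⟨by linarith [hx.1], by linarith [hx.2]⟩
    have h2 : ContinuousOn (fun x => y ⬝ᵥ (Γ2 x *ᵥ y)) (uIcc u v) := by
      rw [uIcc_of_le huv.le]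
      exact fun x hx => (sb_quad_cont (h.G2cont x (hsub x hx)) y).continuousWithinAt
    refine intervalIntegral.intervalIntegral_pos_of_pos_on h2.intervalIntegrable (fun x hx => ?_) huv
    exact sb_pos (h.G2pos x (hsub x ⟨hx.1.le, hx.2.le⟩)) hy

theorem SData.LL_split (h : SData M S Γ2 S2) {u v : ℝ} (hu : 0 < u) (huv : u < v) (hv : v < 2 * π) (hu' : u ≠ π)
    (hv' : v ≠ π) (hne : v ≠ u + π) :
    (QQ S u v).det ≠ 0 ∧ LL M S u v = (1 / 2) * Real.log (M u).det + (1 / 2) * Real.log (M v).det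
      + Real.log (S2 u - S2 v).det - Real.log |(QQ S u v).det| := by
  have h1 : (S u - S v).det ≠ 0 := h.conj u v hu huv hv hu' hv' hne
  have h2 : (S u - S v).toBlocks₂₂ = S2 u - S2 v := by
    rw [h.S2eq u ⟨hu, huv.trans hv⟩ hu', h.S2eq v ⟨hu.trans huv, hv⟩ hv']
    rfl
  have h3 := det_minor (S u - S v) h1
  rw [h2] at h3
  have h4 := (h.S2_pos hu huv hv).det_pos
  have h5 : (QQ S u v).det ≠ 0 := by
    intro h6
    rw [QQ] at h6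
    rw [h6, mul_zero] at h3
    exact h4.ne' h3
  refine ⟨h5, ?_⟩
  have h6 : Real.log (S2 u - S2 v).det = Real.log |(S u - S v).det| + Real.log |(QQ S u v).det| := by
    rw [← Real.log_mul (abs_ne_zero.mpr h1) (abs_ne_zero.mpr h5), ← abs_mul, QQ, ← h3, abs_of_pos h4]
  rw [LL, h6]
  ring

end BL
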