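import Pool.Agent.Lib.MP_ccbbf6_gt.S.SGb

/-!
# SE: the equality case, part 1

Hypothesis `heq`: for `w ∈ (0, π - t)` equality in `pair1` at `(w, w + t)`.  By `pair1_eq`:
`Γ2 x = rho2 w (w+t) x • (S2 w - S2 (w+t))`, `Cm M x = rho w (w+t) x • (QQ S w (w+t))⁻¹` for `x ∈ [w, w + t]`.

* `lim_Gam2`, `lim_Cm`: `x⁻² • M x → 1` (`M0`), so `x² • (M x)⁻¹ = (x⁻² • M x)⁻¹ → 1` (the inverse is continuous at `1`), take the blocks `₂₂` (`G2eq` for `x` near `0`, `x ≠ π`);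
  `(2 sin (x/2))² / x² → 1`; `Cm M x = (M₁₁)⁻¹`, `x⁻² • M₁₁ → 1`, `sin² x / x² → 1`.
* `eq_G2`: so `x ↦ (4 sin² (x/2)) • Γ2 x` is constant on `[w, w+t]` for every `w ∈ (0, π - t)`; two points `x, y ∈ (0, t)` lie in `[w, w + t]` for
  `w = min (min x y) ((π - t)/2)`: the function is constant on `(0, t)`.  Its limit at `0+` is `1` (`lim_Gam2`), so it is `1`.
* `eq_Cm`: the same with `sin² x • Cm M x` and `lim_Cm`.
-/

open Matrix Set Filter Topology
open scoped Real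

namespace BL

variable {a b : Type} [Fintype a] [DecidableEq a] [Fintype b] [DecidableEq b]
variable {M S : ℝ → Matrix (a ⊕ b) (a ⊕ b) ℝ} {Γ2 S2 : ℝ → Matrix b b ℝ}

omit [Fintype a] [DecidableEq a] [Fintype b] [DecidableEq b] in
theorem se_block22 : Continuous (fun X : Matrix (a ⊕ b) (a ⊕ b) ℝ => X.toBlocks₂₂) :=
  continuous_matrix fun i j => continuous_apply_apply (Sum.inr i) (Sum.inr j)

omit [Fintype a] [DecidableEq a] [Fintype b] [DecidableEq b] in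
theorem se_block11 : Continuous (fun X : Matrix (a ⊕ b) (a ⊕ b) ℝ => X.toBlocks₁₁) :=
  continuous_matrix fun i j => continuous_apply_apply (Sum.inl i) (Sum.inl j)

omit [Fintype a] [Fintype b] in
theorem se_one22 : (1 : Matrix (a ⊕ b) (a ⊕ b) ℝ).toBlocks₂₂ = 1 := by
  ext i j
  simp [toBlocks₂₂, Matrix.one_apply]

omit [Fintype a] [Fintype b] in
theorem se_one11 : (1 : Matrix (a ⊕ b) (a ⊕ b) ℝ).toBlocks₁₁ = 1 := by
  ext i j
  simp [toBlocks₁₁, Matrix.one_apply]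

theorem se_tendsto_inv {k : Type} [Fintype k] [DecidableEq k] {l : Filter ℝ} {f : ℝ → Matrix k k ℝ} {B : Matrix k k ℝ}
    (h : Tendsto f l (𝓝 B)) (hB : B.det ≠ 0) : Tendsto (fun x => (f x)⁻¹) l (𝓝 B⁻¹) := by
  have h1 : Tendsto (fun x => (f x).det) l (𝓝 B.det) := (continuous_id.matrix_det.tendsto B).comp h
  have h2 : Tendsto (fun x => (f x).adjugate) l (𝓝 B.adjugate) := (continuous_id.matrix_adjugate.tendsto B).comp h
  simp only [Matrix.inv_def, Ring.inverse_eq_inv']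
  exact (h1.inv₀ hB).smul h2

theorem se_inv_smul {k : Type} [Fintype k] [DecidableEq k] {X : Matrix k k ℝ} (hX : X.det ≠ 0) {r : ℝ} (hr : r ≠ 0) :
    (r⁻¹ • X)⁻¹ = r • X⁻¹ := by
  apply Matrix.inv_eq_right_inv
  rw [Matrix.smul_mul, Matrix.mul_smul, smul_smul, inv_mul_cancel₀ hr, one_smul,
    mul_nonsing_inv X (isUnit_iff_ne_zero.mpr hX)]

theorem se_sin_div : Tendsto (fun x : ℝ => Real.sin x / x) (𝓝[>] 0) (𝓝 1) := by
  have h := (hasDerivAt_iff_tendsto_slope.mp (Real.hasDerivAt_sin 0))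
  rw [Real.cos_zero] at h
  refine (h.mono_left (nhdsWithin_mono _ (fun x hx => ne_of_gt hx))).congr fun x => ?_
  rw [slope_def_field, Real.sin_zero, sub_zero, sub_zero]

theorem se_sin_half_div : Tendsto (fun x : ℝ => 2 * Real.sin (x / 2) / x) (𝓝[>] 0) (𝓝 1) := by
  have h : Tendsto (fun x : ℝ => x / 2) (𝓝[>] 0) (𝓝[>] 0) := by
    refine tendsto_nhdsWithin_iff.mpr ⟨?_, ?_⟩
    · have : Tendsto (fun x : ℝ => x / 2) (𝓝 0) (𝓝 (0 / 2)) := by
        exact (continuous_id.div_const 2).tendsto 0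
      rw [zero_div] at this
      exact this.mono_left nhdsWithin_le_nhds
    · filter_upwards [self_mem_nhdsWithin] with x hx
      exact div_pos (show (0 : ℝ) < x from hx) two_pos
  refine (se_sin_div.comp h).congr fun x => ?_
  simp only [Function.comp_apply]
  rw [div_div_eq_mul_div, mul_comm]

theorem se_near : ∀ᶠ x in 𝓝[>] (0 : ℝ), x ∈ Ioo 0 (2 * π) ∧ x ≠ π := by
  have hπ := Real.pi_pos
  filter_upwards [Ioo_mem_nhdsGT hπ] with x hx
  exact ⟨⟨hx.1, by linarith [hx.2]⟩, hx.2.ne⟩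

theorem se_const {X : Type*} [TopologicalSpace X] [T2Space X] {F : ℝ → X} {L : X} {x : ℝ} (hx : 0 < x)
    (hF : ∀ y ∈ Ioo 0 x, F y = F x) (hlim : Tendsto F (𝓝[>] 0) (𝓝 L)) : F x = L := by
  have h : Tendsto F (𝓝[>] 0) (𝓝 (F x)) := by
    refine tendsto_const_nhds.congr' ?_
    filter_upwards [Ioo_mem_nhdsGT hx] with y hy
    exact (hF y hy).symm
  exact tendsto_nhds_unique h hlim

theorem SData.lim_Gam2 (h : SData M S Γ2 S2) :
    Tendsto (fun x : ℝ => (4 * Real.sin (x / 2) ^ 2) • Γ2 x) (𝓝[>] 0) (𝓝 1) := by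
  have h1 := se_tendsto_inv h.M0 (by rw [det_one]; exact one_ne_zero)
  rw [inv_one] at h1
  have h2 := (se_block22.tendsto (1 : Matrix (a ⊕ b) (a ⊕ b) ℝ)).comp h1
  rw [se_one22] at h2
  have h3 := (se_sin_half_div.pow 2).smul h2
  rw [one_pow, one_smul] at h3
  refine h3.congr' ?_
  filter_upwards [se_near, self_mem_nhdsWithin] with x hx hx0
  have hx0' : x ≠ 0 := ne_of_gt hx0
  have hd : (M x).det ≠ 0 := (h.Mpos x hx.1 hx.2).det_pos.ne'
  simp only [Function.comp_apply]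
  rw [se_inv_smul hd (pow_ne_zero 2 hx0'), h.G2eq x hx.1 hx.2]
  have : (x ^ 2 • (M x)⁻¹).toBlocks₂₂ = x ^ 2 • ((M x)⁻¹).toBlocks₂₂ := rfl
  rw [this, smul_smul]
  congr 1
  field_simp
  ring

theorem SData.lim_Cm (h : SData M S Γ2 S2) :
    Tendsto (fun x : ℝ => (Real.sin x ^ 2) • Cm M x) (𝓝[>] 0) (𝓝 1) := by
  have h2 := (se_block11.tendsto (1 : Matrix (a ⊕ b) (a ⊕ b) ℝ)).comp h.M0
  rw [se_one11] at h2
  have h1 := se_tendsto_inv h2 (by rw [det_one]; exact one_ne_zero)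
  rw [inv_one] at h1
  have h3 := (se_sin_div.pow 2).smul h1
  rw [one_pow, one_smul] at h3
  refine h3.congr' ?_
  filter_upwards [se_near, self_mem_nhdsWithin] with x hx hx0
  have hx0' : x ≠ 0 := ne_of_gt hx0
  have hd : ((M x).toBlocks₁₁).det ≠ 0 := (block_pos (h.Mpos x hx.1 hx.2)).1.det_pos.ne'
  simp only [Function.comp_apply]
  have : (((x ^ 2)⁻¹ • M x).toBlocks₁₁) = (x ^ 2)⁻¹ • (M x).toBlocks₁₁ := rfl
  rw [this, se_inv_smul hd (pow_ne_zero 2 hx0'), smul_smul, Cm]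
  congr 1
  field_simp

theorem SData.eq_G2 (h : SData M S Γ2 S2) {t : ℝ} (ht : t ∈ Ioo 0 π)
    (heq : ∀ w ∈ Ioo 0 (π - t), Gp M Γ2 w (w + t) w (w + t) = LL M S w (w + t)) :
    ∀ x ∈ Ioo 0 t, Γ2 x = (4 * Real.sin (x / 2) ^ 2)⁻¹ • (1 : Matrix b b ℝ) := by
  intro x hx
  have hπ := Real.pi_pos
  have hsx : ∀ y ∈ Ioo 0 t, 0 < Real.sin (y / 2) := fun y hy =>
    Real.sin_pos_of_pos_of_lt_pi (by linarith [hy.1]) (by linarith [hy.2, ht.2])
  have key : ∀ y ∈ Ioo 0 x, (4 * Real.sin (y / 2) ^ 2) • Γ2 y = (4 * Real.sin (x / 2) ^ 2) • Γ2 x := by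
    intro y hy
    have hw1 : 0 < min y ((π - t) / 2) := lt_min hy.1 (by linarith [ht.2])
    have hw2 : min y ((π - t) / 2) < π - t := lt_of_le_of_lt (min_le_right _ _) (by linarith [ht.2])
    have hw3 : min y ((π - t) / 2) ≤ y := min_le_left _ _
    obtain ⟨w, hw⟩ : ∃ w, w = min y ((π - t) / 2) := ⟨_, rfl⟩
    rw [← hw] at hw1 hw2 hw3
    have hp := (h.pair1_eq hw1 (by linarith [ht.1]) (by linarith) (heq w ⟨hw1, hw2⟩)).1
    have hy' : y ∈ Ioo 0 t := ⟨hy.1, by linarith [hy.2, hx.2]⟩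
    rw [hp y ⟨hw3, by linarith [hy.2, hx.2]⟩, hp x ⟨by linarith [hy.2], by linarith [hx.2]⟩, smul_smul, smul_smul]
    congr 1
    have k1 := (hsx y hy').ne'
    have k2 := (hsx x hx).ne'
    simp only [rho2]
    have k3 : Real.sin ((w + t - w) / 2) ≠ 0 := by
      rw [add_sub_cancel_left]
      exact (Real.sin_pos_of_pos_of_lt_pi (by linarith [ht.1]) (by linarith [ht.2])).ne'
    field_simp
  have hF := se_const (F := fun y => (4 * Real.sin (y / 2) ^ 2) • Γ2 y) hx.1 key h.lim_Gam2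
  have hF' : (4 * Real.sin (x / 2) ^ 2) • Γ2 x = 1 := hF
  have hs := hsx x hx
  rw [← hF', smul_smul, inv_mul_cancel₀ (by positivity), one_smul]

theorem SData.eq_Cm (h : SData M S Γ2 S2) {t : ℝ} (ht : t ∈ Ioo 0 π)
    (heq : ∀ w ∈ Ioo 0 (π - t), Gp M Γ2 w (w + t) w (w + t) = LL M S w (w + t)) :
    ∀ x ∈ Ioo 0 t, Cm M x = (Real.sin x ^ 2)⁻¹ • (1 : Matrix a a ℝ) := by
  intro x hx
  have hπ := Real.pi_pos
  have hsx : ∀ y ∈ Ioo 0 t, 0 < Real.sin y := fun y hy =>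
    Real.sin_pos_of_pos_of_lt_pi hy.1 (by linarith [hy.2, ht.2])
  have key : ∀ y ∈ Ioo 0 x, (Real.sin y ^ 2) • Cm M y = (Real.sin x ^ 2) • Cm M x := by
    intro y hy
    have hw1 : 0 < min y ((π - t) / 2) := lt_min hy.1 (by linarith [ht.2])
    have hw2 : min y ((π - t) / 2) < π - t := lt_of_le_of_lt (min_le_right _ _) (by linarith [ht.2])
    have hw3 : min y ((π - t) / 2) ≤ y := min_le_left _ _
    obtain ⟨w, hw⟩ : ∃ w, w = min y ((π - t) / 2) := ⟨_, rfl⟩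
    rw [← hw] at hw1 hw2 hw3
    have hp := (h.pair1_eq hw1 (by linarith [ht.1]) (by linarith) (heq w ⟨hw1, hw2⟩)).2
    have hy' : y ∈ Ioo 0 t := ⟨hy.1, by linarith [hy.2, hx.2]⟩
    rw [hp y ⟨hw3, by linarith [hy.2, hx.2]⟩, hp x ⟨by linarith [hy.2], by linarith [hx.2]⟩, smul_smul, smul_smul]
    congr 1
    have k1 := (hsx y hy').ne'
    have k2 := (hsx x hx).ne'
    simp only [rho]
    have k3 : |Real.sin (w + t - w)| ≠ 0 := by
      rw [add_sub_cancel_left]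
      exact (abs_pos.mpr (Real.sin_pos_of_pos_of_lt_pi ht.1 ht.2).ne').ne'
    field_simp
  have hF := se_const (F := fun y => (Real.sin y ^ 2) • Cm M y) hx.1 key h.lim_Cm
  have hF' : (Real.sin x ^ 2) • Cm M x = 1 := hF
  have hs := hsx x hx
  rw [← hF', smul_smul, inv_mul_cancel₀ (by positivity), one_smul]

end BL
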