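import Pool.Agent.Lib.MP_ccbbf6_gt.S.SE

/-!
# SEb: the equality case, part 2

* `eq_J`: let `w ∈ (0, π - t)`, `z = w + t < π`.  By `pair1_eq`, `Cm M x = rho w z x • (QQ S w z)⁻¹` on `[w, z]`, and `∫ w..z rho w z = 1` (`rho_int`), so
  `∫ w..z y ⬝ᵥ Cm y = y ⬝ᵥ (QQ S w z)⁻¹ y`.  `jp1_eq`: for `x ∈ (w, z)`: `∫ w..x y ⬝ᵥ Cm y = y ⬝ᵥ (QQ S w x)⁻¹ y` and
  `(S w - S x)⁻¹ * E1 = M x * E1 * Cm M x * QQ S w x`.  If moreover `x < t`: `Cm M y = (sin² y)⁻¹ • 1` on `(w, x]` (`eq_Cm`), so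
  `(QQ S w x)⁻¹` (symmetric: `QQ_symm`; a symmetric matrix is determined by its quadratic form) `= (cot w - cot x) • 1 = (sin (x-w) / (sin w sin x)) • 1`,
  `QQ S w x = (sin w sin x / sin (x-w)) • 1`, and `(S w - S x)⁻¹ * E1 = (sin w / (sin x sin (x-w))) • (M x * E1)`.
* `eq_ME`: multiply by `w⁻¹` and let `w → 0+` (`x ∈ (0, t)` fixed): `w⁻¹ • (S w - S x)⁻¹ = (w • S w - w • S x)⁻¹ → 1⁻¹ = 1` (`S0`; the inverse is continuous at `1`),
  `sin w / w → 1`: `M x * E1 = sin² x • E1`.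
* `eq_gram`: so the blocks `₁₁, ₂₁` of `M x` are `sin² x • 1` and `0`, also `₁₂` (symmetric); `(M x)⁻¹` is then block diagonal with
  `((M x)⁻¹)₂₂ = ((M x)₂₂)⁻¹`, and `eq_G2` (with `G2eq`) gives `(M x)₂₂ = 4 sin² (x/2) • 1`.
-/

open Matrix Set Filter Topology
open scoped Real

namespace BL

open Pool.Agent.BL.T1

variable {a b : Type} [Fintype a] [DecidableEq a] [Fintype b] [DecidableEq b]
variable {M S : ℝ → Matrix (a ⊕ b) (a ⊕ b) ℝ} {Γ2 S2 : ℝ → Matrix b b ℝ}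

theorem SData.eq_J (h : SData M S Γ2 S2) {t : ℝ} (ht : t ∈ Ioo 0 π)
    (heq : ∀ w ∈ Ioo 0 (π - t), Gp M Γ2 w (w + t) w (w + t) = LL M S w (w + t))
    {w x : ℝ} (hw : 0 < w) (hw' : w < π - t) (hx : w < x) (hx' : x < t) :
    (S w - S x)⁻¹ * E1 a b = (Real.sin w / (Real.sin x * Real.sin (x - w))) • (M x * E1 a b) := by
  have hπ := Real.pi_pos
  have hsw : 0 < Real.sin w := Real.sin_pos_of_pos_of_lt_pi hw (by linarith [ht.1])
  have hsz : 0 < Real.sin (w + t) := Real.sin_pos_of_pos_of_lt_pi (by linarith [ht.1]) (by linarith)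
  have hsx : 0 < Real.sin x := Real.sin_pos_of_pos_of_lt_pi (by linarith) (by linarith [ht.2])
  have hst : 0 < Real.sin (w + t - w) := by
    rw [add_sub_cancel_left]; exact Real.sin_pos_of_pos_of_lt_pi ht.1 ht.2
  have hsxw : 0 < Real.sin (x - w) := Real.sin_pos_of_pos_of_lt_pi (by linarith) (by linarith [ht.2])
  have hp := (h.pair1_eq hw (by linarith [ht.1]) (by linarith) (heq w ⟨hw, hw'⟩)).2
  have h1 : ∀ y : a → ℝ, ∫ s in w..(w + t), y ⬝ᵥ (Cm M s *ᵥ y) = y ⬝ᵥ ((QQ S w (w + t))⁻¹ *ᵥ y) := by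
    intro y
    have h2 : ∫ s in w..(w + t), y ⬝ᵥ (Cm M s *ᵥ y)
        = ∫ s in w..(w + t), rho w (w + t) s * (y ⬝ᵥ ((QQ S w (w + t))⁻¹ *ᵥ y)) := by
      refine intervalIntegral.integral_congr fun s hs => ?_
      rw [uIcc_of_le (by linarith [ht.1])] at hs
      show y ⬝ᵥ (Cm M s *ᵥ y) = _
      rw [hp s hs, smul_mulVec, dotProduct_smul, smul_eq_mul]
    rw [h2, intervalIntegral.integral_mul_const, rho_int hsw.ne' hsz.ne' hst.ne' (by linarith [ht.1])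
      (Or.inl ⟨hw, by linarith⟩), one_mul]
    rw [sg_cot_sub hsw.ne' hsz.ne', abs_of_pos hst, abs_of_pos (mul_pos hsw hsz)]
  obtain ⟨h3, h4⟩ := h.jp1_eq hw (by linarith [ht.1]) (by linarith) h1 x ⟨hx, by linarith⟩
  -- the inverse of `QQ S w x`
  have hc0 : 0 < Real.sin (x - w) / (Real.sin w * Real.sin x) := by positivity
  have hxI : x ∈ Ioo 0 (2 * π) := ⟨by linarith, by linarith [ht.2]⟩
  have hwI : w ∈ Ioo 0 (2 * π) := ⟨hw, by linarith [ht.2]⟩
  have hQ : (QQ S w x).PosDef := h.QQ_1 hx (Or.inl ⟨hw, by linarith [ht.2]⟩)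
  have h5 : (QQ S w x)⁻¹ = (Real.sin (x - w) / (Real.sin w * Real.sin x)) • (1 : Matrix a a ℝ) := by
    refine eq_of_qf (posDef_symm hQ.inv) ?_ fun y => ?_
    · rw [IsSymm, transpose_smul, transpose_one]
    · show y ⬝ᵥ ((QQ S w x)⁻¹ *ᵥ y) = y ⬝ᵥ ((_ • (1 : Matrix a a ℝ)) *ᵥ y)
      rw [← h3 y, smul_mulVec, one_mulVec, dotProduct_smul, smul_eq_mul]
      have h6 : ∫ s in w..x, y ⬝ᵥ (Cm M s *ᵥ y) = ∫ s in w..x, 1 / Real.sin s ^ 2 * (y ⬝ᵥ y) := by
        refine intervalIntegral.integral_congr fun s hs => ?_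
        rw [uIcc_of_le hx.le] at hs
        show y ⬝ᵥ (Cm M s *ᵥ y) = _
        rw [h.eq_Cm ht heq s ⟨by linarith [hs.1], by linarith [hs.2]⟩, smul_mulVec, one_mulVec, dotProduct_smul,
          smul_eq_mul, one_div]
      rw [h6, intervalIntegral.integral_mul_const, sg_cot_int, sg_cot_sub hsw.ne' hsx.ne']
      intro s hs
      rw [uIcc_of_le hx.le] at hs
      exact (Real.sin_pos_of_pos_of_lt_pi (by linarith [hs.1]) (by linarith [hs.2, ht.2])).ne'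
  have h7 : QQ S w x = (Real.sin w * Real.sin x / Real.sin (x - w)) • (1 : Matrix a a ℝ) := by
    have h8 : QQ S w x = ((QQ S w x)⁻¹)⁻¹ :=
      (nonsing_inv_nonsing_inv _ (isUnit_iff_ne_zero.mpr hQ.det_pos.ne')).symm
    rw [h8, h5]
    apply Matrix.inv_eq_right_inv
    rw [Matrix.smul_mul, Matrix.mul_smul, smul_smul, Matrix.mul_one]
    have h9 : Real.sin (x - w) / (Real.sin w * Real.sin x) * (Real.sin w * Real.sin x / Real.sin (x - w)) = 1 := by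
      field_simp
    rw [h9, one_smul]
  rw [h4, h7, h.eq_Cm ht heq x ⟨by linarith, hx'⟩, Matrix.mul_smul, Matrix.mul_one, Matrix.mul_smul,
    Matrix.mul_one, smul_smul]
  congr 1
  field_simp

theorem SData.eq_ME (h : SData M S Γ2 S2) {t : ℝ} (ht : t ∈ Ioo 0 π)
    (heq : ∀ w ∈ Ioo 0 (π - t), Gp M Γ2 w (w + t) w (w + t) = LL M S w (w + t))
    {x : ℝ} (hx : x ∈ Ioo 0 t) : M x * E1 a b = Real.sin x ^ 2 • E1 a b := by
  have hπ := Real.pi_pos
  have hsx : 0 < Real.sin x := Real.sin_pos_of_pos_of_lt_pi hx.1 (by linarith [hx.2, ht.2])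
  -- left side: `w⁻¹ • (S w - S x)⁻¹ → 1`
  have h0 : Tendsto (fun w : ℝ => w • S x) (𝓝[>] 0) (𝓝 0) := by
    have h1 : Tendsto (fun w : ℝ => w) (𝓝[>] 0) (𝓝 0) := tendsto_id.mono_left nhdsWithin_le_nhds
    have h2 := h1.smul_const (S x)
    rwa [zero_smul] at h2
  have h1 : Tendsto (fun w : ℝ => (w • S w - w • S x)⁻¹) (𝓝[>] 0) (𝓝 1) := by
    have h2 := se_tendsto_inv (h.S0.sub h0) (by rw [sub_zero, det_one]; exact one_ne_zero)
    rwa [sub_zero, inv_one] at h2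
  have h3 : Tendsto (fun w : ℝ => (w • S w - w • S x)⁻¹ * E1 a b) (𝓝[>] 0) (𝓝 (E1 a b)) := by
    have h4 : Continuous fun X : Matrix (a ⊕ b) (a ⊕ b) ℝ => X * E1 a b := by fun_prop
    have h5 := (h4.tendsto 1).comp h1
    simp only [Matrix.one_mul] at h5
    exact h5
  -- right side
  have h6 : Tendsto (fun w : ℝ => (Real.sin w / w / (Real.sin x * Real.sin (x - w))) • (M x * E1 a b)) (𝓝[>] 0)
      (𝓝 ((1 / (Real.sin x * Real.sin x)) • (M x * E1 a b))) := by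
    have h7 : Tendsto (fun w : ℝ => Real.sin x * Real.sin (x - w)) (𝓝[>] 0) (𝓝 (Real.sin x * Real.sin x)) := by
      have h8 : Continuous fun w : ℝ => Real.sin x * Real.sin (x - w) := by fun_prop
      have h9 := h8.tendsto 0
      rw [sub_zero] at h9
      exact h9.mono_left nhdsWithin_le_nhds
    exact (se_sin_div.div h7 (mul_pos hsx hsx).ne').smul_const _
  have h10 : ∀ᶠ w : ℝ in 𝓝[>] 0, (w • S w - w • S x)⁻¹ * E1 a b
      = (Real.sin w / w / (Real.sin x * Real.sin (x - w))) • (M x * E1 a b) := by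
    have hm : 0 < min x (π - t) := lt_min hx.1 (by linarith [ht.2])
    filter_upwards [Ioo_mem_nhdsGT hm] with w hw
    have hw0 : w < x := lt_of_lt_of_le hw.2 (min_le_left _ _)
    have hw1 : w < π - t := lt_of_lt_of_le hw.2 (min_le_right _ _)
    have hJ := h.eq_J ht heq hw.1 hw1 hw0 hx.2
    have hd : (S w - S x).det ≠ 0 :=
      h.conj w x hw.1 hw0 (by linarith [hx.2, ht.2]) (by linarith [hx.2, ht.2]) (by linarith [hx.2, ht.2])
        (by linarith [hx.2, ht.2, hw.1])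
    have hk : (w • S w - w • S x)⁻¹ = w⁻¹ • (S w - S x)⁻¹ := by
      have hk1 := se_inv_smul hd (inv_ne_zero hw.1.ne')
      rw [inv_inv] at hk1
      rw [← smul_sub, hk1]
    rw [hk, Matrix.smul_mul, hJ, smul_smul]
    congr 1
    have hsxw : 0 < Real.sin (x - w) := Real.sin_pos_of_pos_of_lt_pi (by linarith) (by linarith [hx.2, ht.2, hw.1])
    have hw2 : w ≠ 0 := hw.1.ne'
    field_simp
  have h11 := tendsto_nhds_unique (h3.congr' h10) h6
  have h12 : Real.sin x ^ 2 * (1 / (Real.sin x * Real.sin x)) = 1 := by field_simp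
  have h13 : Real.sin x ^ 2 • E1 a b = Real.sin x ^ 2 • ((1 / (Real.sin x * Real.sin x)) • (M x * E1 a b)) := by
    rw [← h11]
  rw [h13, smul_smul, h12, one_smul]

theorem SData.eq_gram (h : SData M S Γ2 S2) {t : ℝ} (ht : t ∈ Ioo 0 π)
    (heq : ∀ w ∈ Ioo 0 (π - t), Gp M Γ2 w (w + t) w (w + t) = LL M S w (w + t))
    {x : ℝ} (hx : x ∈ Ioo 0 t) :
    M x = fromBlocks (Real.sin x ^ 2 • (1 : Matrix a a ℝ)) 0 0 ((4 * Real.sin (x / 2) ^ 2) • (1 : Matrix b b ℝ)) := by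
  have hπ := Real.pi_pos
  have hsx : 0 < Real.sin x := Real.sin_pos_of_pos_of_lt_pi hx.1 (by linarith [hx.2, ht.2])
  have hsx2 : 0 < Real.sin (x / 2) := Real.sin_pos_of_pos_of_lt_pi (by linarith [hx.1]) (by linarith [hx.2, ht.2])
  have hxI : x ∈ Ioo 0 (2 * π) := ⟨hx.1, by linarith [hx.2, ht.2]⟩
  have hxπ : x ≠ π := by linarith [hx.2, ht.2]
  have hME := h.eq_ME ht heq hx
  have hsymm := posDef_symm (h.Mpos x hxI hxπ)
  have hent : ∀ (i : a ⊕ b) (j : a), M x i (Sum.inl j) = Real.sin x ^ 2 * (1 : Matrix (a ⊕ b) (a ⊕ b) ℝ) i (Sum.inl j) := by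
    intro i j
    have h1 := congrFun (congrFun hME i) j
    have h2 : (M x * E1 a b) i j = M x i (Sum.inl j) := by
      have h3 : M x * E1 a b = (M x).submatrix id Sum.inl := by
        ext i' j'
        simp [E1, Matrix.mul_apply, Matrix.one_apply]
      rw [h3]; rfl
    rw [h2] at h1
    rw [h1]; rfl
  have h11 : (M x).toBlocks₁₁ = Real.sin x ^ 2 • (1 : Matrix a a ℝ) := by
    ext i j
    show M x (Sum.inl i) (Sum.inl j) = _
    rw [hent]
    simp [Matrix.one_apply]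
  have h21 : (M x).toBlocks₂₁ = 0 := by
    ext i j
    show M x (Sum.inr i) (Sum.inl j) = _
    rw [hent]
    simp
  have h12 : (M x).toBlocks₁₂ = 0 := by
    ext i j
    have h3 : (M x) (Sum.inl i) (Sum.inr j) = M x (Sum.inr j) (Sum.inl i) := by
      have := congrFun (congrFun hsymm.eq (Sum.inl i)) (Sum.inr j)
      exact this.symm
    show M x (Sum.inl i) (Sum.inr j) = _
    rw [h3, hent]
    simp
  have hM : M x = fromBlocks ((M x).toBlocks₁₁) 0 0 ((M x).toBlocks₂₂) := by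
    conv_lhs => rw [← fromBlocks_toBlocks (M x)]
    rw [h12, h21]
  have hdet : (M x).det ≠ 0 := (h.Mpos x hxI hxπ).det_pos.ne'
  have hdet2 : ((M x).toBlocks₂₂).det ≠ 0 := (block_pos (h.Mpos x hxI hxπ)).2.det_pos.ne'
  have hdet1 : ((M x).toBlocks₁₁).det ≠ 0 := (block_pos (h.Mpos x hxI hxπ)).1.det_pos.ne'
  have hinv : (M x)⁻¹ = fromBlocks (((M x).toBlocks₁₁)⁻¹) 0 0 (((M x).toBlocks₂₂)⁻¹) := by
    have hgen : ∀ (X : Matrix a a ℝ) (Y : Matrix b b ℝ), X.det ≠ 0 → Y.det ≠ 0 →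
        (fromBlocks X 0 0 Y)⁻¹ = fromBlocks X⁻¹ 0 0 Y⁻¹ := by
      intro X Y hX hY
      apply Matrix.inv_eq_right_inv
      rw [fromBlocks_multiply, mul_nonsing_inv _ (isUnit_iff_ne_zero.mpr hX),
        mul_nonsing_inv _ (isUnit_iff_ne_zero.mpr hY)]
      simp
    rw [← hgen _ _ hdet1 hdet2, ← hM]
  have hG := h.eq_G2 ht heq x hx
  rw [h.G2eq x hxI hxπ, hinv, toBlocks_fromBlocks₂₂] at hG
  have h22 : (M x).toBlocks₂₂ = (4 * Real.sin (x / 2) ^ 2) • (1 : Matrix b b ℝ) := by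
    have h4 : (M x).toBlocks₂₂ = (((M x).toBlocks₂₂)⁻¹)⁻¹ :=
      (nonsing_inv_nonsing_inv _ (isUnit_iff_ne_zero.mpr hdet2)).symm
    rw [h4, hG]
    apply Matrix.inv_eq_right_inv
    rw [Matrix.smul_mul, Matrix.mul_smul, smul_smul, Matrix.mul_one]
    have h5 : (4 * Real.sin (x / 2) ^ 2)⁻¹ * (4 * Real.sin (x / 2) ^ 2) = 1 := by field_simp
    rw [h5, one_smul]
  rw [hM, h11, h22]

end BL
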