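import Pool.Agent.Lib.MP_ccbbf6_gt.LD
import Pool.Agent.Lib.MP_ccbbf6_gt.S.SB

/-!
# SG: the inequalities for the two blocks

* `rho2_int`: `∫ u..v rho2 u v = 1` because `(- cot (x/2) / 2)' = 1 / (4 sin² (x/2))` and `cot (u/2) - cot (v/2) = sin ((v-u)/2) / (sin (u/2) sin (v/2))`.
* `rho_int`: the same: `(- cot x)' = 1 / sin² x`.
* `gb`: `logdet_jensen` with `M = S2 u - S2 v` (`SData.S2_pos`, `SData.S2_quad`), `Cf = Γ2`, `ρ = rho2 u v`.  `log det (Γ2 x) = - 2 ps x - 2 ν log (2 sin (x/2))` and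
  `log (rho2 u v x) = log c - 2 log (2 sin (x/2))`, `c = 2 sin (u/2) * 2 sin (v/2) / (2 sin ((v-u)/2))`, so the left side of `logdet_jensen` is
  `- 2 ∫ rho2 ps - ν log c`.
* `gj`: the same for the first block on an interval `[α, β]` where `sin ≠ 0`: `ρ = rho u v`, `∫ α..β 1 / sin² = cot α - cot β = |sin (v-u)| / |sin u sin v|` (hypothesis `hcot`),
  `log det (Cm x) = - 2 ph x - 2 κ log |sin x|` (`Matrix.det_nonsing_inv`), `log (rho u v x) = log (|sin u sin v| / |sin (v-u)|) - 2 log |sin x|`.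
-/

open Matrix Set Filter Topology
open scoped Real

namespace BL

/-- `∫ 1 / sin² = cot α - cot β` -/
theorem sg_cot_int {α β : ℝ} (h : ∀ x ∈ uIcc α β, Real.sin x ≠ 0) :
    ∫ x in α..β, 1 / Real.sin x ^ 2 = Real.cos α / Real.sin α - Real.cos β / Real.sin β := by
  have hd : ∀ x ∈ uIcc α β, HasDerivAt (fun x => -(Real.cos x / Real.sin x)) (1 / Real.sin x ^ 2) x := by
    intro x hx
    have h1 := ((Real.hasDerivAt_cos x).fun_div (Real.hasDerivAt_sin x) (h x hx)).fun_neg
    have h2 : -((-Real.sin x * Real.sin x - Real.cos x * Real.cos x) / Real.sin x ^ 2) = 1 / Real.sin x ^ 2 := by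
      rw [← neg_div]
      congr 1
      nlinarith [Real.sin_sq_add_cos_sq x]
    rw [h2] at h1
    exact h1
  have hc : ContinuousOn (fun x => 1 / Real.sin x ^ 2) (uIcc α β) :=
    ContinuousOn.div (by fun_prop) (by fun_prop) (fun x hx => pow_ne_zero _ (h x hx))
  rw [intervalIntegral.integral_eq_sub_of_hasDerivAt hd hc.intervalIntegrable]
  ring

theorem sg_cot_sub {u v : ℝ} (hu : Real.sin u ≠ 0) (hv : Real.sin v ≠ 0) :
    Real.cos u / Real.sin u - Real.cos v / Real.sin v = Real.sin (v - u) / (Real.sin u * Real.sin v) := by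
  rw [Real.sin_sub]
  field_simp

theorem sg_cot_add_pi (u : ℝ) : Real.cos (u + π) / Real.sin (u + π) = Real.cos u / Real.sin u := by
  rw [Real.cos_add_pi, Real.sin_add_pi, neg_div_neg_eq]

theorem sg_cot_sub_pi (u : ℝ) : Real.cos (u - π) / Real.sin (u - π) = Real.cos u / Real.sin u := by
  rw [Real.cos_sub_pi, Real.sin_sub_pi, neg_div_neg_eq]

/-- `sin (x/2) > 0` on `(0, 2π)` -/
theorem sg_half_pos {x : ℝ} (h0 : 0 < x) (h1 : x < 2 * π) : 0 < Real.sin (x / 2) :=
  Real.sin_pos_of_pos_of_lt_pi (by linarith) (by linarith)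

theorem sg_log_frac {A B C X : ℝ} (hA : 0 < A) (hB : 0 < B) (hC : 0 < C) (hX : 0 < X) :
    Real.log (A * B / (C * X ^ 2)) = Real.log A + Real.log B - Real.log C - 2 * Real.log X := by
  rw [Real.log_div (by positivity) (by positivity), Real.log_mul hA.ne' hB.ne',
    Real.log_mul hC.ne' (by positivity), Real.log_pow]
  push_cast
  ring

theorem rho2_int {u v : ℝ} (hu : 0 < u) (huv : u < v) (hv : v < 2 * π) : ∫ x in u..v, rho2 u v x = 1 := by
  have hsu := sg_half_pos hu (by linarith)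
  have hsv := sg_half_pos (by linarith) hv
  have hsd := sg_half_pos (x := v - u) (by linarith) (by linarith)
  have h1 : ∀ x, rho2 u v x = Real.sin (u / 2) * Real.sin (v / 2) / (2 * Real.sin ((v - u) / 2)) *
      (1 / Real.sin (x / 2) ^ 2) := by
    intro x
    rw [rho2, div_mul_div_comm, mul_one]
  simp only [h1]
  rw [intervalIntegral.integral_const_mul,
    intervalIntegral.integral_comp_div (fun x => 1 / Real.sin x ^ 2) (two_ne_zero), sg_cot_int, sg_cot_sub hsu.ne' hsv.ne']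
  · have : v / 2 - u / 2 = (v - u) / 2 := by ring
    rw [this, smul_eq_mul]
    field_simp
  · intro x hx
    rw [uIcc_of_le (by linarith)] at hx
    exact (Real.sin_pos_of_pos_of_lt_pi (by linarith [hx.1]) (by linarith [hx.2])).ne'

theorem sg_mem {α β : ℝ} (hc : (0 < α ∧ β < π) ∨ (π < α ∧ β < 2 * π)) :
    ∀ x ∈ Icc α β, x ∈ Ioo 0 (2 * π) ∧ x ≠ π ∧ Real.sin x ≠ 0 := by
  intro x hx
  rcases hc with ⟨h0, h1⟩ | ⟨h0, h1⟩
  · have hs := Real.sin_pos_of_pos_of_lt_pi (x := x) (by linarith [hx.1]) (by linarith [hx.2])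
    exact ⟨⟨by linarith [hx.1], by linarith [hx.2, Real.pi_pos]⟩, by linarith [hx.2], hs.ne'⟩
  · have hs := Real.sin_pos_of_pos_of_lt_pi (x := x - π) (by linarith [hx.1]) (by linarith [hx.2])
    rw [Real.sin_sub_pi] at hs
    exact ⟨⟨by linarith [hx.1, Real.pi_pos], by linarith [hx.2]⟩, by linarith [hx.1], by linarith⟩

theorem rho_int {u v α β : ℝ} (hu : Real.sin u ≠ 0) (hv : Real.sin v ≠ 0)
    (huv : Real.sin (v - u) ≠ 0) (hab : α < β) (hc : (0 < α ∧ β < π) ∨ (π < α ∧ β < 2 * π))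
    (hcot : Real.cos α / Real.sin α - Real.cos β / Real.sin β = |Real.sin (v - u)| / |Real.sin u * Real.sin v|) :
    ∫ x in α..β, rho u v x = 1 := by
  have hsu : 0 < |Real.sin u| := abs_pos.mpr hu
  have hsv : 0 < |Real.sin v| := abs_pos.mpr hv
  have hsd : 0 < |Real.sin (v - u)| := abs_pos.mpr huv
  have h1 : ∀ x, rho u v x = |Real.sin u * Real.sin v| / |Real.sin (v - u)| * (1 / Real.sin x ^ 2) := by
    intro x
    rw [rho, div_mul_div_comm, mul_one]
  simp only [h1]
  rw [intervalIntegral.integral_const_mul, sg_cot_int, hcot]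
  · have h2 : |Real.sin u * Real.sin v| ≠ 0 := by rw [abs_mul]; positivity
    field_simp
  · intro x hx
    rw [uIcc_of_le hab.le] at hx
    exact (sg_mem hc x hx).2.2

/-- `logdet_jensen` for a weight with `log ρ = lc - 2 L` and `log det C = - 2 p - 2 k L` -/
theorem sg_jensen {k : Type} [Fintype k] [DecidableEq k] {M : Matrix k k ℝ} (hM : M.PosDef)
    {Cf : ℝ → Matrix k k ℝ} {α β lc : ℝ} (hab : α < β)
    (hc : ContinuousOn Cf (Icc α β)) (hC : ∀ x ∈ Icc α β, (Cf x).PosDef)
    {ρ p L : ℝ → ℝ} (hρc : ContinuousOn ρ (Icc α β)) (hρ : ∀ x ∈ Icc α β, 0 < ρ x) (hρ1 : ∫ x in α..β, ρ x = 1)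
    (hlC : ∀ x ∈ Icc α β, Real.log (Cf x).det = -2 * p x - 2 * (Fintype.card k : ℝ) * L x)
    (hlρ : ∀ x ∈ Icc α β, Real.log (ρ x) = lc - 2 * L x)
    (hq : ∀ y : k → ℝ, ∫ x in α..β, y ⬝ᵥ (Cf x *ᵥ y) ≤ y ⬝ᵥ (M *ᵥ y)) :
    -2 * (∫ x in α..β, ρ x * p x) - (Fintype.card k : ℝ) * lc ≤ Real.log M.det ∧
    (-2 * (∫ x in α..β, ρ x * p x) - (Fintype.card k : ℝ) * lc = Real.log M.det →
      ∀ x ∈ Icc α β, Cf x = ρ x • M) := by
  have hdetc : ContinuousOn (fun x => (Cf x).det) (Icc α β) := (continuous_id.matrix_det).comp_continuousOn hc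
  have hL : ContinuousOn (fun x => ρ x * (Real.log (Cf x).det - (Fintype.card k : ℝ) * Real.log (ρ x)))
      (Icc α β) := by
    refine hρc.mul (ContinuousOn.sub ?_ (continuousOn_const.mul ?_))
    · exact hdetc.log fun x hx => (hC x hx).det_pos.ne'
    · exact hρc.log fun x hx => (hρ x hx).ne'
  have e1 : IntervalIntegrable (fun x => ρ x * (Real.log (Cf x).det - (Fintype.card k : ℝ) * Real.log (ρ x)))
      MeasureTheory.volume α β := by
    apply ContinuousOn.intervalIntegrable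
    rwa [uIcc_of_le hab.le]
  have e2 : IntervalIntegrable (fun x => (Fintype.card k : ℝ) * lc * ρ x) MeasureTheory.volume α β := by
    apply ContinuousOn.intervalIntegrable
    rw [uIcc_of_le hab.le]
    exact continuousOn_const.mul hρc
  have key : ∫ x in α..β, ρ x * (Real.log (Cf x).det - (Fintype.card k : ℝ) * Real.log (ρ x)) =
      -2 * (∫ x in α..β, ρ x * p x) - (Fintype.card k : ℝ) * lc := by
    have h1 : ∫ x in α..β, -2 * (ρ x * p x) =
        ∫ x in α..β, (ρ x * (Real.log (Cf x).det - (Fintype.card k : ℝ) * Real.log (ρ x)) +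
          (Fintype.card k : ℝ) * lc * ρ x) := by
      refine intervalIntegral.integral_congr fun x hx => ?_
      rw [uIcc_of_le hab.le] at hx
      show -2 * (ρ x * p x) = ρ x * (Real.log (Cf x).det - (Fintype.card k : ℝ) * Real.log (ρ x)) +
          (Fintype.card k : ℝ) * lc * ρ x
      rw [hlC x hx, hlρ x hx]
      ring
    rw [intervalIntegral.integral_add e1 e2, intervalIntegral.integral_const_mul,
      intervalIntegral.integral_const_mul, hρ1] at h1
    linarith
  have hj := logdet_jensen hM hab hc hC hρc hρ hρ1 hq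
  rw [key] at hj
  exact hj

variable {a b : Type} [Fintype a] [DecidableEq a] [Fintype b] [DecidableEq b]
variable {M S : ℝ → Matrix (a ⊕ b) (a ⊕ b) ℝ} {Γ2 S2 : ℝ → Matrix b b ℝ}

theorem SData.gb (h : SData M S Γ2 S2) {u v : ℝ} (hu : 0 < u) (huv : u < v) (hv : v < 2 * π) :
    ((Fintype.card b : ℝ) * Real.log (2 * Real.sin ((v - u) / 2)) - 2 * ∫ x in u..v, rho2 u v x * ps Γ2 x
      ≤ Real.log (S2 u - S2 v).det + (Fintype.card b : ℝ) * Real.log (2 * Real.sin (u / 2))
        + (Fintype.card b : ℝ) * Real.log (2 * Real.sin (v / 2))) ∧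
    ((Fintype.card b : ℝ) * Real.log (2 * Real.sin ((v - u) / 2)) - 2 * ∫ x in u..v, rho2 u v x * ps Γ2 x
      = Real.log (S2 u - S2 v).det + (Fintype.card b : ℝ) * Real.log (2 * Real.sin (u / 2))
        + (Fintype.card b : ℝ) * Real.log (2 * Real.sin (v / 2)) →
      ∀ x ∈ Icc u v, Γ2 x = rho2 u v x • (S2 u - S2 v)) := by
  have hsu := sg_half_pos hu (by linarith)
  have hsv := sg_half_pos (by linarith) hv
  have hsd := sg_half_pos (x := v - u) (by linarith) (by linarith)
  have hmem : ∀ x ∈ Icc u v, x ∈ Ioo 0 (2 * π) := fun x hx => ⟨by linarith [hx.1], by linarith [hx.2]⟩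
  have hsx : ∀ x ∈ Icc u v, 0 < Real.sin (x / 2) := fun x hx => sg_half_pos (hmem x hx).1 (hmem x hx).2
  have hρc : ContinuousOn (rho2 u v) (Icc u v) := by
    unfold rho2
    refine ContinuousOn.div (by fun_prop) (by fun_prop) fun x hx => ?_
    have := hsx x hx
    positivity
  have hρ : ∀ x ∈ Icc u v, 0 < rho2 u v x := by
    intro x hx
    have := hsx x hx
    unfold rho2
    positivity
  have hj := sg_jensen (h.S2_pos hu huv hv) huv (fun x hx => (h.G2cont x (hmem x hx)).continuousWithinAt)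
    (fun x hx => h.G2pos x (hmem x hx)) hρc hρ (rho2_int hu huv hv) (p := ps Γ2)
    (L := fun x => Real.log (2 * Real.sin (x / 2)))
    (lc := Real.log (2 * Real.sin (u / 2)) + Real.log (2 * Real.sin (v / 2)) -
      Real.log (2 * Real.sin ((v - u) / 2)))
    (fun x hx => by simp only [ps]; ring)
    (fun x hx => by
      have h1 := hsx x hx
      have h2 : rho2 u v x = (2 * Real.sin (u / 2)) * (2 * Real.sin (v / 2)) /
          ((2 * Real.sin ((v - u) / 2)) * (2 * Real.sin (x / 2)) ^ 2) := by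
        unfold rho2
        field_simp
      rw [h2, sg_log_frac (by positivity) (by positivity) (by positivity) (by positivity)])
    (fun y => (h.S2_quad hu huv hv y).le)
  constructor
  · linarith [hj.1]
  · intro heq
    exact hj.2 (by linarith)

theorem SData.gj (h : SData M S Γ2 S2) {u v α β : ℝ} (hu : Real.sin u ≠ 0) (hv : Real.sin v ≠ 0)
    (huv : Real.sin (v - u) ≠ 0) (hab : α < β) (hc : (0 < α ∧ β < π) ∨ (π < α ∧ β < 2 * π))
    (hcot : Real.cos α / Real.sin α - Real.cos β / Real.sin β = |Real.sin (v - u)| / |Real.sin u * Real.sin v|)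
    {K : Matrix a a ℝ} (hK : K.PosDef)
    (hq : ∀ y : a → ℝ, ∫ x in α..β, y ⬝ᵥ (Cm M x *ᵥ y) ≤ y ⬝ᵥ (K *ᵥ y)) :
    ((Fintype.card a : ℝ) * Real.log |Real.sin (v - u)| - 2 * ∫ x in α..β, rho u v x * ph M x
      ≤ Real.log K.det + (Fintype.card a : ℝ) * Real.log |Real.sin u| + (Fintype.card a : ℝ) * Real.log |Real.sin v|) ∧
    ((Fintype.card a : ℝ) * Real.log |Real.sin (v - u)| - 2 * ∫ x in α..β, rho u v x * ph M x
      = Real.log K.det + (Fintype.card a : ℝ) * Real.log |Real.sin u| + (Fintype.card a : ℝ) * Real.log |Real.sin v| →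
      ∀ x ∈ Icc α β, Cm M x = rho u v x • K) := by
  have hmem := sg_mem hc
  have hsu : 0 < |Real.sin u| := abs_pos.mpr hu
  have hsv : 0 < |Real.sin v| := abs_pos.mpr hv
  have hsd : 0 < |Real.sin (v - u)| := abs_pos.mpr huv
  have hρc : ContinuousOn (rho u v) (Icc α β) := by
    unfold rho
    refine ContinuousOn.div (by fun_prop) (by fun_prop) fun x hx => ?_
    exact mul_ne_zero hsd.ne' (pow_ne_zero _ (hmem x hx).2.2)
  have hρ : ∀ x ∈ Icc α β, 0 < rho u v x := by
    intro x hx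
    have h1 := (hmem x hx).2.2
    unfold rho
    rw [abs_mul]
    positivity
  have hρ1 := rho_int hu hv huv hab hc hcot
  have hj := sg_jensen hK hab (fun x hx => ((h.Cm_cont (hmem x hx).1 (hmem x hx).2.1).1).continuousWithinAt)
    (fun x hx => (h.Cm_cont (hmem x hx).1 (hmem x hx).2.1).2) hρc hρ hρ1 (p := ph M)
    (L := fun x => Real.log |Real.sin x|)
    (lc := Real.log |Real.sin u| + Real.log |Real.sin v| - Real.log |Real.sin (v - u)|)
    (fun x hx => by
      simp only [ph, Cm]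
      rw [det_nonsing_inv, Ring.inverse_eq_inv', Real.log_inv]
      ring)
    (fun x hx => by
      have h1 : 0 < |Real.sin x| := abs_pos.mpr (hmem x hx).2.2
      have h2 : rho u v x = |Real.sin u| * |Real.sin v| / (|Real.sin (v - u)| * |Real.sin x| ^ 2) := by
        unfold rho
        rw [abs_mul, sq_abs]
      rw [h2, sg_log_frac hsu hsv hsd h1])
    hq
  constructor
  · linarith [hj.1]
  · intro heq
    exact hj.2 (by linarith)

end BL
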