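import Pool.Agent.Lib.MP_ccbbf6_gt.T1.Link

/-!
# SQ: signs of `QQ`

`QQ S u v = ((S u - S v)⁻¹)₁₁ = (sch (S u - S v))⁻¹` (`QQ_eq_sch`); the signs of the Schur complement are proved in `T1/Pairs`
(superadditivity of the Schur complement, connectedness).
-/

open Matrix Set Filter Topology
open scoped Real

namespace BL

open Pool.Agent.BL.T1

variable {a b : Type} [Fintype a] [DecidableEq a] [Fintype b] [DecidableEq b]
variable {M S : ℝ → Matrix (a ⊕ b) (a ⊕ b) ℝ} {Γ2 S2 : ℝ → Matrix b b ℝ}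

theorem sq_mem {x : ℝ} (h0 : 0 < x) (h2 : x < 2 * π) (h1 : x ≠ π) : x ∈ UU := ⟨h0, h2, h1⟩

theorem SData.QQ_eq_sch (h : SData M S Γ2 S2) {u v : ℝ} (hu : 0 < u) (huv : u < v) (hv : v < 2 * π) (hu' : u ≠ π)
    (hv' : v ≠ π) (hne : v ≠ u + π) : QQ S u v = (sch (S u - S v))⁻¹ := by
  have huU := sq_mem hu (huv.trans hv) hu'
  have hvU := sq_mem (hu.trans huv) hv hv'
  exact inv_toBlocks₁₁ (h.conj u v hu huv hv hu' hv' hne) ((jd_of h).pos22' huU hvU huv).det_pos.ne'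

theorem SData.QQ_1 (h : SData M S Γ2 S2) {w x : ℝ} (hwx : w < x) (hc : (0 < w ∧ x < π) ∨ (π < w ∧ x < 2 * π)) :
    (QQ S w x).PosDef := by
  have hpi := Real.pi_pos
  have h1 := ((jd_of h).jp1 hwx hc).1
  have h2 : QQ S w x = (sch (S w - S x))⁻¹ := by
    rcases hc with ⟨h3, h4⟩ | ⟨h3, h4⟩
    · exact h.QQ_eq_sch h3 hwx (by linarith) (hwx.trans h4).ne h4.ne (by linarith)
    · exact h.QQ_eq_sch (by linarith) hwx h4 h3.ne' (h3.trans hwx).ne' (by linarith)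
  rw [h2]
  exact (posDef_sch h1).inv

theorem SData.QQ_2 (h : SData M S Γ2 S2) {w x : ℝ} (hw : 0 < w) (hw' : w < π) (hx : π < x) (hx' : x < w + π) :
    (-(QQ S w x)).PosDef := by
  have hpi := Real.pi_pos
  have h1 := ((jd_of h).jp2 hw hw' hx hx').1
  have h2 : QQ S w x = (sch (S w - S x))⁻¹ :=
    h.QQ_eq_sch hw (hw'.trans hx) (by linarith) hw'.ne hx.ne' hx'.ne
  have hu : IsUnit (sch (S w - S x)).det := by
    have h3 := h1.det_pos.ne'
    rw [det_neg] at h3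
    exact isUnit_iff_ne_zero.mpr (right_ne_zero_of_mul h3)
  have h3 : -(QQ S w x) = (-(sch (S w - S x)))⁻¹ := by
    rw [h2]
    symm
    apply inv_eq_right_inv
    rw [neg_mul_neg, mul_nonsing_inv _ hu]
  rw [h3]
  exact h1.inv

theorem SData.QQ_3 (h : SData M S Γ2 S2) {u v : ℝ} (hu : 0 < u) (hv : u + π < v) (hv' : v < 2 * π) :
    (QQ S u v).PosDef := by
  have hpi := Real.pi_pos
  have h1 := ((jd_of h).jp3 hu hv hv').1
  have h2 : QQ S u v = (sch (S u - S v))⁻¹ :=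
    h.QQ_eq_sch hu (by linarith) hv' (by linarith : u < π).ne (by linarith : π < v).ne' hv.ne'
  rw [h2]
  exact (posDef_sch h1).inv

end BL
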